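import Mathlib

set_option autoImplicit false

open MeasureTheory Set Filter Topology
open scoped ContDiff

namespace Pool.Agent.Q178.MW

/-- the parameter space `ℝ^m` of the charts (with Lebesgue measure) -/
abbrev P (m : ℕ) : Type := Fin m → ℝ

/-- Euclidean space `ℝ^n` -/
abbrev E (n : ℕ) : Type := EuclideanSpace ℝ (Fin n)

variable {m n : ℕ}

/-- the matrix of scalar products -/
noncomputable def gm (v w : Fin m → E n) : Matrix (Fin m) (Fin m) ℝ :=
  Matrix.of fun i j => inner ℝ (v i) (w j)

/-- the scalar product `⟨v_1 ∧ … ∧ v_m, w_1 ∧ … ∧ w_m⟩ = det (⟨v_i, w_j⟩)` -/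
noncomputable def mv (v w : Fin m → E n) : ℝ := (gm v w).det

/-- the scalar product of the contractions of the two `m`-vectors with `d` -/
noncomputable def cc (v w : Fin m → E n) (d : E n) : ℝ :=
  ∑ i, ∑ j, inner ℝ d (w j) * (gm v w).adjugate j i * inner ℝ (v i) d

/-- the `j`-th partial derivative of `φ` at `u` -/
noncomputable def pd (φ : P m → E n) (u : P m) (j : Fin m) : E n :=
  fderiv ℝ φ u (Pi.single j 1)

/-- `φ`, on the open set `U ⊆ ℝ^m`, is a smooth local parametrization of the set `M ⊆ ℝ^n`: an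
injective immersion which maps open subsets of `U` to relatively open subsets of `M`. -/
structure IsParam (M : Set (E n)) (U : Set (P m)) (φ : P m → E n) : Prop where
  isOpen : IsOpen U
  smooth : ContDiffOn ℝ ∞ φ U
  inj : InjOn φ U
  immersion : ∀ u ∈ U, Function.Injective (fderiv ℝ φ u)
  image : ∀ U' ⊆ U, IsOpen U' → ∃ V : Set (E n), IsOpen V ∧ φ '' U' = M ∩ V

/-- a local parametrization whose partial derivatives form, at each point, a basis of the oriented
plane with positive orthonormal basis `b (φ u)` which is positively oriented -/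
structure IsChart (M : Set (E n)) (b : E n → Fin m → E n) (U : Set (P m)) (φ : P m → E n) : Prop
    extends IsParam M U φ where
  tangent : ∀ u ∈ U, ∀ j, pd φ u j ∈ Submodule.span ℝ (range (b (φ u)))
  oriented : ∀ u ∈ U, 0 < mv (b (φ u)) (pd φ u)

/-- An oriented closed (compact, without boundary) smooth `m`-dimensional submanifold of `ℝ^n`
with its volume measure: the orientation is given by a positively oriented orthonormal basis
`frame x` of the tangent space at every point `x`; every point is in the image of a positively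
oriented local parametrization; the volume measure is concentrated on the submanifold and is
`√det(⟨∂_i φ, ∂_j φ⟩) du` in every positively oriented local parametrization `φ`. -/
structure Sub (m n : ℕ) where
  carrier : Set (E n)
  compact : IsCompact carrier
  frame : E n → Fin m → E n
  orthonormal : ∀ x ∈ carrier, Orthonormal ℝ (frame x)
  chart : ∀ x ∈ carrier, ∃ (U : Set (P m)) (φ : P m → E n),
    IsChart carrier frame U φ ∧ x ∈ φ '' U
  vol : Measure (E n)
  vol_compl : vol carrierᶜ = 0
  vol_chart : ∀ (U : Set (P m)) (φ : P m → E n), IsChart carrier frame U φ →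
    vol.restrict (φ '' U) = Measure.map φ ((volume.restrict U).withDensity
      fun u => ENNReal.ofReal (Real.sqrt (mv (pd φ u) (pd φ u))))

/-- the `ν`-weighted energy integral
`∬ ⟨T_x M, T_y M⟩ |x - y|^z dv(x) dv(y)` -/
noncomputable def energy (M : Sub m n) (z : ℂ) : ℂ :=
  ∫ x, ∫ y, (mv (M.frame x) (M.frame y) : ℂ) * ((‖x - y‖ : ℝ) : ℂ) ^ z ∂M.vol ∂M.vol

/-- `B` is the meromorphic energy function `B_{M,ν}`: it is meromorphic on `ℂ` and given by the
energy integral for `Re z > -m` -/
def IsEnergy (M : Sub m n) (B : ℂ → ℂ) : Prop :=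
  MeromorphicOn B univ ∧ ∀ z : ℂ, -(m : ℝ) < z.re → B z = energy M z

/-- similarities of `ℝ^n` -/
def IsSimilarity (S : E n → E n) : Prop :=
  ∃ (ρ : ℝ) (Q : E n ≃ₗᵢ[ℝ] E n) (p : E n), 0 < ρ ∧ ∀ x, S x = ρ • Q x + p

/-- the inversion in the unit sphere with centre `c` -/
noncomputable def inv (c x : E n) : E n := c + (‖x - c‖ ^ 2)⁻¹ • (x - c)

/-- `T` is (the restriction to `ℝ^n` of) a Möbius transformation of `ℝ^n ∪ {∞}` which sends no
point of `M` to `∞`: a similarity, or an inversion with centre outside `M` followed by a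
similarity. (Every Möbius transformation which does not fix `∞` is an inversion with centre
`T⁻¹(∞)` followed by a similarity.) -/
def IsMoebius (T : E n → E n) (M : Set (E n)) : Prop :=
  IsSimilarity T ∨ ∃ (S : E n → E n) (c : E n), IsSimilarity S ∧ c ∉ M ∧ ∀ x, T x = S (inv c x)

/-- `M'` is the image of `M` under `T`, with the transported orientation -/
def IsImage (T : E n → E n) (M M' : Sub m n) : Prop :=
  M'.carrier = T '' M.carrier ∧
    ∀ x ∈ M.carrier, 0 < mv (M'.frame (T x)) (fun i => fderiv ℝ T x (M.frame x i))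

/-- The main theorem: Möbius invariance of the value (`m` odd) or of the residue (`m` even) of
the `ν`-weighted energy function at `-2m`. -/
def Main : Prop :=
  ∀ (m n : ℕ), 1 ≤ m → ∀ (M M' : Sub m n) (T : E n → E n), IsMoebius T M.carrier →
    IsImage T M M' → ∀ B B' : ℂ → ℂ, IsEnergy M B → IsEnergy M' B' →
    (Odd m → ∃ W : ℂ, Tendsto B (𝓝[≠] (-2 * m : ℂ)) (𝓝 W) ∧
      Tendsto B' (𝓝[≠] (-2 * m : ℂ)) (𝓝 W)) ∧
    (Even m → ∃ W : ℂ, Tendsto (fun z => (z + 2 * m) * B z) (𝓝[≠] (-2 * m : ℂ)) (𝓝 W) ∧
      Tendsto (fun z => (z + 2 * m) * B' z) (𝓝[≠] (-2 * m : ℂ)) (𝓝 W))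

end Pool.Agent.Q178.MW
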