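import Pool.Agent.Q178.MW.Stm

set_option autoImplicit false

open Set

namespace Pool.Agent.Q178.MW.JFR

open Pool.Agent.Q178.MW

theorem expand {m n : ℕ} (b p : Fin m → E n) (hb : Orthonormal ℝ b)
    (hp : ∀ j, p j ∈ Submodule.span ℝ (range b)) (j : Fin m) :
    p j = ∑ k, inner ℝ (b k) (p j) • b k := by
  obtain ⟨c, hc⟩ := (Submodule.mem_span_range_iff_exists_fun ℝ).1 (hp j)
  have h : ∀ k, inner ℝ (b k) (p j) = c k := by
    intro k
    rw [← hc, inner_sum]
    simp only [inner_smul_right]
    rw [Finset.sum_eq_single k]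
    · rw [real_inner_self_eq_norm_sq, hb.1 k]; norm_num
    · intro i _ hik
      rw [hb.2 (Ne.symm hik), mul_zero]
    · intro h; exact absurd (Finset.mem_univ k) h
  simp only [h, hc]

theorem gm_eq {m n : ℕ} (b p w : Fin m → E n) (hb : Orthonormal ℝ b)
    (hp : ∀ j, p j ∈ Submodule.span ℝ (range b)) :
    gm w p = gm w b * gm b p := by
  ext i j
  simp only [gm, Matrix.mul_apply, Matrix.of_apply]
  conv_lhs => rw [expand b p hb hp j]
  rw [inner_sum]
  refine Finset.sum_congr rfl fun k _ => ?_
  rw [inner_smul_right]; ring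

theorem gm_tr {m n : ℕ} (v w : Fin m → E n) : gm w v = (gm v w).transpose := by
  ext i j
  simp only [gm, Matrix.transpose_apply, Matrix.of_apply]
  exact real_inner_comm _ _

theorem cc_eq {m n : ℕ} (v w : Fin m → E n) (d : E n) :
    cc v w d = (fun j => inner ℝ d (w j)) ⬝ᵥ ((gm v w).adjugate.mulVec fun i => inner ℝ (v i) d) := by
  simp only [cc, dotProduct, Matrix.mulVec, Finset.mul_sum]
  rw [Finset.sum_comm]
  refine Finset.sum_congr rfl fun i _ => Finset.sum_congr rfl fun j _ => ?_
  ring

theorem fr : S_FR := by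
  refine ⟨fun m n b p w d hb hp => ⟨?_, ?_, ?_⟩, fun m n v w d => ⟨?_, ?_⟩⟩
  · simp only [mv]
    rw [gm_eq b p w hb hp, Matrix.det_mul]
  · rw [cc_eq, cc_eq, gm_eq b p w hb hp, Matrix.adjugate_mul_distrib]
    have h1 : (fun j => inner ℝ d (p j)) = Matrix.vecMul (fun k => inner ℝ d (b k)) (gm b p) := by
      funext j
      simp only [Matrix.vecMul, dotProduct, gm, Matrix.of_apply]
      conv_lhs => rw [expand b p hb hp j]
      rw [inner_sum]
      refine Finset.sum_congr rfl fun k _ => ?_
      rw [inner_smul_right]; ring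
    rw [h1, ← Matrix.mulVec_mulVec, Matrix.dotProduct_mulVec, Matrix.vecMul_vecMul,
      Matrix.mul_adjugate, Matrix.vecMul_smul, Matrix.vecMul_one, smul_dotProduct]
    simp only [mv, smul_eq_mul]; ring
  · simp only [mv]
    rw [gm_eq b p p hb hp, Matrix.det_mul, gm_tr b p, Matrix.det_transpose, sq]
  · simp only [mv]; rw [gm_tr v w, Matrix.det_transpose]
  · simp only [cc]
    rw [Finset.sum_comm]
    refine Finset.sum_congr rfl fun j _ => Finset.sum_congr rfl fun i _ => ?_
    rw [gm_tr v w, ← Matrix.adjugate_transpose, Matrix.transpose_apply,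
      real_inner_comm d (v i), real_inner_comm d (w j)]
    ring

end Pool.Agent.Q178.MW.JFR
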