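import Pool.Agent.Q178.MW.J_TAN
import Pool.Agent.Q178.MW.J_FR

set_option autoImplicit false

open MeasureTheory Set Filter Topology
open scoped ContDiff

namespace Pool.Agent.Q178.MW.JCHT

open Pool.Agent.Q178.MW Pool.Agent.Q178.MW.Tools

variable {m n : ℕ}

theorem T_inj {T : E n → E n} {om : E n → ℝ} {Ω : Set (E n)} (hT : Conf T om Ω) : InjOn T Ω := by
  intro x hx y hy he
  have h := hT.dist x hx y hy
  rw [he, sub_self, norm_zero] at h
  have h1 : ‖x - y‖ ^ 2 = 0 := by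
    rcases mul_eq_zero.1 (by simpa using h.symm : om x * om y * ‖x - y‖ ^ 2 = 0) with h2 | h2
    · exact absurd h2 (mul_pos (hT.pos x hx) (hT.pos y hy)).ne'
    · exact h2
  exact sub_eq_zero.1 (norm_eq_zero.1 (pow_eq_zero_iff (two_ne_zero)|>.1 h1))

theorem DT_inj {T : E n → E n} {om : E n → ℝ} {Ω : Set (E n)} (hT : Conf T om Ω) {x : E n}
    (hx : x ∈ Ω) : Function.Injective (fderiv ℝ T x) := by
  rw [injective_iff_map_eq_zero]
  intro v hv
  have h := hT.conf x hx v v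
  rw [hv, inner_zero_left] at h
  rcases mul_eq_zero.1 h.symm with h1 | h1
  · exact absurd h1 (pow_pos (hT.pos x hx) 2).ne'
  · exact inner_self_eq_zero.1 h1

theorem pd_comp {T : E n → E n} {om : E n → ℝ} {Ω : Set (E n)} (hT : Conf T om Ω)
    {U : Set (P m)} {φ : P m → E n} (hU : IsOpen U) (hφ : ContDiffOn ℝ ∞ φ U) {u : P m}
    (hu : u ∈ U) (hΩ : φ u ∈ Ω) :
    fderiv ℝ (T ∘ φ) u = (fderiv ℝ T (φ u)).comp (fderiv ℝ φ u) := by
  have h1 : DifferentiableAt ℝ T (φ u) :=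
    (hT.smooth.contDiffAt (hT.isOpen.mem_nhds hΩ)).differentiableAt (by simp)
  have h2 : DifferentiableAt ℝ φ u := (hφ.contDiffAt (hU.mem_nhds hu)).differentiableAt (by simp)
  exact fderiv_comp u h1 h2

theorem range_le_span {φ : P m → E n} {u : P m} :
    ∀ x ∈ LinearMap.range (fderiv ℝ φ u : P m →ₗ[ℝ] E n),
      x ∈ Submodule.span ℝ (range (pd φ u)) := by
  rintro _ ⟨v, rfl⟩
  have h : v = ∑ j, v j • (Pi.single j (1 : ℝ) : P m) := by
    ext i
    simp [Finset.sum_apply, Pi.single_apply]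
  rw [h, map_sum]
  refine Submodule.sum_mem _ fun j _ => ?_
  rw [map_smul]
  exact Submodule.smul_mem _ _ (Submodule.subset_span ⟨j, rfl⟩)

theorem cht : S_TAN → S_FR → S_CHT := by
  intro htan _ m n M M' T om Ω hT hMΩ hI U φ hφ
  obtain ⟨hc, ho⟩ := hI
  have hmem : ∀ u ∈ U, φ u ∈ M.carrier := fun u hu => JTAN.param_mem hφ.toIsParam hu
  have hp : IsParam M'.carrier U (T ∘ φ) := by
    refine ⟨hφ.isOpen, ?_, ?_, ?_, ?_⟩
    · exact hT.smooth.comp hφ.smooth fun u hu => hMΩ (hmem u hu)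
    · intro u hu v hv he
      exact hφ.inj hu hv (T_inj hT (hMΩ (hmem u hu)) (hMΩ (hmem v hv)) he)
    · intro u hu
      rw [pd_comp hT hφ.isOpen hφ.smooth hu (hMΩ (hmem u hu))]
      exact (DT_inj hT (hMΩ (hmem u hu))).comp (hφ.immersion u hu)
    · intro U' hU' hU'o
      obtain ⟨V, hV, hVe⟩ := hφ.image U' hU' hU'o
      refine ⟨(T '' (M.carrier \ V))ᶜ, ?_, ?_⟩
      · have h1 : IsCompact (M.carrier \ V) := M.compact.diff hV
        exact (h1.image_of_continuousOn (hT.smooth.continuousOn.mono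
          (sdiff_subset.trans hMΩ))).isClosed.isOpen_compl
      · rw [image_comp, hVe, hc]
        ext x
        constructor
        · rintro ⟨y, ⟨hyM, hyV⟩, rfl⟩
          refine ⟨mem_image_of_mem T hyM, ?_⟩
          rintro ⟨w, ⟨hwM, hwV⟩, he⟩
          exact hwV ((T_inj hT (hMΩ hwM) (hMΩ hyM) he) ▸ hyV)
        · rintro ⟨⟨y, hyM, rfl⟩, hy⟩
          refine mem_image_of_mem T ⟨hyM, ?_⟩
          by_contra hyV
          exact hy (mem_image_of_mem T ⟨hyM, hyV⟩)
  refine ⟨hp, ?_, ?_⟩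
  · intro u hu j
    have hx : T (φ u) ∈ M'.carrier := by rw [hc]; exact mem_image_of_mem T (hmem u hu)
    obtain ⟨U₁, φ₁, hφ₁, u₁, hu₁, he⟩ := M'.chart _ hx
    have h1 := htan m n M'.carrier U U₁ (T ∘ φ) φ₁ u u₁ hp hφ₁.toIsParam hu hu₁ he.symm
    have h2 : pd (T ∘ φ) u j ∈ LinearMap.range (fderiv ℝ (T ∘ φ) u : P m →ₗ[ℝ] E n) :=
      ⟨Pi.single j 1, rfl⟩
    rw [h1] at h2
    have h3 := range_le_span _ h2
    refine (Submodule.span_le.2 ?_) h3
    rintro _ ⟨i, rfl⟩
    have h4 := hφ₁.tangent u₁ hu₁ i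
    rw [he] at h4
    exact h4
  · intro u hu
    have hxM := hmem u hu
    have h1 := ho _ hxM
    have h2 := hφ.oriented u hu
    have e : gm (M'.frame ((T ∘ φ) u)) (pd (T ∘ φ) u) =
        gm (M'.frame (T (φ u))) (fun i => fderiv ℝ T (φ u) (M.frame (φ u) i)) *
          gm (M.frame (φ u)) (pd φ u) := by
      ext i j
      simp only [gm, Matrix.mul_apply, Matrix.of_apply, Function.comp_apply]
      have h3 : pd (T ∘ φ) u j = ∑ k, inner ℝ (M.frame (φ u) k) (pd φ u j) •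
          fderiv ℝ T (φ u) (M.frame (φ u) k) := by
        have h4 := JFR.expand (M.frame (φ u)) (pd φ u) (M.orthonormal _ hxM) (hφ.tangent u hu) j
        have h5 : pd (T ∘ φ) u j = fderiv ℝ T (φ u) (pd φ u j) := by
          simp only [pd]
          rw [pd_comp hT hφ.isOpen hφ.smooth hu (hMΩ hxM)]
          rfl
        rw [h5]
        conv_lhs => rw [h4]
        rw [map_sum]
        exact Finset.sum_congr rfl fun k _ => by rw [map_smul]
      rw [h3, inner_sum]
      refine Finset.sum_congr rfl fun k _ => ?_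
      rw [inner_smul_right]; ring
    rw [mv, e, Matrix.det_mul]
    exact mul_pos h1 h2

end Pool.Agent.Q178.MW.JCHT
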