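import Pool.Agent.Q178.MW.Stm

set_option autoImplicit false

open MeasureTheory Set Filter Topology
open scoped ContDiff ENNReal

namespace Pool.Agent.Q178.MW.JINT

open Pool.Agent.Q178.MW

variable {m n : ℕ}

theorem pd_cont {φ : P m → E n} {U : Set (P m)} (hU : IsOpen U) (hφ : ContDiffOn ℝ ∞ φ U)
    (j : Fin m) : ContinuousOn (fun u => pd φ u j) U := by
  have h := hφ.continuousOn_fderiv_of_isOpen hU (by simp)
  exact h.clm_apply continuousOn_const

theorem mv_cont {X : Type*} [TopologicalSpace X] {S : Set X} {v w : X → Fin m → E n}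
    (hv : ∀ j, ContinuousOn (fun x => v x j) S) (hw : ∀ j, ContinuousOn (fun x => w x j) S) :
    ContinuousOn (fun x => mv (v x) (w x)) S := by
  have h : Continuous fun M : Matrix (Fin m) (Fin m) ℝ => M.det := continuous_id.matrix_det
  refine h.comp_continuousOn ?_
  refine continuousOn_pi.2 fun i => continuousOn_pi.2 fun j => ?_
  exact (hv i).inner (𝕜 := ℝ) (hw j)

theorem dens_meas {φ : P m → E n} {U : Set (P m)} (hU : IsOpen U) (hφ : ContDiffOn ℝ ∞ φ U) :
    AEMeasurable (fun u => ENNReal.ofReal (Real.sqrt (mv (pd φ u) (pd φ u))))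
      (volume.restrict U) := by
  refine ContinuousOn.aemeasurable ?_ hU.measurableSet
  exact ENNReal.continuous_ofReal.comp_continuousOn
    (Real.continuous_sqrt.comp_continuousOn (mv_cont (pd_cont hU hφ) (pd_cont hU hφ)))

theorem int : S_INT := by
  intro m n M U φ hφ F hF
  have hUm : MeasurableSet U := hφ.isOpen.measurableSet
  have h1 : ∫ x, F x ∂M.vol = ∫ x in φ '' U, F x ∂M.vol := by
    symm
    refine setIntegral_eq_integral_of_ae_compl_eq_zero ?_
    have : ∀ᵐ x ∂M.vol, x ∈ M.carrier := by
      rw [ae_iff]; exact M.vol_compl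
    filter_upwards [this] with x hx hx'
    exact hF x hx hx'
  rw [h1, M.vol_chart U φ hφ]
  set ν : Measure (P m) := (volume.restrict U).withDensity
      fun u => ENNReal.ofReal (Real.sqrt (mv (pd φ u) (pd φ u))) with hν
  have hνU : ν.restrict U = ν := by
    rw [hν, restrict_withDensity hUm, Measure.restrict_restrict hUm, inter_self]
  have hemb : MeasurableEmbedding (fun u : U => φ u) :=
    hφ.smooth.continuousOn.measurableEmbedding hUm hφ.inj
  have hval : MeasurableEmbedding (Subtype.val : U → P m) := MeasurableEmbedding.subtype_coe hUm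
  have h2 : ν = Measure.map Subtype.val (ν.comap (Subtype.val : U → P m)) := by
    rw [hval.map_comap, Subtype.range_coe, hνU]
  have hφν : AEMeasurable φ ν := by
    rw [← hνU]
    exact hφ.smooth.continuousOn.aemeasurable hUm
  have h3 : Measure.map φ ν = Measure.map (fun u : U => φ u) (ν.comap (Subtype.val : U → P m)) := by
    conv_lhs => rw [h2]
    rw [AEMeasurable.map_map_of_aemeasurable _ hval.measurable.aemeasurable]
    · rfl
    · rw [← h2]; exact hφν
  rw [h3, hemb.integral_map]
  have h4 : ∫ u : U, F (φ u) ∂(ν.comap (Subtype.val : U → P m)) = ∫ u, F (φ u) ∂ν := by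
    conv_rhs => rw [h2]
    rw [hval.integral_map]
  rw [h4, hν, integral_withDensity_eq_integral_toReal_smul₀ (dens_meas hφ.isOpen hφ.smooth)
    (Eventually.of_forall fun _ => ENNReal.ofReal_lt_top)]
  refine integral_congr_ae (Eventually.of_forall fun u => ?_)
  simp only
  rw [ENNReal.toReal_ofReal (Real.sqrt_nonneg _), Complex.real_smul]

end Pool.Agent.Q178.MW.JINT
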