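import Pool.Agent.Q178.MW.Tools
import Pool.Agent.Q178.MW.J_INT

set_option autoImplicit false

open MeasureTheory Set Filter Topology
open scoped ContDiff

namespace Pool.Agent.Q178.MW.JCON

open Pool.Agent.Q178.MW Pool.Agent.Q178.MW.Tools

variable {m n : ℕ}

theorem nhds_le {M : Set (E n)} {U : Set (P m)} {φ : P m → E n} (h : IsParam M U φ) {u : P m}
    (hu : u ∈ U) : 𝓝[M] (φ u) ≤ Filter.map φ (𝓝 u) := by
  intro S hS
  rw [Filter.mem_map] at hS
  obtain ⟨W, hWS, hWo, huW⟩ := mem_nhds_iff.1 (inter_mem hS (h.isOpen.mem_nhds hu))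
  obtain ⟨V, hV, hVe⟩ := h.image W (fun x hx => (hWS hx).2) hWo
  have hx : φ u ∈ M ∩ V := by rw [← hVe]; exact mem_image_of_mem φ huW
  have h1 : M ∩ V ∈ 𝓝[M] (φ u) :=
    inter_mem self_mem_nhdsWithin (mem_nhdsWithin_of_mem_nhds (hV.mem_nhds hx.2))
  refine mem_of_superset h1 ?_
  rw [← hVe]
  rintro _ ⟨w, hw, rfl⟩
  exact (hWS hw).1

theorem cont₁ (M : Sub m n) {Y : Type*} [TopologicalSpace Y] (F : E n → Y)
    (H : ∀ (U : Set (P m)) (φ : P m → E n), IsChart M.carrier M.frame U φ →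
      ContinuousOn (fun u => F (φ u)) U) : ContinuousOn F M.carrier := by
  intro x hx
  obtain ⟨U, φ, hφ, u, hu, rfl⟩ := M.chart x hx
  have h1 : ContinuousAt (fun u => F (φ u)) u := (H U φ hφ).continuousAt (hφ.isOpen.mem_nhds hu)
  exact (tendsto_map'_iff.2 h1.tendsto).mono_left (nhds_le hφ.toIsParam hu)

theorem cont₂ (M : Sub m n) {Y : Type*} [TopologicalSpace Y] (F : E n × E n → Y)
    (H : ∀ (U : Set (P m)) (φ : P m → E n), IsChart M.carrier M.frame U φ →
      ∀ (U' : Set (P m)) (φ' : P m → E n), IsChart M.carrier M.frame U' φ' →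
      ContinuousOn (fun p : P m × P m => F (φ p.1, φ' p.2)) (U ×ˢ U')) :
    ContinuousOn F (M.carrier ×ˢ M.carrier) := by
  rintro ⟨x, y⟩ ⟨hx, hy⟩
  obtain ⟨U, φ, hφ, u, hu, rfl⟩ := M.chart x hx
  obtain ⟨U', φ', hφ', v, hv, rfl⟩ := M.chart y hy
  have h1 : ContinuousAt (fun p : P m × P m => F (φ p.1, φ' p.2)) (u, v) :=
    (H U φ hφ U' φ' hφ').continuousAt ((hφ.isOpen.prod hφ'.isOpen).mem_nhds ⟨hu, hv⟩)
  have h2 : 𝓝[M.carrier ×ˢ M.carrier] (φ u, φ' v) ≤
      Filter.map (fun p : P m × P m => (φ p.1, φ' p.2)) (𝓝 (u, v)) := by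
    rw [nhdsWithin_prod_eq, nhds_prod_eq]
    refine (Filter.prod_mono (nhds_le hφ.toIsParam hu) (nhds_le hφ'.toIsParam hv)).trans ?_
    rw [Filter.prod_map_map_eq]
  exact (tendsto_map'_iff.2 h1.tendsto).mono_left h2

theorem cc_cont {X : Type*} [TopologicalSpace X] {S : Set X} {v w : X → Fin m → E n}
    {d : X → E n} (hv : ∀ j, ContinuousOn (fun x => v x j) S)
    (hw : ∀ j, ContinuousOn (fun x => w x j) S) (hd : ContinuousOn d S) :
    ContinuousOn (fun x => cc (v x) (w x) (d x)) S := by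
  have hg : ContinuousOn (fun x => gm (v x) (w x)) S :=
    continuousOn_pi.2 fun i => continuousOn_pi.2 fun j => (hv i).inner (𝕜 := ℝ) (hw j)
  have hadj : ∀ i j, ContinuousOn (fun x => (gm (v x) (w x)).adjugate j i) S := by
    intro i j
    have h : Continuous fun N : Matrix (Fin m) (Fin m) ℝ => N.adjugate j i :=
      (continuous_apply i).comp ((continuous_apply j).comp continuous_id.matrix_adjugate)
    exact h.comp_continuousOn hg
  unfold cc
  refine continuousOn_finsetSum _ fun i _ => continuousOn_finsetSum _ fun j _ => ?_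
  exact ((hd.inner (𝕜 := ℝ) (hw j)).mul (hadj i j)).mul ((hv i).inner (𝕜 := ℝ) hd)

section

variable (hfr : S_FR) (M : Sub m n) {U : Set (P m)} {φ : P m → E n}
  (hφ : IsChart M.carrier M.frame U φ) {u : P m} (hu : u ∈ U)

include hφ hu in
theorem mem : φ u ∈ M.carrier := by
  obtain ⟨V, hV, hVe⟩ := hφ.image U Subset.rfl hφ.isOpen
  have : φ u ∈ M.carrier ∩ V := by rw [← hVe]; exact mem_image_of_mem φ hu
  exact this.1

include hfr hφ hu in
theorem vol_eq : Real.sqrt (mv (pd φ u) (pd φ u)) = mv (M.frame (φ u)) (pd φ u) := by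
  have h := hfr.1 m n (M.frame (φ u)) (pd φ u) (pd φ u) 0 (M.orthonormal _ (mem M hφ hu))
    (hφ.tangent u hu)
  rw [h.2.2, Real.sqrt_sq (hφ.oriented u hu).le]

include hφ hu in
theorem sqrt_pos (hfr : S_FR) : 0 < Real.sqrt (mv (pd φ u) (pd φ u)) := by
  rw [vol_eq hfr M hφ hu]; exact hφ.oriented u hu

include hfr hφ hu in
theorem mv_eq (w : Fin m → E n) : mv w (pd φ u) =
    mv w (M.frame (φ u)) * Real.sqrt (mv (pd φ u) (pd φ u)) := by
  have h := hfr.1 m n (M.frame (φ u)) (pd φ u) w 0 (M.orthonormal _ (mem M hφ hu))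
    (hφ.tangent u hu)
  rw [h.1, vol_eq hfr M hφ hu]

include hfr hφ hu in
theorem cc_eq (w : Fin m → E n) (d : E n) : cc w (pd φ u) d =
    cc w (M.frame (φ u)) d * Real.sqrt (mv (pd φ u) (pd φ u)) := by
  have h := hfr.1 m n (M.frame (φ u)) (pd φ u) w d (M.orthonormal _ (mem M hφ hu))
    (hφ.tangent u hu)
  rw [h.2.1, vol_eq hfr M hφ hu]

end

theorem con : S_FR → S_CON := by
  intro hfr m n M
  have sq : ∀ (U : Set (P m)) (φ : P m → E n), IsChart M.carrier M.frame U φ →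
      ContinuousOn (fun u => Real.sqrt (mv (pd φ u) (pd φ u))) U := fun U φ hφ =>
    Real.continuous_sqrt.comp_continuousOn
      (JINT.mv_cont (JINT.pd_cont hφ.isOpen hφ.smooth) (JINT.pd_cont hφ.isOpen hφ.smooth))
  refine ⟨?_, ?_, fun w => ?_, fun w y => ?_⟩
  · refine cont₂ M _ fun U φ hφ U' φ' hφ' => ?_
    have h1 : ContinuousOn (fun p : P m × P m => mv (pd φ' p.2) (pd φ p.1)) (U ×ˢ U') :=
      JINT.mv_cont (fun j => (JINT.pd_cont hφ'.isOpen hφ'.smooth j).comp continuousOn_snd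
        fun p hp => hp.2) (fun j => (JINT.pd_cont hφ.isOpen hφ.smooth j).comp continuousOn_fst
        fun p hp => hp.1)
    have h2 := ((sq U φ hφ).comp continuousOn_fst fun (p : P m × P m) (hp : p ∈ U ×ˢ U') => hp.1)
    have h3 := ((sq U' φ' hφ').comp continuousOn_snd
      fun (p : P m × P m) (hp : p ∈ U ×ˢ U') => hp.2)
    refine ((h1.div h2 fun p hp => (sqrt_pos M hφ hp.1 hfr).ne').div h3
      fun p hp => (sqrt_pos M hφ' hp.2 hfr).ne').congr fun p hp => ?_
    simp only [Pi.div_apply, Function.comp_apply]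
    rw [mv_eq hfr M hφ hp.1, mul_div_assoc, div_self (sqrt_pos M hφ hp.1 hfr).ne', mul_one,
      (hfr.2 m n (pd φ' p.2) (M.frame (φ p.1)) 0).1, mv_eq hfr M hφ' hp.2, mul_div_assoc,
      div_self (sqrt_pos M hφ' hp.2 hfr).ne', mul_one]
  · refine cont₂ M _ fun U φ hφ U' φ' hφ' => ?_
    have h1 : ContinuousOn (fun p : P m × P m => cc (pd φ' p.2) (pd φ p.1) (φ p.1 - φ' p.2))
        (U ×ˢ U') :=
      cc_cont (fun j => (JINT.pd_cont hφ'.isOpen hφ'.smooth j).comp continuousOn_snd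
        fun p hp => hp.2) (fun j => (JINT.pd_cont hφ.isOpen hφ.smooth j).comp continuousOn_fst
        fun p hp => hp.1) ((hφ.smooth.continuousOn.comp continuousOn_fst fun p hp => hp.1).sub
        (hφ'.smooth.continuousOn.comp continuousOn_snd fun p hp => hp.2))
    have h2 := ((sq U φ hφ).comp continuousOn_fst fun (p : P m × P m) (hp : p ∈ U ×ˢ U') => hp.1)
    have h3 := ((sq U' φ' hφ').comp continuousOn_snd
      fun (p : P m × P m) (hp : p ∈ U ×ˢ U') => hp.2)
    refine ((h1.div h2 fun p hp => (sqrt_pos M hφ hp.1 hfr).ne').div h3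
      fun p hp => (sqrt_pos M hφ' hp.2 hfr).ne').congr fun p hp => ?_
    simp only [Pi.div_apply, Function.comp_apply]
    rw [cc_eq hfr M hφ hp.1, mul_div_assoc, div_self (sqrt_pos M hφ hp.1 hfr).ne', mul_one,
      (hfr.2 m n (pd φ' p.2) (M.frame (φ p.1)) _).2, cc_eq hfr M hφ' hp.2, mul_div_assoc,
      div_self (sqrt_pos M hφ' hp.2 hfr).ne', mul_one]
  · refine cont₁ M _ fun U φ hφ => ?_
    have h1 : ContinuousOn (fun u : P m => mv w (pd φ u)) U :=
      JINT.mv_cont (fun j => continuousOn_const) (JINT.pd_cont hφ.isOpen hφ.smooth)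
    refine (h1.div (sq U φ hφ) fun p hp => (sqrt_pos M hφ hp hfr).ne').congr fun p hp => ?_
    simp only [Pi.div_apply]
    rw [mv_eq hfr M hφ hp, mul_div_assoc, div_self (sqrt_pos M hφ hp hfr).ne', mul_one]
  · refine cont₁ M _ fun U φ hφ => ?_
    have h1 : ContinuousOn (fun u : P m => cc w (pd φ u) (φ u - y)) U :=
      cc_cont (fun j => continuousOn_const) (JINT.pd_cont hφ.isOpen hφ.smooth)
        (hφ.smooth.continuousOn.sub continuousOn_const)
    refine (h1.div (sq U φ hφ) fun p hp => (sqrt_pos M hφ hp hfr).ne').congr fun p hp => ?_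
    simp only [Pi.div_apply]
    rw [cc_eq hfr M hφ hp, mul_div_assoc, div_self (sqrt_pos M hφ hp hfr).ne', mul_one]

end Pool.Agent.Q178.MW.JCON
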