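import Pool.Agent.Q178.MW.Stm
import Pool.Agent.W585.Param

set_option autoImplicit false

open MeasureTheory Set Filter Topology
open scoped ContDiff Pointwise

namespace Pool.Agent.Q178.MW.JLL

/-! ### The sphere measure and polar coordinates -/

/-- the surface measure of the unit sphere (sup norm), as a measure on the whole space -/
noncomputable def sg (m : ℕ) : Measure (P m) :=
  Measure.map (Subtype.val : Metric.sphere (0 : P m) 1 → P m) (volume : Measure (P m)).toSphere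

theorem sg_finite (m : ℕ) : IsFiniteMeasure (sg m) := by
  unfold sg
  infer_instance

theorem sg_sphere (m : ℕ) : ∀ᵐ θ ∂(sg m), θ ∈ Metric.sphere (0 : P m) 1 := by
  unfold sg
  have hp : MeasurableSet {θ : P m | θ ∈ Metric.sphere (0 : P m) 1} :=
    Metric.isClosed_sphere.measurableSet
  exact (ae_map_iff (p := fun θ : P m => θ ∈ Metric.sphere (0 : P m) 1)
    measurable_subtype_coe.aemeasurable hp).2 (Eventually.of_forall fun x => x.2)

theorem sg_apply (m : ℕ) {s : Set (P m)} (hs : MeasurableSet s) :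
    sg m s = Module.finrank ℝ (P m) *
      volume (Ioo (0 : ℝ) 1 • (s ∩ Metric.sphere (0 : P m) 1)) := by
  unfold sg
  rw [Measure.map_apply measurable_subtype_coe hs,
    Measure.toSphere_apply' _ (measurable_subtype_coe hs), Subtype.image_preimage_coe,
    inter_comm]

theorem sg_neg (m : ℕ) : MeasurePreserving (fun θ : P m => -θ) (sg m) (sg m) := by
  refine ⟨measurable_neg, Measure.ext fun s hs => ?_⟩
  rw [Measure.map_apply measurable_neg hs, sg_apply m hs, sg_apply m (measurable_neg hs)]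
  congr 1
  have h : Ioo (0 : ℝ) 1 • ((fun θ : P m => -θ) ⁻¹' s ∩ Metric.sphere (0 : P m) 1) =
      -(Ioo (0 : ℝ) 1 • (s ∩ Metric.sphere (0 : P m) 1)) := by
    ext x
    simp only [Set.mem_smul, Set.mem_neg, mem_inter_iff, mem_preimage, mem_sphere_zero_iff_norm]
    constructor
    · rintro ⟨t, ht, y, ⟨hy, hy'⟩, rfl⟩
      exact ⟨t, ht, -y, ⟨hy, by simpa using hy'⟩, by simp⟩
    · rintro ⟨t, ht, y, ⟨hy, hy'⟩, h⟩
      exact ⟨t, ht, -y, ⟨by simpa using hy, by simpa using hy'⟩, by rw [smul_neg, h, neg_neg]⟩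
  rw [h, Measure.measure_neg]

theorem polar {m : ℕ} (hm : 1 ≤ m) (h : P m → ℂ) (hi : Integrable h) :
    ∫ x, h x = ∫ θ, (∫ t in Ioi (0 : ℝ), ((t ^ (m - 1) : ℝ) : ℂ) * h (t • θ)) ∂(sg m) := by
  have hne : Nonempty (Fin m) := ⟨⟨0, hm⟩⟩
  have hfr : Module.finrank ℝ (P m) = m := by simp
  have hmp := (volume : Measure (P m)).measurePreserving_homeomorphUnitSphereProd
  rw [hfr] at hmp
  have hmp' := hmp.symm ((homeomorphUnitSphereProd (P m)).toMeasurableEquiv)
  have hemb := (homeomorphUnitSphereProd (P m)).toMeasurableEquiv.symm.measurableEmbedding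
  have h0 : ∫ x, h x = ∫ x : ({(0 : P m)}ᶜ : Set (P m)), h x.1
      ∂((volume : Measure (P m)).comap (↑)) := by
    rw [integral_subtype_comap (measurableSet_singleton _).compl (fun x => h x),
      restrict_compl_singleton]
  have hi0 : Integrable (fun x : ({(0 : P m)}ᶜ : Set (P m)) => h x.1)
      ((volume : Measure (P m)).comap (↑)) := by
    have h1 : IntegrableOn h ({(0 : P m)}ᶜ : Set (P m)) := hi.integrableOn
    exact (integrableOn_iff_comap_subtypeVal (measurableSet_singleton _).compl).1 h1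
  have h2 := hmp'.integral_comp hemb (fun x : ({(0 : P m)}ᶜ : Set (P m)) => h x.1)
  have hi2 := (hmp'.integrable_comp_emb hemb
    (g := fun x : ({(0 : P m)}ᶜ : Set (P m)) => h x.1)).2 hi0
  have hi3 : Integrable (fun x => h (((homeomorphUnitSphereProd (P m)).toMeasurableEquiv.symm x :
      ({(0 : P m)}ᶜ : Set (P m))) : P m))
      ((volume : Measure (P m)).toSphere.prod (Measure.volumeIoiPow (m - 1))) := hi2
  rw [h0, ← h2, integral_prod _ hi3]
  unfold sg
  rw [(MeasurableEmbedding.subtype_coe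
    (Metric.isClosed_sphere.measurableSet : MeasurableSet (Metric.sphere (0 : P m) 1))).integral_map]
  refine integral_congr_ae (Eventually.of_forall fun θ => ?_)
  have h3 : ∀ r : Ioi (0 : ℝ), (fun x : ({(0 : P m)}ᶜ : Set (P m)) => h x.1)
      ((homeomorphUnitSphereProd (P m)).toMeasurableEquiv.symm (θ, r)) = h (r.1 • θ.1) :=
    fun r => rfl
  simp only [h3]
  unfold Measure.volumeIoiPow
  simp only [ENNReal.ofReal]
  rw [integral_withDensity_eq_integral_smul,
    integral_subtype_comap measurableSet_Ioi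
      (fun a : ℝ => Real.toNNReal (a ^ (m - 1)) • h (a • θ.1))]
  · refine setIntegral_congr_fun measurableSet_Ioi fun t ht => ?_
    have ht' : (0 : ℝ) < t := ht
    simp only [NNReal.smul_def]
    rw [Real.coe_toNNReal _ (pow_nonneg ht'.le _), Complex.real_smul]
  · exact (measurable_subtype_coe.pow_const _).real_toNNReal

/-! ### cut-off functions -/

theorem cutoff {W : Type} [NormedAddCommGroup W] [NormedSpace ℝ W] [FiniteDimensional ℝ W]
    {C O : Set W} (hC : IsCompact C) (hO : IsOpen O) (h : C ⊆ O) :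
    ∃ χ : W → ℝ, ContDiff ℝ ∞ χ ∧ HasCompactSupport χ ∧ (∀ x ∈ C, χ x = 1) ∧
      (∀ x, 0 ≤ χ x) ∧ (∀ x, χ x ≤ 1) ∧ ∀ x, χ x ≠ 0 → x ∈ O := by
  have hprop : ProperSpace W := FiniteDimensional.proper_real W
  obtain ⟨L, hL, hCL, hLO⟩ := exists_compact_between hC hO h
  obtain ⟨f, h1, h0, hf⟩ := exists_contMDiffMap_one_nhds_of_subset_interior (n := (⊤ : ℕ∞))
    (modelWithCornersSelf ℝ W) hC.isClosed hCL
  refine ⟨f, f.contMDiff.contDiff, HasCompactSupport.intro hL fun x hx => h0 x hx,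
    fun x hx => h1.self_of_nhdsSet x hx, fun x => (hf x).1, fun x => (hf x).2, fun x hx => ?_⟩
  by_contra hxO
  exact hx (h0 x fun hxL => hxO (hLO hxL))

/-! ### the difference quotient -/

/-- `ψ(t,u,θ)` with `t ψ = φ (u + t θ) - φ u` -/
noncomputable def psi {m n : ℕ} (φ : P m → E n) (p : ℝ × (P m × P m)) : E n :=
  ∫ σ in (0 : ℝ)..1, fderiv ℝ φ (p.2.1 + (σ * p.1) • p.2.2) p.2.2

theorem psi_smooth {m n : ℕ} {φ : P m → E n} (hφ : ContDiff ℝ ∞ φ) :
    ContDiff ℝ ∞ (psi φ) := by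
  unfold psi
  refine Pool.Agent.W585.contDiff_param (E := ℝ × (P m × P m)) (G := E n)
    (F := fun p σ => fderiv ℝ φ (p.2.1 + (σ * p.1) • p.2.2) p.2.2) ?_ 0 1
  have h1 : ContDiff ℝ ∞ (fderiv ℝ φ) := hφ.fderiv_right (by simp)
  have h2 : ContDiff ℝ ∞ (fun q : (ℝ × (P m × P m)) × ℝ =>
      q.1.2.1 + (q.2 * q.1.1) • q.1.2.2) := by fun_prop
  exact (h1.comp h2).clm_apply (by fun_prop)

theorem psi_id {m n : ℕ} {φ : P m → E n} (hφ : ContDiff ℝ ∞ φ) (t : ℝ) (u θ : P m) :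
    t • psi φ (t, (u, θ)) = φ (u + t • θ) - φ u := by
  have hd : ∀ σ : ℝ, HasDerivAt (fun σ : ℝ => φ (u + (σ * t) • θ))
      (t • fderiv ℝ φ (u + (σ * t) • θ) θ) σ := by
    intro σ
    have h1 : HasFDerivAt φ (fderiv ℝ φ (u + (σ * t) • θ)) (u + (σ * t) • θ) :=
      (hφ.differentiable (by simp)).differentiableAt.hasFDerivAt
    have h2 : HasDerivAt (fun σ : ℝ => u + (σ * t) • θ) (t • θ) σ := by
      have h3 : HasDerivAt (fun σ : ℝ => σ * t) t σ := by
        simpa using (hasDerivAt_id σ).mul_const t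
      exact (h3.smul_const θ).const_add u
    have h4 := h1.comp_hasDerivAt σ h2
    rwa [map_smul] at h4
  have hc : Continuous fun σ : ℝ => t • fderiv ℝ φ (u + (σ * t) • θ) θ := by
    have h1 : Continuous (fderiv ℝ φ) := hφ.continuous_fderiv (by simp)
    have h2 : Continuous fun σ : ℝ => u + (σ * t) • θ := by fun_prop
    exact ((h1.comp h2).clm_apply continuous_const).const_smul t
  have key := intervalIntegral.integral_eq_sub_of_hasDerivAt (a := 0) (b := 1)
    (fun σ _ => hd σ) (hc.intervalIntegrable _ _)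
  rw [intervalIntegral.integral_smul] at key
  simpa [psi] using key

theorem psi_zero {m n : ℕ} (φ : P m → E n) (u θ : P m) :
    psi φ (0, (u, θ)) = fderiv ℝ φ u θ := by
  simp [psi]

theorem psi_neg {m n : ℕ} (φ : P m → E n) (t : ℝ) (u θ : P m) :
    psi φ (-t, (u, -θ)) = - psi φ (t, (u, θ)) := by
  unfold psi
  rw [← intervalIntegral.integral_neg]
  refine intervalIntegral.integral_congr fun σ _ => ?_
  simp

theorem psi_ne {m n : ℕ} {φ : P m → E n} (hφ : ContDiff ℝ ∞ φ) {U : Set (P m)}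
    (hinj : InjOn φ U) (himm : ∀ u ∈ U, Function.Injective (fderiv ℝ φ u))
    {t : ℝ} {u θ : P m} (hu : u ∈ U) (hv : u + t • θ ∈ U) (hθ : θ ≠ 0) :
    psi φ (t, (u, θ)) ≠ 0 := by
  intro h0
  by_cases ht : t = 0
  · subst ht
    rw [psi_zero] at h0
    exact hθ (himm u hu (by rw [h0, map_zero]))
  · have h1 := psi_id hφ t u θ
    rw [h0, smul_zero] at h1
    have h2 := hinj hv hu (sub_eq_zero.1 h1.symm)
    have h3 : t • θ = 0 := by simpa using h2
    exact (smul_ne_zero ht hθ) h3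

/-! ### polar coordinates with parameters -/

/-- the measure space of the parameters `(s, (u, θ))` -/
noncomputable def nu (m : ℕ) : Measure ((ℝ × ℝ) × (P m × P m)) :=
  ((volume : Measure (ℝ × ℝ)).restrict box).prod ((volume : Measure (P m)).prod (sg m))

theorem box_compact : IsCompact box := isCompact_Icc.prod isCompact_Icc

theorem nu_ae (m : ℕ) : ∀ᵐ k ∂(nu m), k.1 ∈ box ∧ ‖k.2.2‖ = 1 := by
  have := sg_finite m
  have h1 : ∀ᵐ k ∂(nu m), k.1 ∈ box :=
    Measure.quasiMeasurePreserving_fst.ae (ae_restrict_mem box_compact.measurableSet)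
  have h2 : ∀ᵐ k ∂(nu m), k.2.2 ∈ Metric.sphere (0 : P m) 1 :=
    Measure.quasiMeasurePreserving_snd.ae (Measure.quasiMeasurePreserving_snd.ae (sg_sphere m))
  filter_upwards [h1, h2] with k hk1 hk2
  exact ⟨hk1, by simpa using hk2⟩

theorem fub {m : ℕ} (hm : 1 ≤ m) (H : ℝ × ℝ → P m → P m → ℂ)
    (hH : Continuous (fun p : (ℝ × ℝ) × (P m × P m) => H p.1 p.2.1 p.2.2))
    {K : Set (P m × P m)} (hK : IsCompact K) (h0 : ∀ s u v, (u, v) ∉ K → H s u v = 0) :
    ∫ s in box, ∫ u, ∫ v, H s u v =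
      ∫ k, (∫ t in Ioi (0 : ℝ), ((t ^ (m - 1) : ℝ) : ℂ) *
        H k.1 k.2.1 (k.2.1 + t • k.2.2)) ∂(nu m) := by
  have hfin := sg_finite m
  obtain ⟨R, hR⟩ := hK.isBounded.subset_closedBall 0
  have hKn : ∀ u v, (u, v) ∈ K → ‖u‖ ≤ R ∧ ‖v‖ ≤ R := by
    intro u v h
    have := hR h
    rw [mem_closedBall_zero_iff, Prod.norm_def, sup_le_iff] at this
    exact this
  have hKt : ∀ (u w : P m), (u, u + w) ∈ K → ‖w‖ ≤ 2 * R := by
    intro u w h
    obtain ⟨h1, h2⟩ := hKn _ _ h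
    have h3 : w = (u + w) - u := by abel
    rw [h3]
    exact (norm_sub_le _ _).trans (by linarith)
  set Φ : ((ℝ × ℝ) × (P m × P m)) × ℝ → ℂ := fun x =>
    ((x.2 ^ (m - 1) : ℝ) : ℂ) * H x.1.1 x.1.2.1 (x.1.2.1 + x.2 • x.1.2.2) with hΦ
  have hΦc : Continuous Φ := by
    refine Continuous.mul (Complex.continuous_ofReal.comp (continuous_snd.pow _)) ?_
    exact hH.comp (f := fun x : ((ℝ × ℝ) × (P m × P m)) × ℝ =>
      (x.1.1, (x.1.2.1, x.1.2.1 + x.2 • x.1.2.2))) (by fun_prop)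
  set S : Set (((ℝ × ℝ) × (P m × P m)) × ℝ) :=
    (box ×ˢ (Metric.closedBall (0 : P m) R ×ˢ Metric.sphere (0 : P m) 1)) ×ˢ
      Icc (0 : ℝ) (2 * R) with hSdef
  have hS : IsCompact S :=
    (box_compact.prod ((isCompact_closedBall _ _).prod (isCompact_sphere _ _))).prod isCompact_Icc
  have hae : ∀ᵐ x ∂((nu m).prod ((volume : Measure ℝ).restrict (Ioi 0))),
      (x.1.1 ∈ box ∧ ‖x.1.2.2‖ = 1) ∧ 0 < x.2 := by
    have h1 : ∀ᵐ x ∂((nu m).prod ((volume : Measure ℝ).restrict (Ioi 0))),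
        (x.1.1 ∈ box ∧ ‖x.1.2.2‖ = 1) := by
      unfold nu
      exact Measure.quasiMeasurePreserving_fst.ae (nu_ae m)
    have h2 : ∀ᵐ x ∂((nu m).prod ((volume : Measure ℝ).restrict (Ioi 0))), x.2 ∈ Ioi (0 : ℝ) := by
      exact Measure.quasiMeasurePreserving_snd.ae (ae_restrict_mem measurableSet_Ioi)
    filter_upwards [h1, h2] with x hx1 hx2
    exact ⟨hx1, hx2⟩
  have hΦi : Integrable Φ ((nu m).prod ((volume : Measure ℝ).restrict (Ioi 0))) := by
    have h1 : IntegrableOn Φ S ((nu m).prod ((volume : Measure ℝ).restrict (Ioi 0))) := by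
      unfold nu
      exact hΦc.continuousOn.integrableOn_compact hS
    have h2 := (integrable_indicator_iff hS.measurableSet).2 h1
    refine h2.congr ?_
    filter_upwards [hae] with x hx
    by_cases hxS : x ∈ S
    · rw [indicator_of_mem hxS]
    · rw [indicator_of_notMem hxS]
      have : (x.1.2.1, x.1.2.1 + x.2 • x.1.2.2) ∉ K := by
        intro hxK
        apply hxS
        have h3 := hKt _ _ hxK
        rw [norm_smul, hx.1.2, mul_one, Real.norm_of_nonneg hx.2.le] at h3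
        refine ⟨⟨hx.1.1, ?_, ?_⟩, hx.2.le, h3⟩
        · rw [mem_closedBall_zero_iff]
          exact (hKn _ _ hxK).1
        · rw [mem_sphere_zero_iff_norm]
          exact hx.1.2
      simp only [hΦ, h0 _ _ _ this, mul_zero]
  have hB := hΦi.integral_prod_left
  have hB' : Integrable (fun k : (ℝ × ℝ) × (P m × P m) =>
      ∫ t in Ioi (0 : ℝ), ((t ^ (m - 1) : ℝ) : ℂ) * H k.1 k.2.1 (k.2.1 + t • k.2.2))
      (((volume : Measure (ℝ × ℝ)).restrict box).prod
        ((volume : Measure (P m)).prod (sg m))) := hB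
  unfold nu
  rw [integral_prod _ hB']
  refine integral_congr_ae ?_
  filter_upwards [hB'.prod_right_ae] with s hs
  rw [integral_prod _ hs]
  refine integral_congr_ae (Eventually.of_forall fun u => ?_)
  have hcu : Continuous fun w : P m => H s u (u + w) :=
    hH.comp (f := fun w : P m => (s, (u, u + w))) (by fun_prop)
  have hiu : Integrable fun w : P m => H s u (u + w) := by
    refine hcu.integrable_of_hasCompactSupport ?_
    refine HasCompactSupport.intro (isCompact_closedBall (0 : P m) (2 * R)) fun w hw => ?_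
    refine h0 _ _ _ fun hwK => hw ?_
    rw [mem_closedBall_zero_iff]
    exact hKt _ _ hwK
  have h1 := polar hm (fun w => H s u (u + w)) hiu
  have h2 : ∫ w, H s u (u + w) = ∫ v, H s u v := integral_add_left_eq_self (fun v => H s u v) u
  simp only
  rw [← h2, h1]

/-! ### the pointwise identity -/

theorem pw_cont {n : ℕ} {z : ℂ} (hz : 0 < z.re) : Continuous (fun d : E n => pw d z) := by
  unfold pw
  refine continuous_iff_continuousAt.2 fun d => ?_
  exact ContinuousAt.comp (g := fun x : ℝ => (x : ℂ) ^ z) (f := fun d : E n => ‖d‖)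
    (Complex.continuousAt_ofReal_cpow_const _ _ (Or.inl hz)) continuous_norm.continuousAt

theorem ptw {n : ℕ} {m : ℕ} (hm : 1 ≤ m) (z : ℂ) {t : ℝ} (ht : 0 < t) (x d : E n)
    (hd : d = -(t • x)) (hx : x ≠ 0) (A : ℂ) (L : ℝ) (i j : Fin n) :
    ((t ^ (m - 1) : ℝ) : ℂ) * (A * Complex.exp (z * L) * ((d i * d j : ℝ) : ℂ) * pw d (z - 2)) =
      (t : ℂ) ^ (z + m - 1) * (A * ((x i * x j / ‖x‖ ^ 2 : ℝ) : ℂ)) *
        Complex.exp (z * ((L + Real.log (‖x‖ ^ 2) / 2 : ℝ) : ℂ)) := by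
  have hx0 : 0 < ‖x‖ := norm_pos_iff.2 hx
  have htc : (t : ℂ) ≠ 0 := Complex.ofReal_ne_zero.2 ht.ne'
  have hxc : ((‖x‖ : ℝ) : ℂ) ≠ 0 := Complex.ofReal_ne_zero.2 hx0.ne'
  have e1 : (d i * d j : ℝ) = t ^ 2 * (x i * x j) := by
    rw [hd]
    simp only [PiLp.neg_apply, PiLp.smul_apply, smul_eq_mul]
    ring
  have e2 : pw d (z - 2) = (t : ℂ) ^ (z - 2) * ((‖x‖ : ℝ) : ℂ) ^ (z - 2) := by
    unfold pw
    rw [hd, norm_neg, norm_smul, Real.norm_of_nonneg ht.le, Complex.ofReal_mul,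
      Complex.mul_cpow_ofReal_nonneg ht.le hx0.le]
  have e3 : Complex.exp (z * ((L + Real.log (‖x‖ ^ 2) / 2 : ℝ) : ℂ)) =
      Complex.exp (z * L) * (((‖x‖ : ℝ) : ℂ) ^ (z - 2) * ((‖x‖ : ℝ) : ℂ) ^ 2) := by
    have h1 : Real.log (‖x‖ ^ 2) / 2 = Real.log ‖x‖ := by
      rw [Real.log_pow]; push_cast; ring
    have h2 : ((‖x‖ : ℝ) : ℂ) ^ (z - 2) * ((‖x‖ : ℝ) : ℂ) ^ 2 = ((‖x‖ : ℝ) : ℂ) ^ z := by
      rw [← Complex.cpow_two, ← Complex.cpow_add _ _ hxc]
      congr 1; ring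
    rw [h1, h2, Complex.cpow_def_of_ne_zero hxc, ← Complex.ofReal_log hx0.le, Complex.ofReal_add,
      mul_add, Complex.exp_add, mul_comm z ((Real.log ‖x‖ : ℝ) : ℂ)]
  have e4 : (t : ℂ) ^ (z + m - 1) = ((t ^ (m - 1) : ℝ) : ℂ) * ((t : ℂ) ^ 2 * (t : ℂ) ^ (z - 2)) := by
    have h1 : z + m - 1 = ((m - 1 : ℕ) : ℂ) + (2 + (z - 2)) := by
      rw [Nat.cast_sub hm]; push_cast; ring
    rw [h1, Complex.cpow_add _ _ htc, Complex.cpow_add _ _ htc, Complex.cpow_natCast,
      Complex.cpow_two, Complex.ofReal_pow]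
  rw [e1, e2, e3, e4]
  have hxx : ((x i * x j / ‖x‖ ^ 2 : ℝ) : ℂ) * (((‖x‖ : ℝ) : ℂ) ^ 2) = ((x i * x j : ℝ) : ℂ) := by
    push_cast
    field_simp
  have ht2 : ((t ^ 2 : ℝ) : ℂ) = (t : ℂ) ^ 2 := Complex.ofReal_pow t 2
  rw [Complex.ofReal_mul (t ^ 2) (x i * x j), ht2, ← hxx]
  ring

/-! ### the theorem -/

theorem ll_ (hMEL : S_MEL) : S_LL := by
  intro m n hm u₀ ρ φ hρ hφ hinj himm a l K ha hl hK hKs haK i j
  obtain ⟨R, hR⟩ := hK.isBounded.subset_closedBall 0
  have hKn : ∀ u v, (u, v) ∈ K → ‖u‖ ≤ R ∧ ‖v‖ ≤ R := by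
    intro u v h
    have := hR h
    rw [mem_closedBall_zero_iff, Prod.norm_def, sup_le_iff] at this
    exact this
  -- the compact set of directions
  set C : Set (ℝ × (P m × P m)) := {p | (p.2.1, p.2.1 + p.1 • p.2.2) ∈ K ∧ ‖p.2.2‖ = 1} with hC
  have hCclosed : IsClosed C := by
    refine IsClosed.inter ?_ ?_
    · exact hK.isClosed.preimage (f := fun p : ℝ × (P m × P m) => (p.2.1, p.2.1 + p.1 • p.2.2))
        (by fun_prop)
    · exact isClosed_eq (by fun_prop) continuous_const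
  have hCcpt : IsCompact C := by
    refine (isCompact_Icc.prod ((isCompact_closedBall (0 : P m) R).prod
      (isCompact_closedBall (0 : P m) 1)) : IsCompact ((Icc (-(2 * R)) (2 * R)) ×ˢ
      (Metric.closedBall (0 : P m) R ×ˢ Metric.closedBall (0 : P m) 1))).of_isClosed_subset
      hCclosed ?_
    rintro ⟨t, u, θ⟩ ⟨h1, h2⟩
    simp only at h1 h2
    obtain ⟨h3, h4⟩ := hKn _ _ h1
    refine ⟨?_, ?_, ?_⟩
    · have h5 : ‖t • θ‖ ≤ 2 * R := by
        have h6 : t • θ = (u + t • θ) - u := by abel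
        rw [h6]
        exact (norm_sub_le _ _).trans (by linarith)
      rw [norm_smul, h2, mul_one, Real.norm_eq_abs, abs_le] at h5
      exact h5
    · simpa using h3
    · simp [h2]
  have hpsi := psi_smooth hφ
  have hOopen : IsOpen {p : ℝ × (P m × P m) | psi φ p ≠ 0} :=
    isOpen_ne_fun hpsi.continuous continuous_const
  have hCO : C ⊆ {p : ℝ × (P m × P m) | psi φ p ≠ 0} := by
    rintro ⟨t, u, θ⟩ ⟨h1, h2⟩
    simp only at h1 h2
    have h3 := hKs h1
    refine psi_ne hφ hinj himm h3.1 h3.2 ?_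
    rintro rfl
    simp at h2
  obtain ⟨χ0, hχs, hχc, hχ1, hχn, hχl, hχO⟩ := cutoff hCcpt hOopen hCO
  obtain ⟨β, hβs, hβc, hβ1, -, -, -⟩ := cutoff box_compact isOpen_univ (subset_univ _)
  set σ : ℝ × (P m × P m) → ℝ × (P m × P m) := fun p => (-p.1, (p.2.1, -p.2.2)) with hσ
  have hσs : ContDiff ℝ ∞ σ := by rw [hσ]; fun_prop
  have hσσ : ∀ p, σ (σ p) = p := fun p => by simp [hσ]
  set χ : ℝ × (P m × P m) → ℝ := fun p => (χ0 p + χ0 (σ p)) / 2 with hχ
  have hχsm : ContDiff ℝ ∞ χ := (hχs.add (hχs.comp hσs)).div_const 2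
  have hχsym : ∀ p, χ (σ p) = χ p := by
    intro p
    simp only [hχ, hσσ]
    ring
  have hCσ : ∀ p ∈ C, σ p ∈ C := by
    rintro ⟨t, u, θ⟩ ⟨h1, h2⟩
    exact ⟨by simpa [hσ] using h1, by simpa [hσ] using h2⟩
  have hχC : ∀ p ∈ C, χ p = 1 := by
    intro p hp
    simp only [hχ]
    rw [hχ1 p hp, hχ1 _ (hCσ p hp)]
    norm_num
  have hχnn : ∀ p, 0 ≤ χ p := fun p => by
    simp only [hχ]; linarith [hχn p, hχn (σ p)]
  have hχle : ∀ p, χ p ≤ 1 := fun p => by
    simp only [hχ]; linarith [hχl p, hχl (σ p)]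
  have hpσ : ∀ p, psi φ (σ p) = - psi φ p := fun p => psi_neg φ p.1 p.2.1 p.2.2
  have hχne : ∀ p, χ p ≠ 0 → psi φ p ≠ 0 := by
    intro p hp
    by_cases h1 : χ0 p = 0
    · have h2 : χ0 (σ p) ≠ 0 := by
        intro h2
        apply hp
        simp only [hχ, h1, h2]
        norm_num
      have h3 : psi φ (σ p) ≠ 0 := hχO _ h2
      rw [hpσ] at h3
      exact fun h => h3 (by rw [h, neg_zero])
    · exact hχO _ h1
  have hχcpt : IsCompact (tsupport χ0 ∪ σ ⁻¹' tsupport χ0) := by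
    refine hχc.isCompact.union ?_
    have : σ ⁻¹' tsupport χ0 = σ '' tsupport χ0 := by
      ext p
      constructor
      · intro h
        exact ⟨σ p, h, hσσ p⟩
      · rintro ⟨q, hq, rfl⟩
        have h : σ (σ q) ∈ tsupport χ0 := by rwa [hσσ]
        exact h
    rw [this]
    exact hχc.isCompact.image hσs.continuous
  have hχz : ∀ p, p ∉ tsupport χ0 ∪ σ ⁻¹' tsupport χ0 → χ p = 0 := by
    intro p hp
    have h1 : χ0 p = 0 := image_eq_zero_of_notMem_tsupport fun h => hp (Or.inl h)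
    have h2 : χ0 (σ p) = 0 := image_eq_zero_of_notMem_tsupport fun h => hp (Or.inr h)
    simp only [hχ, h1, h2]
    norm_num
  -- the positive function
  set q : ℝ × (P m × P m) → ℝ := fun p => χ p * ‖psi φ p‖ ^ 2 + (1 - χ p) with hq
  have hqs : ContDiff ℝ ∞ q :=
    (hχsm.mul (hpsi.norm_sq ℝ)).add (contDiff_const.sub hχsm)
  have hqpos : ∀ p, 0 < q p := by
    intro p
    simp only [hq]
    by_cases h1 : χ p = 0
    · rw [h1]; norm_num
    · have h2 : 0 < ‖psi φ p‖ ^ 2 := by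
        have := norm_pos_iff.2 (hχne p h1)
        positivity
      have h3 : 0 < χ p := lt_of_le_of_ne (hχnn p) (Ne.symm h1)
      have h4 := hχle p
      have h5 : 0 < χ p * ‖psi φ p‖ ^ 2 := mul_pos h3 h2
      linarith
  have hqsym : ∀ p, q (σ p) = q p := by
    intro p
    simp only [hq, hχsym, hpσ, norm_neg]
  have hqC : ∀ p ∈ C, q p = ‖psi φ p‖ ^ 2 := by
    intro p hp
    simp only [hq, hχC p hp]
    ring
  -- the data for the Mellin transform
  set f : ℝ → (ℝ × ℝ) × (P m × P m) → ℂ := fun t k =>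
    ((χ (t, k.2) * β k.1 : ℝ) : ℂ) * a k.2.1 (k.2.1 + t • k.2.2) k.1 *
      ((psi φ (t, k.2) i * psi φ (t, k.2) j / q (t, k.2) : ℝ) : ℂ) with hf
  set g : ℝ → (ℝ × ℝ) × (P m × P m) → ℝ := fun t k =>
    l k.2.1 (k.2.1 + t • k.2.2) k.1 + Real.log (q (t, k.2)) / 2 with hg
  have hπ : ContDiff ℝ ∞ (fun p : ℝ × ((ℝ × ℝ) × (P m × P m)) => (p.1, p.2.2)) := by fun_prop
  have hκ : ContDiff ℝ ∞ (fun p : ℝ × ((ℝ × ℝ) × (P m × P m)) =>
      (p.2.2.1, (p.2.2.1 + p.1 • p.2.2.2, p.2.1))) := by fun_prop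
  have hco : ∀ i : Fin n, ContDiff ℝ ∞ (fun p : ℝ × (P m × P m) => psi φ p i) := fun i =>
    (EuclideanSpace.proj i : E n →L[ℝ] ℝ).contDiff.comp hpsi
  have hfs : ContDiff ℝ ∞ (fun p : ℝ × ((ℝ × ℝ) × (P m × P m)) => f p.1 p.2) := by
    refine ContDiff.mul (ContDiff.mul ?_ ?_) ?_
    · refine Complex.ofRealCLM.contDiff.comp ?_
      exact (hχsm.comp hπ).mul (hβs.comp (by fun_prop))
    · exact ha.comp hκ
    · refine Complex.ofRealCLM.contDiff.comp ?_
      exact (((hco i).comp hπ).mul ((hco j).comp hπ)).div (hqs.comp hπ)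
        fun p => (hqpos _).ne'
  have hgs : ContDiff ℝ ∞ (fun p : ℝ × ((ℝ × ℝ) × (P m × P m)) => g p.1 p.2) := by
    refine ContDiff.add (hl.comp hκ) ?_
    exact ((hqs.comp hπ).log fun p => (hqpos _).ne').div_const 2
  have hfc : HasCompactSupport (fun p : ℝ × ((ℝ × ℝ) × (P m × P m)) => f p.1 p.2) := by
    have h1 : IsCompact ((fun x : (ℝ × (P m × P m)) × (ℝ × ℝ) => (x.1.1, (x.2, x.1.2))) ''
        ((tsupport χ0 ∪ σ ⁻¹' tsupport χ0) ×ˢ tsupport β)) :=
      (hχcpt.prod hβc.isCompact).image (by fun_prop)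
    refine HasCompactSupport.intro h1 fun p hp => ?_
    by_cases h2 : (p.1, p.2.2) ∈ tsupport χ0 ∪ σ ⁻¹' tsupport χ0
    · by_cases h3 : p.2.1 ∈ tsupport β
      · exact absurd ⟨((p.1, p.2.2), p.2.1), ⟨h2, h3⟩, rfl⟩ hp
      · have : β p.2.1 = 0 := image_eq_zero_of_notMem_tsupport h3
        simp [hf, this]
    · have : χ (p.1, p.2.2) = 0 := hχz _ h2
      simp [hf, this]
  have hfin := sg_finite m
  have hτ : MeasurePreserving (fun k : (ℝ × ℝ) × (P m × P m) => (k.1, (k.2.1, -k.2.2)))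
      (nu m) (nu m) :=
    (MeasurePreserving.id _).prod ((MeasurePreserving.id _).prod (sg_neg m))
  have hsym : ∀ᵐ k ∂(nu m), ∀ t : ℝ, f (-t) (k.1, (k.2.1, -k.2.2)) = f t k ∧
      g (-t) (k.1, (k.2.1, -k.2.2)) = g t k := by
    refine Eventually.of_forall fun k t => ?_
    have e1 : χ (-t, (k.2.1, -k.2.2)) = χ (t, k.2) := hχsym (t, k.2)
    have e2 : q (-t, (k.2.1, -k.2.2)) = q (t, k.2) := hqsym (t, k.2)
    have e3 : psi φ (-t, (k.2.1, -k.2.2)) = - psi φ (t, k.2) := hpσ (t, k.2)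
    have e4 : (-t) • (-k.2.2) = t • k.2.2 := by simp
    constructor
    · simp only [hf, e1, e2, e3, e4, PiLp.neg_apply, neg_mul_neg]
    · simp only [hg, e2, e4]
  have hνc : IsFiniteMeasureOnCompacts (nu m) := by unfold nu; infer_instance
  obtain ⟨J, hJ1, hJ2, hJ3⟩ := hMEL m hm ((ℝ × ℝ) × (P m × P m)) (nu m) f g
    (fun k => (k.1, (k.2.1, -k.2.2))) hfs hgs hfc hτ hsym
  refine ⟨J, hJ1, fun z hz => ?_, hJ3⟩
  rw [hJ2 z hz]
  congr 1
  have hH : Continuous (fun p : (ℝ × ℝ) × (P m × P m) => a p.2.1 p.2.2 p.1 *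
      Complex.exp (z * l p.2.1 p.2.2 p.1) *
      (((φ p.2.1 - φ p.2.2) i * (φ p.2.1 - φ p.2.2) j : ℝ) : ℂ) *
      pw (φ p.2.1 - φ p.2.2) (z - 2)) := by
    have hk : Continuous (fun p : (ℝ × ℝ) × (P m × P m) => (p.2.1, (p.2.2, p.1))) := by fun_prop
    have hdd : Continuous (fun p : (ℝ × ℝ) × (P m × P m) => φ p.2.1 - φ p.2.2) :=
      (hφ.continuous.comp (by fun_prop)).sub (hφ.continuous.comp (by fun_prop))
    have hdc : ∀ i : Fin n, Continuous
        (fun p : (ℝ × ℝ) × (P m × P m) => (φ p.2.1 - φ p.2.2) i) := fun i =>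
      (EuclideanSpace.proj i : E n →L[ℝ] ℝ).continuous.comp hdd
    refine ((Continuous.mul (ha.continuous.comp hk) ?_).mul ?_).mul ?_
    · exact Complex.continuous_exp.comp (continuous_const.mul
        (Complex.continuous_ofReal.comp (hl.continuous.comp hk)))
    · exact Complex.continuous_ofReal.comp ((hdc i).mul (hdc j))
    · exact (pw_cont (by simp; linarith)).comp hdd
  have key := fub hm (fun s u v => a u v s * Complex.exp (z * l u v s) *
      (((φ u - φ v) i * (φ u - φ v) j : ℝ) : ℂ) * pw (φ u - φ v) (z - 2)) hH hK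
      (fun s u v h => by simp only [haK u v s h, zero_mul])
  refine Eq.trans ?_ key.symm
  refine integral_congr_ae ?_
  filter_upwards [nu_ae m] with k hk
  refine setIntegral_congr_fun measurableSet_Ioi fun t ht => ?_
  have ht' : (0 : ℝ) < t := ht
  by_cases hKk : (k.2.1, k.2.1 + t • k.2.2) ∈ K
  · have hkC : (t, k.2) ∈ C := ⟨hKk, hk.2⟩
    have hd : φ k.2.1 - φ (k.2.1 + t • k.2.2) = -(t • psi φ (t, k.2)) := by
      have := psi_id hφ t k.2.1 k.2.2
      rw [show psi φ (t, k.2) = psi φ (t, (k.2.1, k.2.2)) from rfl, this]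
      abel
    have h1 := ptw hm z ht' (psi φ (t, k.2)) _ hd (hCO hkC)
      (a k.2.1 (k.2.1 + t • k.2.2) k.1) (l k.2.1 (k.2.1 + t • k.2.2) k.1) i j
    rw [h1]
    simp only [hf, hg]
    rw [hχC _ hkC, hβ1 _ hk.1, hqC _ hkC]
    simp
  · simp only [hf]
    rw [haK _ _ _ hKk]
    simp

end Pool.Agent.Q178.MW.JLL
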