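import Pool.Agent.Q178.MW.J_CON
import Pool.Agent.Q178.MW.J_LL

set_option autoImplicit false

open MeasureTheory Set Filter Topology
open scoped ContDiff

namespace Pool.Agent.Q178.MW.JCONT

open Pool.Agent.Q178.MW Pool.Agent.Q178.MW.Tools

/-! ### closure properties of `Good` -/

theorem good_congr {m : ℕ} {I I' : ℂ → ℂ} (h : ∀ z : ℂ, 2 < z.re → I z = I' z) (hI : Good m I) :
    Good m I' := by
  obtain ⟨J, h1, h2, h3⟩ := hI
  exact ⟨J, h1, fun z hz => by rw [h2 z hz, h z hz], h3⟩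

theorem good_zero {m : ℕ} : Good m (fun _ => 0) :=
  ⟨fun _ => 0, differentiableOn_const _, fun z _ => by simp, fun _ => rfl⟩

theorem good_add {m : ℕ} {I I' : ℂ → ℂ} (h : Good m I) (h' : Good m I') :
    Good m (fun z => I z + I' z) := by
  obtain ⟨J, h1, h2, h3⟩ := h
  obtain ⟨J', h1', h2', h3'⟩ := h'
  refine ⟨fun z => J z + J' z, h1.add h1', fun z hz => ?_, fun ho => ?_⟩
  · show J z + J' z = _ * (I z + I' z)
    rw [h2 z hz, h2' z hz]; ring
  · show J _ + J' _ = 0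
    rw [h3 ho, h3' ho, add_zero]

theorem good_sum {m : ℕ} {ι : Type*} (s : Finset ι) {I : ι → ℂ → ℂ} (h : ∀ i ∈ s, Good m (I i)) :
    Good m (fun z => ∑ i ∈ s, I i z) := by
  classical
  induction s using Finset.induction_on with
  | empty => simpa using good_zero
  | insert a s ha ih =>
    have h1 := good_add (h a (Finset.mem_insert_self a s))
      (ih fun i hi => h i (Finset.mem_insert_of_mem hi))
    exact good_congr (fun z _ => by rw [Finset.sum_insert ha]) h1

theorem good_entire {m : ℕ} {I : ℂ → ℂ} (h : Differentiable ℂ I) : Good m I := by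
  refine ⟨fun z => (∏ j ∈ Finset.range (m + 1), (z + m + j)) * I z, ?_, fun z _ => rfl,
    fun _ => ?_⟩
  · refine DifferentiableOn.mul ?_ h.differentiableOn
    refine DifferentiableOn.fun_finsetProd fun i _ => ?_
    fun_prop
  · have : ∏ j ∈ Finset.range (m + 1), ((-2 * m : ℂ) + m + j) = 0 := by
      refine Finset.prod_eq_zero (i := m) (by simp) (by ring)
    show (∏ j ∈ Finset.range (m + 1), ((-2 * m : ℂ) + m + j)) * I _ = 0
    rw [this, zero_mul]

/-! ### triple integrals -/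

theorem tri {X Y Z : Type*} [MeasurableSpace X] [MeasurableSpace Y] [MeasurableSpace Z]
    (μ₁ : Measure X) (μ₂ : Measure Y) (μ₃ : Measure Z) [SFinite μ₁] [SFinite μ₂] [SFinite μ₃]
    (h : X × (Y × Z) → ℂ) (hi : Integrable h (μ₁.prod (μ₂.prod μ₃))) :
    ∫ s, ∫ x, ∫ y, h (s, (x, y)) ∂μ₃ ∂μ₂ ∂μ₁ = ∫ p, h p ∂(μ₁.prod (μ₂.prod μ₃)) := by
  rw [integral_prod _ hi]
  refine integral_congr_ae ?_
  filter_upwards [hi.prod_right_ae] with s hs
  rw [integral_prod _ hs]

variable {m n : ℕ}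

/-- the product measure -/
noncomputable def m3 (M : Sub m n) : Measure ((ℝ × ℝ) × (E n × E n)) :=
  ((volume : Measure (ℝ × ℝ)).restrict box).prod (M.vol.prod M.vol)

theorem m3_restrict (M : Sub m n) [IsFiniteMeasure M.vol] :
    (m3 M).restrict (box ×ˢ (M.carrier ×ˢ M.carrier)) = m3 M := by
  unfold m3
  rw [← Measure.prod_restrict, restrict_prod, Measure.restrict_restrict
    JLL.box_compact.measurableSet, inter_self]

theorem int3 (M : Sub m n) [IsFiniteMeasure M.vol] {h : (ℝ × ℝ) × (E n × E n) → ℂ}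
    (hc : ContinuousOn h (box ×ˢ (M.carrier ×ˢ M.carrier))) : Integrable h (m3 M) := by
  have hfin : IsFiniteMeasureOnCompacts (m3 M) := by unfold m3; infer_instance
  have h1 := hc.integrableOn_compact (μ := m3 M)
    (JLL.box_compact.prod (M.compact.prod M.compact))
  rwa [IntegrableOn, m3_restrict] at h1

theorem int3' {K : Set (P m × P m)} (hK : IsCompact K) {h : (ℝ × ℝ) × (P m × P m) → ℂ}
    (hc : Continuous h) (h0 : ∀ s p, p ∉ K → h (s, p) = 0) :
    Integrable h (((volume : Measure (ℝ × ℝ)).restrict box).prod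
      ((volume : Measure (P m)).prod (volume : Measure (P m)))) := by
  have h1 := hc.continuousOn.integrableOn_compact
    (μ := ((volume : Measure (ℝ × ℝ)).restrict box).prod
      ((volume : Measure (P m)).prod (volume : Measure (P m)))) (JLL.box_compact.prod hK)
  have h2 := (integrable_indicator_iff (JLL.box_compact.prod hK).measurableSet).2 h1
  refine h2.congr ?_
  have hae : ∀ᵐ x ∂(((volume : Measure (ℝ × ℝ)).restrict box).prod
      ((volume : Measure (P m)).prod (volume : Measure (P m)))), x.1 ∈ box :=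
    Measure.quasiMeasurePreserving_fst.ae (ae_restrict_mem JLL.box_compact.measurableSet)
  filter_upwards [hae] with x hx
  by_cases hxK : x.2 ∈ K
  · have hxS : x ∈ box ×ˢ K := ⟨hx, hxK⟩
    rw [indicator_of_mem hxS]
  · have hxS : x ∉ box ×ˢ K := fun h => hxK h.2
    rw [indicator_of_notMem hxS, ← h0 x.1 x.2 hxK]

/-! ### compact parts of charts -/

theorem locC (M : Sub m n) {U : Set (P m)} {φ : P m → E n} (h : IsChart M.carrier M.frame U φ)
    {A : Set (E n)} (hA : IsCompact A) (hAU : A ⊆ φ '' U) :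
    ∃ δ : ℝ, 0 < δ ∧ ∃ L : Set (P m), IsCompact L ∧ L ⊆ U ∧
      ∀ x ∈ A, ∀ y ∈ M.carrier, ‖x - y‖ ≤ δ → y ∈ φ '' L := by
  obtain ⟨W, hW, hWe⟩ := h.image U Subset.rfl h.isOpen
  have hAW : A ⊆ W := fun x hx => by
    have := hAU hx
    rw [hWe] at this
    exact this.2
  obtain ⟨δ, hδ, hδW⟩ := hA.exists_cthickening_subset_open hW hAW
  set B := M.carrier ∩ Metric.cthickening δ A with hB
  have hBc : IsCompact B := M.compact.inter_right Metric.isClosed_cthickening
  have hBU : B ⊆ φ '' U := by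
    rw [hWe]
    exact fun x hx => ⟨hx.1, hδW hx.2⟩
  have hψ : ContinuousOn (Function.invFunOn φ U) (φ '' U) := by
    rintro _ ⟨u, hu, rfl⟩
    have hinv : ∀ w ∈ U, Function.invFunOn φ U (φ w) = w := fun w hw =>
      h.inj.leftInvOn_invFunOn hw
    have h1 : 𝓝[φ '' U] (φ u) ≤ 𝓝[M.carrier] (φ u) := by
      refine nhdsWithin_mono _ ?_
      rw [hWe]
      exact inter_subset_left
    show Tendsto (Function.invFunOn φ U) (𝓝[φ '' U] (φ u)) (𝓝 (Function.invFunOn φ U (φ u)))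
    rw [hinv u hu]
    refine Tendsto.mono_left ?_ (h1.trans (JCON.nhds_le h.toIsParam hu))
    rw [tendsto_map'_iff]
    refine tendsto_id.congr' ?_
    filter_upwards [h.isOpen.mem_nhds hu] with w hw
    exact (hinv w hw).symm
  refine ⟨δ, hδ, Function.invFunOn φ U '' B, hBc.image_of_continuousOn (hψ.mono hBU), ?_, ?_⟩
  · rintro _ ⟨y, hy, rfl⟩
    exact Function.invFunOn_mem (hBU hy)
  · intro x hx y hy hxy
    have hyB : y ∈ B := ⟨hy, Metric.mem_cthickening_of_dist_le y x δ A hx (by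
      rw [dist_comm, dist_eq_norm]; exact hxy)⟩
    exact ⟨_, mem_image_of_mem _ hyB, Function.invFunOn_eq (hBU hyB)⟩

/-! ### the part near the diagonal -/

theorem cutoff' {W : Type} [NormedAddCommGroup W] [NormedSpace ℝ W] [FiniteDimensional ℝ W]
    {C O : Set W} (hC : IsCompact C) (hO : IsOpen O) (h : C ⊆ O) :
    ∃ χ : W → ℝ, ContDiff ℝ ∞ χ ∧ (∀ x ∈ C, χ x = 1) ∧
      ∃ L : Set W, IsCompact L ∧ L ⊆ O ∧ ∀ x, x ∉ L → χ x = 0 := by
  have hprop : ProperSpace W := FiniteDimensional.proper_real W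
  obtain ⟨L, hL, hCL, hLO⟩ := exists_compact_between hC hO h
  obtain ⟨f, h1, h0, -⟩ := exists_contMDiffMap_one_nhds_of_subset_interior (n := (⊤ : ℕ∞))
    (modelWithCornersSelf ℝ W) hC.isClosed hCL
  exact ⟨f, f.contMDiff.contDiff, fun x hx => h1.self_of_nhdsSet x hx, L, hL, hLO,
    fun x hx => h0 x hx⟩

/-- in every good chart the kernel is a quadratic form in `x - y` with smooth coefficients -/
def Quad (M : Sub m n) (κ : E n → E n → ℝ) : Prop :=
  ∀ (u₀ : P m) (ρ : ℝ) (φ : P m → E n), GoodChart M u₀ ρ φ →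
    ∃ γ : Fin n → Fin n → P m → P m → ℝ,
      (∀ a b, ContDiff ℝ ∞ (fun p : P m × P m => γ a b p.1 p.2)) ∧
      ∀ u ∈ Metric.ball u₀ ρ, ∀ v ∈ Metric.ball u₀ ρ,
        κ (φ u) (φ v) * (Real.sqrt (mv (pd φ u) (pd φ u)) * Real.sqrt (mv (pd φ v) (pd φ v))) =
          ∑ a, ∑ b, (φ u - φ v) a * (φ u - φ v) b * γ a b u v

theorem near (hLL : S_LL) (hINT : S_INT) (hm : 1 ≤ m) (M : Sub m n) {κ : E n → E n → ℝ}
    (hκ : Quad M κ) {u₀ : P m} {ρ : ℝ} {φ : P m → E n} (hφ : GoodChart M u₀ ρ φ)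
    {L : Set (P m)} (hL : IsCompact L) (hLU : L ⊆ Metric.ball u₀ ρ) (w : E n → E n → ℝ)
    (hw : ContDiff ℝ ∞ (fun p : E n × E n => w p.1 p.2))
    (hw0 : ∀ x ∈ M.carrier, ∀ y ∈ M.carrier, w x y ≠ 0 → x ∈ φ '' L ∧ y ∈ φ '' L)
    (α : E n → E n → ℝ × ℝ → ℂ) (l : E n → E n → ℝ × ℝ → ℝ)
    (hα : ContDiff ℝ ∞ (fun p : E n × E n × (ℝ × ℝ) => α p.1 p.2.1 p.2.2))
    (hl : ContDiff ℝ ∞ (fun p : E n × E n × (ℝ × ℝ) => l p.1 p.2.1 p.2.2)) :
    Good m (fun z => ∫ s in box, ∫ x, ∫ y, ((κ x y * w x y : ℝ) : ℂ) * α x y s *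
      Complex.exp (z * l x y s) * pw (x - y) (z - 2) ∂M.vol ∂M.vol) := by
  obtain ⟨γ, hγ, hγκ⟩ := hκ u₀ ρ φ hφ
  obtain ⟨ζ, hζs, hζ1, L', hL', hL'U, hζ0⟩ := cutoff' hL Metric.isOpen_ball hLU
  have hφc := hφ.chart
  have hφs := hφ.smooth
  set A : Fin n → Fin n → P m → P m → ℝ × ℝ → ℂ := fun a b u v s =>
    ((ζ u * ζ v * γ a b u v * w (φ u) (φ v) : ℝ) : ℂ) * α (φ u) (φ v) s with hA
  have hκ3 : ContDiff ℝ ∞ (fun p : P m × P m × (ℝ × ℝ) => (φ p.1, (φ p.2.1, p.2.2))) :=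
    (hφs.comp (by fun_prop)).prodMk ((hφs.comp (by fun_prop)).prodMk (by fun_prop))
  have hAs : ∀ a b, ContDiff ℝ ∞ (fun p : P m × P m × (ℝ × ℝ) => A a b p.1 p.2.1 p.2.2) := by
    intro a b
    refine ContDiff.mul (Complex.ofRealCLM.contDiff.comp ?_) (hα.comp hκ3)
    refine ContDiff.mul (ContDiff.mul (ContDiff.mul (hζs.comp (by fun_prop))
      (hζs.comp (by fun_prop))) ?_) ?_
    · exact (hγ a b).comp (f := fun p : P m × P m × (ℝ × ℝ) => (p.1, p.2.1)) (by fun_prop)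
    · exact hw.comp (f := fun p : P m × P m × (ℝ × ℝ) => (φ p.1, φ p.2.1))
        ((hφs.comp (by fun_prop)).prodMk (hφs.comp (by fun_prop)))
  have hls : ContDiff ℝ ∞ (fun p : P m × P m × (ℝ × ℝ) => l (φ p.1) (φ p.2.1) p.2.2) :=
    hl.comp hκ3
  have hA0 : ∀ a b, ∀ u v s, (u, v) ∉ L' ×ˢ L' → A a b u v s = 0 := by
    intro a b u v s h
    simp only [hA]
    by_cases hu : u ∈ L'
    · have hv : v ∉ L' := fun hv => h ⟨hu, hv⟩
      rw [hζ0 v hv]; simp
    · rw [hζ0 u hu]; simp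
  have hG : ∀ a b, Good m (fun z => ∫ s in box, ∫ u, ∫ v, A a b u v s *
      Complex.exp (z * l (φ u) (φ v) s) *
      (((φ u - φ v) a * (φ u - φ v) b : ℝ) : ℂ) * pw (φ u - φ v) (z - 2)) := fun a b =>
    hLL m n hm u₀ ρ φ hφ.pos hφs hφc.inj hφc.immersion (A a b)
      (fun u v s => l (φ u) (φ v) s) (L' ×ˢ L') (hAs a b) hls (hL'.prod hL')
      (Set.prod_mono hL'U hL'U) (hA0 a b) a b
  refine good_congr ?_ (good_sum Finset.univ fun a _ => good_sum Finset.univ fun b _ => hG a b)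
  intro z hz
  -- the sum
  have hcont : ∀ a b, Continuous (fun p : (ℝ × ℝ) × (P m × P m) => A a b p.2.1 p.2.2 p.1 *
      Complex.exp (z * l (φ p.2.1) (φ p.2.2) p.1) *
      (((φ p.2.1 - φ p.2.2) a * (φ p.2.1 - φ p.2.2) b : ℝ) : ℂ) *
      pw (φ p.2.1 - φ p.2.2) (z - 2)) := by
    intro a b
    have hk : Continuous (fun p : (ℝ × ℝ) × (P m × P m) => (p.2.1, (p.2.2, p.1))) := by fun_prop
    have hdd : Continuous (fun p : (ℝ × ℝ) × (P m × P m) => φ p.2.1 - φ p.2.2) :=
      (hφs.continuous.comp (by fun_prop)).sub (hφs.continuous.comp (by fun_prop))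
    have hdc : ∀ i : Fin n, Continuous
        (fun p : (ℝ × ℝ) × (P m × P m) => (φ p.2.1 - φ p.2.2) i) := fun i =>
      (EuclideanSpace.proj i : E n →L[ℝ] ℝ).continuous.comp hdd
    refine ((Continuous.mul ((hAs a b).continuous.comp hk) ?_).mul ?_).mul ?_
    · exact Complex.continuous_exp.comp (continuous_const.mul
        (Complex.continuous_ofReal.comp (hls.continuous.comp hk)))
    · exact Complex.continuous_ofReal.comp ((hdc a).mul (hdc b))
    · exact (Tools.pw_cont (by simp; linarith)).comp hdd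
  have hint : ∀ a b, Integrable (fun p : (ℝ × ℝ) × (P m × P m) => A a b p.2.1 p.2.2 p.1 *
      Complex.exp (z * l (φ p.2.1) (φ p.2.2) p.1) *
      (((φ p.2.1 - φ p.2.2) a * (φ p.2.1 - φ p.2.2) b : ℝ) : ℂ) *
      pw (φ p.2.1 - φ p.2.2) (z - 2)) (((volume : Measure (ℝ × ℝ)).restrict box).prod
      ((volume : Measure (P m)).prod (volume : Measure (P m)))) := fun a b =>
    int3' (hL'.prod hL') (hcont a b) fun s p hp => by
      simp only [hA0 a b p.1 p.2 s hp, zero_mul]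
  have e1 : ∑ a, ∑ b, ∫ s in box, ∫ u, ∫ v, A a b u v s *
      Complex.exp (z * l (φ u) (φ v) s) *
      (((φ u - φ v) a * (φ u - φ v) b : ℝ) : ℂ) * pw (φ u - φ v) (z - 2) =
      ∫ s in box, ∫ u, ∫ v, ∑ a, ∑ b, A a b u v s *
      Complex.exp (z * l (φ u) (φ v) s) *
      (((φ u - φ v) a * (φ u - φ v) b : ℝ) : ℂ) * pw (φ u - φ v) (z - 2) := by
    have h1 := fun a b => tri _ _ _ _ (hint a b)
    have h2 := tri _ _ _ _ (integrable_finsetSum Finset.univ fun a _ =>
      integrable_finsetSum Finset.univ fun b _ => hint a b)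
    simp only at h1 h2
    rw [h2, integral_finsetSum _ (fun a _ => integrable_finsetSum _ fun b _ => hint a b)]
    refine Finset.sum_congr rfl fun a _ => ?_
    rw [integral_finsetSum _ (fun b _ => hint a b)]
    exact Finset.sum_congr rfl fun b _ => h1 a b
  rw [e1]
  refine integral_congr_ae (Eventually.of_forall fun s => ?_)
  -- the integral over `M` in the chart
  have hmem : ∀ u ∈ Metric.ball u₀ ρ, φ u ∈ M.carrier := fun u hu => JCON.mem M hφc hu
  have hsub : φ '' L ⊆ φ '' Metric.ball u₀ ρ := image_mono hLU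
  set F : E n → E n → ℂ := fun x y => ((κ x y * w x y : ℝ) : ℂ) * α x y s *
      Complex.exp (z * l x y s) * pw (x - y) (z - 2) with hF
  have hF0 : ∀ x y, w x y = 0 → F x y = 0 := by
    intro x y h
    simp [hF, h]
  have e2 : ∫ x, ∫ y, F x y ∂M.vol ∂M.vol = ∫ x, (∫ v in Metric.ball u₀ ρ,
      (Real.sqrt (mv (pd φ v) (pd φ v)) : ℂ) * F x (φ v)) ∂M.vol := by
    refine Tools.integral_congr M fun x hx => ?_
    refine hINT m n M _ φ hφc (fun y => F x y) fun y hy hy' => ?_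
    refine hF0 x y ?_
    by_contra hne
    exact hy' (hsub (hw0 x hx y hy hne).2)
  have e3 : ∫ x, (∫ v in Metric.ball u₀ ρ,
      (Real.sqrt (mv (pd φ v) (pd φ v)) : ℂ) * F x (φ v)) ∂M.vol =
      ∫ u in Metric.ball u₀ ρ, (Real.sqrt (mv (pd φ u) (pd φ u)) : ℂ) *
        ∫ v in Metric.ball u₀ ρ, (Real.sqrt (mv (pd φ v) (pd φ v)) : ℂ) * F (φ u) (φ v) := by
    refine hINT m n M _ φ hφc _ fun x hx hx' => ?_
    refine setIntegral_eq_zero_of_forall_eq_zero fun v hv => ?_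
    rw [hF0 x (φ v), mul_zero]
    by_contra hne
    exact hx' (hsub (hw0 x hx (φ v) (hmem v hv) hne).1)
  show _ = ∫ x, ∫ y, F x y ∂M.vol ∂M.vol
  rw [e2, e3]
  have hout : ∀ u v, (u ∉ Metric.ball u₀ ρ ∨ v ∉ Metric.ball u₀ ρ) → ∀ a b, A a b u v s = 0 := by
    intro u v h a b
    refine hA0 a b u v s fun hh => ?_
    rcases h with h | h
    · exact h (hL'U hh.1)
    · exact h (hL'U hh.2)
  set HH : P m → P m → ℂ := fun u v => ∑ a, ∑ b, A a b u v s *
      Complex.exp (z * l (φ u) (φ v) s) *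
      (((φ u - φ v) a * (φ u - φ v) b : ℝ) : ℂ) * pw (φ u - φ v) (z - 2) with hHH
  have hHH0 : ∀ u v, (u ∉ Metric.ball u₀ ρ ∨ v ∉ Metric.ball u₀ ρ) → HH u v = 0 := by
    intro u v h
    simp only [hHH]
    refine Finset.sum_eq_zero fun a _ => Finset.sum_eq_zero fun b _ => ?_
    rw [hout u v h a b]
    simp
  have e5 : ∫ u, ∫ v, HH u v =
      ∫ u in Metric.ball u₀ ρ, ∫ v in Metric.ball u₀ ρ, HH u v := by
    have h1 : ∀ u, u ∉ Metric.ball u₀ ρ → ∫ v, HH u v = 0 := by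
      intro u hu
      simp only [hHH0 u _ (Or.inl hu), integral_zero]
    rw [← setIntegral_eq_integral_of_forall_compl_eq_zero h1]
    refine integral_congr_ae (Eventually.of_forall fun u => ?_)
    exact (setIntegral_eq_integral_of_forall_compl_eq_zero
      (fun v hv => hHH0 u v (Or.inr hv))).symm
  refine e5.trans ?_
  refine setIntegral_congr_fun Metric.isOpen_ball.measurableSet fun u hu => ?_
  rw [← integral_const_mul]
  refine setIntegral_congr_fun Metric.isOpen_ball.measurableSet fun v hv => ?_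
  have e4 : HH u v =
      ((ζ u * ζ v * w (φ u) (φ v) : ℝ) : ℂ) * α (φ u) (φ v) s *
      Complex.exp (z * l (φ u) (φ v) s) * pw (φ u - φ v) (z - 2) *
      ((∑ a, ∑ b, (φ u - φ v) a * (φ u - φ v) b * γ a b u v : ℝ) : ℂ) := by
    simp only [hHH]
    push_cast
    rw [Finset.mul_sum]
    refine Finset.sum_congr rfl fun a _ => ?_
    rw [Finset.mul_sum]
    refine Finset.sum_congr rfl fun b _ => ?_
    simp only [hA]
    push_cast
    ring
  rw [e4, ← hγκ u hu v hv]
  by_cases h0 : w (φ u) (φ v) = 0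
  · rw [hF0 _ _ h0, h0]; simp
  · obtain ⟨h1, h2⟩ := hw0 _ (hmem u hu) _ (hmem v hv) h0
    have h3 : ∀ x ∈ Metric.ball u₀ ρ, φ x ∈ φ '' L → ζ x = 1 := by
      rintro x hx ⟨y, hy, hyx⟩
      have := hφc.inj (hLU hy) hx hyx
      rw [← this]
      exact hζ1 y hy
    rw [h3 u hu h1, h3 v hv h2]
    simp only [hF]
    push_cast
    ring

/-! ### the global statement for a kernel -/

theorem exists_min {N : ℕ} (δ : Fin N → ℝ) (h : ∀ i, 0 < δ i) : ∃ d : ℝ, 0 < d ∧ ∀ i, d ≤ δ i := by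
  rcases isEmpty_or_nonempty (Fin N) with hN | hN
  · exact ⟨1, one_pos, fun i => (hN.false i).elim⟩
  · obtain ⟨i, -, hi⟩ := Finset.exists_min_image Finset.univ δ Finset.univ_nonempty
    exact ⟨δ i, h i, fun j => hi j (Finset.mem_univ j)⟩

theorem far_pt (z : ℂ) {r d : ℝ} (hd : 0 < d) (hr : d < r) (K A : ℂ) (L : ℝ) :
    K / (((max r d : ℝ) : ℂ)) ^ 2 * A * Complex.exp (z * ((L + Real.log (max r d) : ℝ) : ℂ)) =
      K * A * Complex.exp (z * L) * ((r : ℝ) : ℂ) ^ (z - 2) := by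
  have hr0 : 0 < r := hd.trans hr
  have hrc : (r : ℂ) ≠ 0 := Complex.ofReal_ne_zero.2 hr0.ne'
  rw [max_eq_left hr.le]
  have h1 : ((r : ℝ) : ℂ) ^ (z - 2) = Complex.exp (z * Real.log r) / (r : ℂ) ^ 2 := by
    rw [Complex.cpow_sub _ _ hrc, Complex.cpow_two, Complex.cpow_def_of_ne_zero hrc,
      ← Complex.ofReal_log hr0.le, mul_comm z]
  rw [h1, Complex.ofReal_add, mul_add, Complex.exp_add]
  ring

theorem kernel (hLL : S_LL) (hLAP : S_LAP) (hPU : S_PU) (hINT : S_INT) (hFIN : S_FIN)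
    (hm : 1 ≤ m) (M : Sub m n) {κ : E n → E n → ℝ} (hκ : Quad M κ)
    (hκc : ContinuousOn (fun p : E n × E n => κ p.1 p.2) (M.carrier ×ˢ M.carrier))
    (α : E n → E n → ℝ × ℝ → ℂ) (l : E n → E n → ℝ × ℝ → ℝ)
    (hα : ContDiff ℝ ∞ (fun p : E n × E n × (ℝ × ℝ) => α p.1 p.2.1 p.2.2))
    (hl : ContDiff ℝ ∞ (fun p : E n × E n × (ℝ × ℝ) => l p.1 p.2.1 p.2.2)) :
    Good m (fun z => ∫ s in box, ∫ x, ∫ y, (κ x y : ℂ) * α x y s *
      Complex.exp (z * l x y s) * pw (x - y) (z - 2) ∂M.vol ∂M.vol) := by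
  have hfinM : IsFiniteMeasure M.vol := hFIN m n M
  obtain ⟨N, u₀, ρ, φ, χ, hg, hχs, hχc, hχsub, V, hV, hMV, hsum⟩ := hPU m n M
  have hloc : ∀ i, ∃ δ : ℝ, 0 < δ ∧ ∃ L : Set (P m), IsCompact L ∧ L ⊆ Metric.ball (u₀ i) (ρ i) ∧
      ∀ x ∈ M.carrier ∩ tsupport (χ i), ∀ y ∈ M.carrier, ‖x - y‖ ≤ δ → y ∈ φ i '' L := fun i =>
    locC M (hg i).chart (M.compact.inter_right (isClosed_tsupport _)) (hχsub i)
  choose δs hδs L hL hLU hLp using hloc
  obtain ⟨δ, hδ, hδle⟩ := exists_min δs hδs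
  obtain ⟨η, hηs, -, hη1, -, -, hηO⟩ := JLL.cutoff (isCompact_closedBall (0 : E n) (δ / 2))
    (Metric.isOpen_ball : IsOpen (Metric.ball (0 : E n) δ))
    (Metric.closedBall_subset_ball (by linarith))
  -- the near parts
  have hws : ∀ i, ContDiff ℝ ∞ (fun p : E n × E n => χ i p.1 * η (p.1 - p.2)) := fun i =>
    ((hχs i).comp contDiff_fst).mul (hηs.comp (contDiff_fst.sub contDiff_snd))
  have hnear : ∀ i, Good m (fun z => ∫ s in box, ∫ x, ∫ y,
      ((κ x y * (χ i x * η (x - y)) : ℝ) : ℂ) * α x y s *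
      Complex.exp (z * l x y s) * pw (x - y) (z - 2) ∂M.vol ∂M.vol) := by
    intro i
    refine near hLL hINT hm M hκ (hg i) (hL i) (hLU i) (fun x y => χ i x * η (x - y)) (hws i)
      ?_ α l hα hl
    intro x hx y hy hne
    have h1 : χ i x ≠ 0 := left_ne_zero_of_mul hne
    have h2 : η (x - y) ≠ 0 := right_ne_zero_of_mul hne
    have hxA : x ∈ M.carrier ∩ tsupport (χ i) := ⟨hx, subset_tsupport _ h1⟩
    have h3 : ‖x - y‖ < δ := by simpa using hηO _ h2
    exact ⟨hLp i x hxA x hx (by simpa using (hδs i).le),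
      hLp i x hxA y hy (h3.le.trans (hδle i))⟩
  -- the far part
  set c : (ℝ × ℝ) × (E n × E n) → ℂ := fun p =>
    ((κ p.2.1 p.2.2 * (1 - η (p.2.1 - p.2.2)) : ℝ) : ℂ) /
      (((max ‖p.2.1 - p.2.2‖ (δ / 2) : ℝ) : ℂ)) ^ 2 * α p.2.1 p.2.2 p.1 with hc
  set l' : (ℝ × ℝ) × (E n × E n) → ℝ := fun p =>
    l p.2.1 p.2.2 p.1 + Real.log (max ‖p.2.1 - p.2.2‖ (δ / 2)) with hl'
  have hmaxpos : ∀ p : (ℝ × ℝ) × (E n × E n), 0 < max ‖p.2.1 - p.2.2‖ (δ / 2) := fun p =>
    lt_of_lt_of_le (by positivity) (le_max_right _ _)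
  have hmaxc : Continuous fun p : (ℝ × ℝ) × (E n × E n) => max ‖p.2.1 - p.2.2‖ (δ / 2) := by
    fun_prop
  have hkk : Continuous (fun p : (ℝ × ℝ) × (E n × E n) => (p.2.1, (p.2.2, p.1))) := by fun_prop
  have hαc : Continuous fun p : (ℝ × ℝ) × (E n × E n) => α p.2.1 p.2.2 p.1 :=
    hα.continuous.comp hkk
  have hlc : Continuous fun p : (ℝ × ℝ) × (E n × E n) => l p.2.1 p.2.2 p.1 :=
    hl.continuous.comp hkk
  have hκc3 : ContinuousOn (fun p : (ℝ × ℝ) × (E n × E n) => κ p.2.1 p.2.2)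
      (box ×ˢ (M.carrier ×ˢ M.carrier)) :=
    hκc.comp continuousOn_snd fun p hp => hp.2
  have hηc : Continuous fun p : (ℝ × ℝ) × (E n × E n) => η (p.2.1 - p.2.2) :=
    hηs.continuous.comp (by fun_prop)
  have hcc : ContinuousOn c (box ×ˢ (M.carrier ×ˢ M.carrier)) := by
    refine ContinuousOn.mul (ContinuousOn.div ?_ ?_ ?_) hαc.continuousOn
    · refine Complex.continuous_ofReal.comp_continuousOn ?_
      exact hκc3.mul (continuous_const.sub hηc).continuousOn
    · exact ((Complex.continuous_ofReal.comp hmaxc).pow 2).continuousOn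
    · intro p _
      exact pow_ne_zero _ (Complex.ofReal_ne_zero.2 (hmaxpos p).ne')
  have hlc' : Continuous l' := hlc.add (hmaxc.log fun p => (hmaxpos p).ne')
  have hcint : ∀ z : ℂ, Integrable (fun p => c p * Complex.exp (z * l' p)) (m3 M) := by
    intro z
    refine int3 M (hcc.mul (Continuous.continuousOn ?_))
    exact Complex.continuous_exp.comp (continuous_const.mul
      (Complex.continuous_ofReal.comp hlc'))
  have hcm : AEStronglyMeasurable c (m3 M) := (int3 M hcc).aestronglyMeasurable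
  have hfar : Good m (fun z => ∫ p, c p * Complex.exp (z * l' p) ∂(m3 M)) := by
    refine good_entire ?_
    have h1 := hLAP _ (m3 M) c l' univ isOpen_univ hcm hlc'.aestronglyMeasurable (fun t _ => by
      refine (hcint t).congr (Eventually.of_forall fun p => ?_)
      simp)
    simpa [differentiableOn_univ] using h1
  refine good_congr ?_ (good_add hfar (good_sum Finset.univ fun i _ => hnear i))
  intro z hz
  have hpc : Continuous fun p : (ℝ × ℝ) × (E n × E n) => pw (p.2.1 - p.2.2) (z - 2) :=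
    (Tools.pw_cont (by simp; linarith)).comp (by fun_prop)
  have hec : Continuous fun p : (ℝ × ℝ) × (E n × E n) => Complex.exp (z * l p.2.1 p.2.2 p.1) :=
    Complex.continuous_exp.comp (continuous_const.mul (Complex.continuous_ofReal.comp hlc))
  have hT : ∀ i, Integrable (fun p : (ℝ × ℝ) × (E n × E n) =>
      ((κ p.2.1 p.2.2 * (χ i p.2.1 * η (p.2.1 - p.2.2)) : ℝ) : ℂ) * α p.2.1 p.2.2 p.1 *
      Complex.exp (z * l p.2.1 p.2.2 p.1) * pw (p.2.1 - p.2.2) (z - 2)) (m3 M) := by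
    intro i
    refine int3 M (((ContinuousOn.mul ?_ hαc.continuousOn).mul hec.continuousOn).mul
      hpc.continuousOn)
    refine Complex.continuous_ofReal.comp_continuousOn (hκc3.mul (Continuous.continuousOn ?_))
    exact ((hχs i).continuous.comp (by fun_prop)).mul hηc
  have hT0 : Integrable (fun p : (ℝ × ℝ) × (E n × E n) =>
      (κ p.2.1 p.2.2 : ℂ) * α p.2.1 p.2.2 p.1 *
      Complex.exp (z * l p.2.1 p.2.2 p.1) * pw (p.2.1 - p.2.2) (z - 2)) (m3 M) :=
    int3 M (((ContinuousOn.mul (Complex.continuous_ofReal.comp_continuousOn hκc3)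
      hαc.continuousOn).mul hec.continuousOn).mul hpc.continuousOn)
  have e1 := fun i => tri _ _ _ _ (hT i)
  have e2 := tri _ _ _ _ hT0
  simp only at e1 e2
  have e3 : ∑ i, ∫ s in box, ∫ x, ∫ y,
      ((κ x y * (χ i x * η (x - y)) : ℝ) : ℂ) * α x y s *
      Complex.exp (z * l x y s) * pw (x - y) (z - 2) ∂M.vol ∂M.vol =
      ∫ p, ∑ i, ((κ p.2.1 p.2.2 * (χ i p.2.1 * η (p.2.1 - p.2.2)) : ℝ) : ℂ) * α p.2.1 p.2.2 p.1 *
      Complex.exp (z * l p.2.1 p.2.2 p.1) * pw (p.2.1 - p.2.2) (z - 2) ∂(m3 M) := by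
    rw [integral_finsetSum _ (fun i _ => hT i)]
    exact Finset.sum_congr rfl fun i _ => e1 i
  rw [e2, e3, ← integral_add (hcint z) (integrable_finsetSum _ fun i _ => hT i)]
  have hae : ∀ᵐ p ∂(m3 M), p.2.1 ∈ M.carrier := by
    unfold m3
    exact Measure.quasiMeasurePreserving_snd.ae
      (Measure.quasiMeasurePreserving_fst.ae (Tools.ae_mem M))
  refine integral_congr_ae ?_
  filter_upwards [hae] with p hp
  have h1 : ∑ i, ((κ p.2.1 p.2.2 * (χ i p.2.1 * η (p.2.1 - p.2.2)) : ℝ) : ℂ) *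
      α p.2.1 p.2.2 p.1 * Complex.exp (z * l p.2.1 p.2.2 p.1) * pw (p.2.1 - p.2.2) (z - 2) =
      ((κ p.2.1 p.2.2 * η (p.2.1 - p.2.2) : ℝ) : ℂ) *
      α p.2.1 p.2.2 p.1 * Complex.exp (z * l p.2.1 p.2.2 p.1) * pw (p.2.1 - p.2.2) (z - 2) := by
    rw [← Finset.sum_mul, ← Finset.sum_mul, ← Finset.sum_mul, ← Complex.ofReal_sum,
      ← Finset.mul_sum, ← Finset.sum_mul, hsum _ (hMV hp), one_mul]
  have h2 : c p * Complex.exp (z * l' p) =
      ((κ p.2.1 p.2.2 * (1 - η (p.2.1 - p.2.2)) : ℝ) : ℂ) *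
      α p.2.1 p.2.2 p.1 * Complex.exp (z * l p.2.1 p.2.2 p.1) * pw (p.2.1 - p.2.2) (z - 2) := by
    by_cases h : ‖p.2.1 - p.2.2‖ ≤ δ / 2
    · have h3 : η (p.2.1 - p.2.2) = 1 := hη1 _ (by simpa using h)
      simp [hc, h3]
    · push Not at h
      exact far_pt z (by positivity) h _ _ _
  rw [h1, h2]
  push_cast
  ring

/-! ### the two kernels -/

section smooth
variable {X : Type} [NormedAddCommGroup X] [NormedSpace ℝ X]

theorem det_smooth {k : ℕ} {A : X → Matrix (Fin k) (Fin k) ℝ}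
    (h : ∀ i j, ContDiff ℝ ∞ (fun x => A x i j)) : ContDiff ℝ ∞ (fun x => (A x).det) := by
  simp only [Matrix.det_apply]
  refine ContDiff.sum fun σ _ => ?_
  refine ContDiff.const_smul _ ?_
  exact contDiff_prod fun i _ => h _ _

theorem adj_smooth {k : ℕ} {A : X → Matrix (Fin k) (Fin k) ℝ}
    (h : ∀ i j, ContDiff ℝ ∞ (fun x => A x i j)) (a b : Fin k) :
    ContDiff ℝ ∞ (fun x => (A x).adjugate a b) := by
  simp only [Matrix.adjugate_apply]
  refine det_smooth fun i j => ?_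
  by_cases hi : i = b
  · subst hi
    simp only [Matrix.updateRow_self]
    exact contDiff_const
  · simp only [Matrix.updateRow_ne hi]
    exact h i j

theorem gm_smooth {v w : X → Fin m → E n} (hv : ∀ j, ContDiff ℝ ∞ (fun x => v x j))
    (hw : ∀ j, ContDiff ℝ ∞ (fun x => w x j)) (i j : Fin m) :
    ContDiff ℝ ∞ (fun x => gm (v x) (w x) i j) :=
  (hv i).inner ℝ (hw j)

end smooth

theorem pd_smooth {φ : P m → E n} (hφ : ContDiff ℝ ∞ φ) (j : Fin m) :
    ContDiff ℝ ∞ (fun u => pd φ u j) := by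
  unfold pd
  exact (hφ.fderiv_right (m := ∞) (by simp)).clm_apply contDiff_const

theorem quad₁ (hFR : S_FR) (M : Sub m n) :
    Quad M (fun x y => mv (M.frame x) (M.frame y) * ‖x - y‖ ^ 2) := by
  intro u₀ ρ φ hφ
  have hs1 : ∀ j, ContDiff ℝ ∞ (fun p : P m × P m => pd φ p.1 j) := fun j =>
    (pd_smooth hφ.smooth j).comp contDiff_fst
  have hs2 : ∀ j, ContDiff ℝ ∞ (fun p : P m × P m => pd φ p.2 j) := fun j =>
    (pd_smooth hφ.smooth j).comp contDiff_snd
  refine ⟨fun a b u v => if a = b then mv (pd φ u) (pd φ v) else 0, fun a b => ?_,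
    fun u hu v hv => ?_⟩
  · by_cases hab : a = b
    · simp only [hab, if_true]
      exact det_smooth (gm_smooth hs1 hs2)
    · simp only [hab, if_false]
      exact contDiff_const
  · have h1 := JCON.mv_eq hFR M hφ.chart hv (M.frame (φ u))
    have h2 := JCON.mv_eq hFR M hφ.chart hu (pd φ v)
    have h3 := (hFR.2 m n (pd φ v) (pd φ u) 0).1
    have h4 := (hFR.2 m n (pd φ v) (M.frame (φ u)) 0).1
    have h5 : mv (pd φ u) (pd φ v) = mv (M.frame (φ u)) (M.frame (φ v)) *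
        (Real.sqrt (mv (pd φ u) (pd φ u)) * Real.sqrt (mv (pd φ v) (pd φ v))) := by
      rw [← h3, h2, h4, h1]; ring
    simp only
    have h6 : ∑ a : Fin n, ∑ b : Fin n, (φ u - φ v) a * (φ u - φ v) b *
        (if a = b then mv (pd φ u) (pd φ v) else 0) =
        ‖φ u - φ v‖ ^ 2 * mv (pd φ u) (pd φ v) := by
      rw [EuclideanSpace.norm_sq_eq, Finset.sum_mul]
      refine Finset.sum_congr rfl fun a _ => ?_
      rw [Finset.sum_eq_single a]
      · rw [if_pos rfl, Real.norm_eq_abs, sq_abs]; ring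
      · intro b _ hb
        rw [if_neg (Ne.symm hb), mul_zero]
      · intro h; exact absurd (Finset.mem_univ a) h
    rw [h6, h5]
    ring

theorem quad₂ (hFR : S_FR) (M : Sub m n) :
    Quad M (fun x y => cc (M.frame x) (M.frame y) (x - y)) := by
  intro u₀ ρ φ hφ
  have hs1 : ∀ j, ContDiff ℝ ∞ (fun p : P m × P m => pd φ p.1 j) := fun j =>
    (pd_smooth hφ.smooth j).comp contDiff_fst
  have hs2 : ∀ j, ContDiff ℝ ∞ (fun p : P m × P m => pd φ p.2 j) := fun j =>
    (pd_smooth hφ.smooth j).comp contDiff_snd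
  refine ⟨fun a b u v => ∑ i, ∑ j, (pd φ v j) a * (gm (pd φ u) (pd φ v)).adjugate j i *
    (pd φ u i) b, fun a b => ?_, fun u hu v hv => ?_⟩
  · refine ContDiff.sum fun i _ => ContDiff.sum fun j _ => ?_
    refine ContDiff.mul (ContDiff.mul ?_ (adj_smooth (gm_smooth hs1 hs2) j i)) ?_
    · exact (EuclideanSpace.proj a : E n →L[ℝ] ℝ).contDiff.comp (hs2 j)
    · exact (EuclideanSpace.proj b : E n →L[ℝ] ℝ).contDiff.comp (hs1 i)
  · have h1 := JCON.cc_eq hFR M hφ.chart hv (M.frame (φ u)) (φ u - φ v)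
    have h2 := JCON.cc_eq hFR M hφ.chart hu (pd φ v) (φ u - φ v)
    have h3 := (hFR.2 m n (pd φ v) (pd φ u) (φ u - φ v)).2
    have h4 := (hFR.2 m n (pd φ v) (M.frame (φ u)) (φ u - φ v)).2
    have h5 : cc (pd φ u) (pd φ v) (φ u - φ v) =
        cc (M.frame (φ u)) (M.frame (φ v)) (φ u - φ v) *
        (Real.sqrt (mv (pd φ u) (pd φ u)) * Real.sqrt (mv (pd φ v) (pd φ v))) := by
      rw [← h3, h2, h4, h1]; ring
    simp only
    rw [← h5]
    unfold cc
    set d := φ u - φ v with hd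
    have hin : ∀ x y : E n, inner ℝ x y = ∑ a, x a * y a := by
      intro x y
      rw [PiLp.inner_apply]
      refine Finset.sum_congr rfl fun a _ => ?_
      simp [mul_comm]
    calc ∑ i, ∑ j, inner ℝ d (pd φ v j) * (gm (pd φ u) (pd φ v)).adjugate j i *
          inner ℝ (pd φ u i) d
        = ∑ i, ∑ j, ∑ a, ∑ b, d a * d b * ((pd φ v j) a *
            (gm (pd φ u) (pd φ v)).adjugate j i * (pd φ u i) b) := by
          refine Finset.sum_congr rfl fun i _ => Finset.sum_congr rfl fun j _ => ?_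
          rw [hin, hin, Finset.sum_mul, Finset.sum_mul]
          refine Finset.sum_congr rfl fun a _ => ?_
          rw [Finset.mul_sum]
          refine Finset.sum_congr rfl fun b _ => ?_
          ring
      _ = ∑ a, ∑ b, ∑ i, ∑ j, d a * d b * ((pd φ v j) a *
            (gm (pd φ u) (pd φ v)).adjugate j i * (pd φ u i) b) := by
          have e1 : ∀ i : Fin m, ∑ j, ∑ a, ∑ b, d a * d b * ((pd φ v j) a *
              (gm (pd φ u) (pd φ v)).adjugate j i * (pd φ u i) b) =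
              ∑ a, ∑ b, ∑ j, d a * d b * ((pd φ v j) a *
              (gm (pd φ u) (pd φ v)).adjugate j i * (pd φ u i) b) := by
            intro i
            rw [Finset.sum_comm]
            exact Finset.sum_congr rfl fun a _ => Finset.sum_comm
          simp only [e1]
          rw [Finset.sum_comm]
          exact Finset.sum_congr rfl fun a _ => Finset.sum_comm
      _ = _ := by
          refine Finset.sum_congr rfl fun a _ => Finset.sum_congr rfl fun b _ => ?_
          rw [Finset.mul_sum]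
          refine Finset.sum_congr rfl fun i _ => ?_
          rw [Finset.mul_sum]

/-- **CONT** -/
theorem cont : S_LL → S_LAP → S_PU → S_INT → S_FR → S_FIN → S_CON → S_CONT := by
  intro hLL hLAP hPU hINT hFR hFIN hCON m n hm M α l hα hl
  obtain ⟨hc1, hc2, -, -⟩ := hCON m n M
  constructor
  · have h1 := kernel hLL hLAP hPU hINT hFIN hm M (quad₁ hFR M)
      (hc1.mul (Continuous.continuousOn (by fun_prop))) α l hα hl
    refine good_congr ?_ h1
    intro z hz
    unfold KI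
    refine integral_congr_ae (Eventually.of_forall fun s => ?_)
    refine integral_congr_ae (Eventually.of_forall fun x => ?_)
    refine integral_congr_ae (Eventually.of_forall fun y => ?_)
    simp only
    have hz0 : z ≠ 0 := by
      rintro rfl
      simp at hz; linarith
    have h2 : pw (x - y) z = ((‖x - y‖ ^ 2 : ℝ) : ℂ) * pw (x - y) (z - 2) := by
      by_cases hxy : x - y = 0
      · rw [hxy, Tools.pw_zero hz0]; simp
      · have hne : ((‖x - y‖ : ℝ) : ℂ) ≠ 0 := Complex.ofReal_ne_zero.2 (norm_ne_zero_iff.2 hxy)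
        unfold pw
        rw [Complex.cpow_sub _ _ hne, Complex.cpow_two]
        push_cast
        field_simp
    rw [h2]
    push_cast
    ring
  · have h1 := kernel hLL hLAP hPU hINT hFIN hm M (quad₂ hFR M) hc2 α l hα hl
    exact h1

end Pool.Agent.Q178.MW.JCONT
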