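import Pool.Agent.Q178.MW.J_WEA

set_option autoImplicit false

open MeasureTheory Set Filter Topology
open scoped ContDiff

namespace Pool.Agent.Q178.MW.JDIF

open Pool.Agent.Q178.MW Pool.Agent.Q178.MW.Tools

variable {m n : ℕ}

theorem box_compact : IsCompact box := isCompact_Icc.prod isCompact_Icc

theorem box_meas : MeasurableSet box := box_compact.isClosed.measurableSet

/-- the product measure -/
noncomputable def μ3 (M : Sub m n) : Measure ((ℝ × ℝ) × (E n × E n)) :=
  (volume.restrict box).prod (M.vol.prod M.vol)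

theorem int3 (M : Sub m n) [IsFiniteMeasure M.vol] {f : (ℝ × ℝ) × (E n × E n) → ℂ}
    (hf : ContinuousOn f (box ×ˢ (M.carrier ×ˢ M.carrier))) : Integrable f (μ3 M) := by
  have hb : IsFiniteMeasure ((volume : Measure (ℝ × ℝ)).restrict box) :=
    ⟨by rw [Measure.restrict_apply_univ]; exact box_compact.measure_lt_top⟩
  have hb3 : IsFiniteMeasure (μ3 M) := by unfold μ3; infer_instance
  have h := hf.integrableOn_compact (μ := μ3 M) (box_compact.prod (M.compact.prod M.compact))
  have e : (μ3 M).restrict (box ×ˢ (M.carrier ×ˢ M.carrier)) = μ3 M := by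
    unfold μ3
    rw [← Measure.prod_restrict, restrict_prod, Measure.restrict_restrict box_meas, inter_self]
  rwa [IntegrableOn, e] at h

theorem tri (M : Sub m n) [IsFiniteMeasure M.vol] {f : ℝ × ℝ → E n → E n → ℂ}
    (hf : ContinuousOn (fun q : (ℝ × ℝ) × (E n × E n) => f q.1 q.2.1 q.2.2)
      (box ×ˢ (M.carrier ×ˢ M.carrier))) :
    ∫ s in box, ∫ x, ∫ y, f s x y ∂M.vol ∂M.vol = ∫ q, f q.1 q.2.1 q.2.2 ∂(μ3 M) := by
  have hb : IsFiniteMeasure ((volume : Measure (ℝ × ℝ)).restrict box) :=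
    ⟨by rw [Measure.restrict_apply_univ]; exact box_compact.measure_lt_top⟩
  unfold μ3
  rw [integral_prod _ (int3 M hf)]
  refine setIntegral_congr_fun box_meas fun s hs => ?_
  simp only
  rw [integral_prod _ (integrable_prod_of_contOn M ?_)]
  exact hf.comp (continuousOn_const.prodMk continuousOn_id) fun p hp => ⟨hs, hp⟩

theorem tri' (M : Sub m n) [IsFiniteMeasure M.vol] {f : ℝ × ℝ → E n → E n → ℂ}
    (hf : ContinuousOn (fun q : (ℝ × ℝ) × (E n × E n) => f q.1 q.2.1 q.2.2)
      (box ×ˢ (M.carrier ×ˢ M.carrier))) :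
    ∫ x, ∫ y, (∫ s in box, f s x y) ∂M.vol ∂M.vol = ∫ q, f q.1 q.2.1 q.2.2 ∂(μ3 M) := by
  have hb : IsFiniteMeasure ((volume : Measure (ℝ × ℝ)).restrict box) :=
    ⟨by rw [Measure.restrict_apply_univ]; exact box_compact.measure_lt_top⟩
  have hi := int3 M hf
  unfold μ3 at hi ⊢
  rw [integral_prod_symm _ hi, integral_prod _ hi.integral_prod_right]

theorem one (c : ℂ) : c * ∫ t in Icc (0 : ℝ) 1, Complex.exp (c * t) = Complex.exp c - 1 := by
  rcases eq_or_ne c 0 with rfl | hc
  · simp
  · rw [integral_Icc_eq_integral_Ioc, ← intervalIntegral.integral_of_le zero_le_one,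
      integral_exp_mul_complex hc]
    field_simp
    simp

theorem two (a b : ℂ) : (Complex.exp a - 1) * (Complex.exp b - 1) =
    ∫ s in box, a * b * Complex.exp (a * s.1 + b * s.2) := by
  rw [← one a, ← one b]
  have h : ∫ s in box, a * b * Complex.exp (a * s.1 + b * s.2) =
      a * b * ∫ s in Icc (0 : ℝ) 1 ×ˢ Icc (0 : ℝ) 1, (Complex.exp (a * s.1) *
        Complex.exp (b * s.2)) ∂((volume : Measure ℝ).prod (volume : Measure ℝ)) := by
    rw [← integral_const_mul]
    refine integral_congr_ae (Eventually.of_forall fun s => ?_)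
    simp only [Complex.exp_add]
  rw [h, setIntegral_prod_mul (fun t : ℝ => Complex.exp (a * t)) (fun t : ℝ => Complex.exp (b * t))]
  ring

theorem three (b : ℂ) : Complex.exp b - 1 = ∫ s in box, b * Complex.exp (b * s.2) := by
  rw [← one b]
  have h : ∫ s in box, b * Complex.exp (b * s.2) =
      b * ∫ s in Icc (0 : ℝ) 1 ×ˢ Icc (0 : ℝ) 1, ((fun _ : ℝ => (1 : ℂ)) s.1 *
        Complex.exp (b * s.2)) ∂((volume : Measure ℝ).prod (volume : Measure ℝ)) := by
    rw [← integral_const_mul]
    refine integral_congr_ae (Eventually.of_forall fun s => ?_)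
    simp only [one_mul]
  rw [h, setIntegral_prod_mul (fun _ : ℝ => (1 : ℂ)) (fun t : ℝ => Complex.exp (b * t))]
  simp

theorem dif : S_WEA → S_EPR → S_FIN → S_CON → S_DIF := by
  intro hwea hepr hfin hcon m n M M' T om Ω hT hMΩ hI L hL hLe z hz
  have := hfin m n M
  have hz0 : z ≠ 0 := by rintro rfl; norm_num at hz
  set s : ℂ := z + 2 * m with hs
  have hs0 : s ≠ 0 := by
    intro h
    have h1 : s.re = z.re + 2 * m := by simp [hs]
    rw [h] at h1
    simp at h1
    have h2 : (0 : ℝ) ≤ m := Nat.cast_nonneg m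
    linarith
  let e : E n → ℂ := fun x => Complex.exp (s * L x)
  have he : Continuous e := by
    exact Complex.continuous_exp.comp (continuous_const.mul
      (Complex.continuous_ofReal.comp hL.continuous))
  have hKK := JWEA.KK_cont hcon M hz
  have hmp := JWEA.mp_cont hcon M hz
  have e1 : Continuous fun p : E n × E n => e p.1 := he.comp continuous_fst
  have e2 : Continuous fun p : E n × E n => e p.2 := he.comp continuous_snd
  -- the four identities
  have a1 : ∫ x, ∫ y, KK z (M'.frame x) (M'.frame y) (x - y) ∂M'.vol ∂M'.vol =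
      (s / z) * energy M' z := by
    have h := (hwea m n M' (fun _ => 1) z hz continuousOn_const).1
    simp only [mul_one] at h
    exact h
  have a2 := hepr m n M M' T om Ω hT hMΩ hI L hLe z hz
  have a3 : ∫ x, ∫ y, KK z (M.frame x) (M.frame y) (x - y) ∂M.vol ∂M.vol =
      (s / z) * energy M z := by
    have h := (hwea m n M (fun _ => 1) z hz continuousOn_const).1
    simp only [mul_one] at h
    exact h
  obtain ⟨a4, a5⟩ := hwea m n M e z hz he.continuousOn
  -- everything on the product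
  have toP : ∀ f : E n → E n → ℂ, ContinuousOn (fun p : E n × E n => f p.1 p.2)
      (M.carrier ×ˢ M.carrier) →
      ∫ x, ∫ y, f x y ∂M.vol ∂M.vol = ∫ p, f p.1 p.2 ∂(M.vol.prod M.vol) := fun f hf =>
    (integral_prod _ (integrable_prod_of_contOn M hf)).symm
  have c1 : ContinuousOn (fun p : E n × E n => KK z (M.frame p.1) (M.frame p.2) (p.1 - p.2) *
      (e p.1 * e p.2)) (M.carrier ×ˢ M.carrier) := hKK.mul (e1.mul e2).continuousOn
  have c2 : ContinuousOn (fun p : E n × E n => KK z (M.frame p.1) (M.frame p.2) (p.1 - p.2) *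
      e p.2) (M.carrier ×ˢ M.carrier) := hKK.mul e2.continuousOn
  have c3 : ContinuousOn (fun p : E n × E n => KK z (M.frame p.1) (M.frame p.2) (p.1 - p.2) *
      e p.1) (M.carrier ×ˢ M.carrier) := hKK.mul e1.continuousOn
  have c4 : ContinuousOn (fun p : E n × E n => KK z (M.frame p.1) (M.frame p.2) (p.1 - p.2) *
      ((e p.1 - 1) * (e p.2 - 1))) (M.carrier ×ˢ M.carrier) :=
    hKK.mul ((e1.sub continuous_const).mul (e2.sub continuous_const)).continuousOn
  have c5 : ContinuousOn (fun p : E n × E n => (mv (M.frame p.1) (M.frame p.2) : ℂ) *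
      pw (p.1 - p.2) z * e p.2) (M.carrier ×ˢ M.carrier) := hmp.mul e2.continuousOn
  have c6 : ContinuousOn (fun p : E n × E n => (mv (M.frame p.1) (M.frame p.2) : ℂ) *
      pw (p.1 - p.2) z * (e p.2 - 1)) (M.carrier ×ˢ M.carrier) :=
    hmp.mul (e2.sub continuous_const).continuousOn
  have b1 : ∫ x, ∫ y, KK z (M.frame x) (M.frame y) (x - y) * (e x * e y) ∂M.vol ∂M.vol =
      ∫ x, ∫ y, KK z (M.frame x) (M.frame y) (x - y) * ((e x - 1) * (e y - 1)) ∂M.vol ∂M.vol +
      ∫ x, ∫ y, KK z (M.frame x) (M.frame y) (x - y) * e x ∂M.vol ∂M.vol +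
      ∫ x, ∫ y, KK z (M.frame x) (M.frame y) (x - y) * e y ∂M.vol ∂M.vol -
      ∫ x, ∫ y, KK z (M.frame x) (M.frame y) (x - y) ∂M.vol ∂M.vol := by
    rw [toP (fun x y => KK z (M.frame x) (M.frame y) (x - y) * (e x * e y)) c1,
      toP (fun x y => KK z (M.frame x) (M.frame y) (x - y) * e y) c2,
      toP (fun x y => KK z (M.frame x) (M.frame y) (x - y) * e x) c3,
      toP (fun x y => KK z (M.frame x) (M.frame y) (x - y) * ((e x - 1) * (e y - 1))) c4,
      toP (fun x y => KK z (M.frame x) (M.frame y) (x - y)) hKK,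
      ← integral_add (integrable_prod_of_contOn M c4) (integrable_prod_of_contOn M c3)]
    have i43 : Integrable (fun p : E n × E n => KK z (M.frame p.1) (M.frame p.2) (p.1 - p.2) *
        ((e p.1 - 1) * (e p.2 - 1)) + KK z (M.frame p.1) (M.frame p.2) (p.1 - p.2) * e p.1)
        (M.vol.prod M.vol) :=
      (integrable_prod_of_contOn M c4).add (integrable_prod_of_contOn M c3)
    rw [← integral_add i43 (integrable_prod_of_contOn M c2)]
    have i432 : Integrable (fun p : E n × E n => KK z (M.frame p.1) (M.frame p.2) (p.1 - p.2) *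
        ((e p.1 - 1) * (e p.2 - 1)) + KK z (M.frame p.1) (M.frame p.2) (p.1 - p.2) * e p.1 +
        KK z (M.frame p.1) (M.frame p.2) (p.1 - p.2) * e p.2)
        (M.vol.prod M.vol) := i43.add (integrable_prod_of_contOn M c2)
    rw [← integral_sub i432 (integrable_prod_of_contOn M hKK)]
    refine integral_congr_ae (Eventually.of_forall fun p => ?_)
    simp only
    ring
  have b2 : ∫ x, ∫ y, (mv (M.frame x) (M.frame y) : ℂ) * pw (x - y) z * e y ∂M.vol ∂M.vol =
      ∫ x, ∫ y, (mv (M.frame x) (M.frame y) : ℂ) * pw (x - y) z * (e y - 1) ∂M.vol ∂M.vol +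
      energy M z := by
    have h : energy M z = ∫ x, ∫ y, (mv (M.frame x) (M.frame y) : ℂ) * pw (x - y) z ∂M.vol ∂M.vol :=
      rfl
    rw [h, toP (fun x y => (mv (M.frame x) (M.frame y) : ℂ) * pw (x - y) z * e y) c5,
      toP (fun x y => (mv (M.frame x) (M.frame y) : ℂ) * pw (x - y) z * (e y - 1)) c6,
      toP (fun x y => (mv (M.frame x) (M.frame y) : ℂ) * pw (x - y) z) hmp, ← integral_add (integrable_prod_of_contOn M c6)
      (integrable_prod_of_contOn M hmp)]
    refine integral_congr_ae (Eventually.of_forall fun p => ?_)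
    simp only
    ring
  -- the parameter integrals
  have hexp : ∀ (x y : E n) (σ : ℝ × ℝ), ((L x * L y * Real.exp (2 * m * ll L x y σ) : ℝ) : ℂ) *
      Complex.exp (z * ll L x y σ) = L x * L y * Complex.exp (s * L x * σ.1 + s * L y * σ.2) := by
    intro x y σ
    have : Complex.exp (s * L x * σ.1 + s * L y * σ.2) =
        Complex.exp (2 * m * ll L x y σ) * Complex.exp (z * ll L x y σ) := by
      rw [← Complex.exp_add]; congr 1; simp only [ll, hs]; push_cast; ring
    rw [this]; push_cast; ring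
  have hexp' : ∀ (y : E n) (σ : ℝ × ℝ), ((L y * Real.exp (2 * m * (σ.2 * L y)) : ℝ) : ℂ) *
      Complex.exp (z * (σ.2 * L y : ℝ)) = L y * Complex.exp (s * L y * σ.2) := by
    intro y σ
    have : Complex.exp (s * L y * σ.2) =
        Complex.exp (2 * m * (σ.2 * L y : ℝ)) * Complex.exp (z * (σ.2 * L y : ℝ)) := by
      rw [← Complex.exp_add]; congr 1; simp only [hs]; push_cast; ring
    rw [this]; push_cast; ring
  have hLc1 : Continuous fun q : (ℝ × ℝ) × (E n × E n) => (L q.2.1 : ℂ) :=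
    Complex.continuous_ofReal.comp (hL.continuous.comp (continuous_fst.comp continuous_snd))
  have hLc2 : Continuous fun q : (ℝ × ℝ) × (E n × E n) => (L q.2.2 : ℂ) :=
    Complex.continuous_ofReal.comp (hL.continuous.comp (continuous_snd.comp continuous_snd))
  have hσ1 : Continuous fun q : (ℝ × ℝ) × (E n × E n) => (q.1.1 : ℂ) :=
    Complex.continuous_ofReal.comp (continuous_fst.comp continuous_fst)
  have hσ2 : Continuous fun q : (ℝ × ℝ) × (E n × E n) => (q.1.2 : ℂ) :=
    Complex.continuous_ofReal.comp (continuous_snd.comp continuous_fst)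
  have hE : Continuous fun q : (ℝ × ℝ) × (E n × E n) =>
      (L q.2.1 : ℂ) * L q.2.2 * Complex.exp (s * L q.2.1 * q.1.1 + s * L q.2.2 * q.1.2) := by
    fun_prop
  have hE' : Continuous fun q : (ℝ × ℝ) × (E n × E n) =>
      (L q.2.2 : ℂ) * Complex.exp (s * L q.2.2 * q.1.2) := by
    fun_prop
  have lift : ∀ {g : E n × E n → ℂ}, ContinuousOn g (M.carrier ×ˢ M.carrier) →
      ContinuousOn (fun q : (ℝ × ℝ) × (E n × E n) => g q.2) (box ×ˢ (M.carrier ×ˢ M.carrier)) :=
    fun hg => hg.comp continuousOn_snd fun q hq => hq.2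
  have hA : ContinuousOn (fun q : (ℝ × ℝ) × (E n × E n) =>
      ((mv (M.frame q.2.1) (M.frame q.2.2) : ℂ) * pw (q.2.1 - q.2.2) z) *
      ((L q.2.1 : ℂ) * L q.2.2 * Complex.exp (s * L q.2.1 * q.1.1 + s * L q.2.2 * q.1.2)))
      (box ×ˢ (M.carrier ×ˢ M.carrier)) := (lift hmp).mul hE.continuousOn
  have hB : ContinuousOn (fun q : (ℝ × ℝ) × (E n × E n) =>
      ((cc (M.frame q.2.1) (M.frame q.2.2) (q.2.1 - q.2.2) : ℂ) * pw (q.2.1 - q.2.2) (z - 2)) *
      ((L q.2.1 : ℂ) * L q.2.2 * Complex.exp (s * L q.2.1 * q.1.1 + s * L q.2.2 * q.1.2)))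
      (box ×ˢ (M.carrier ×ˢ M.carrier)) :=
    (lift (g := fun p => (cc (M.frame p.1) (M.frame p.2) (p.1 - p.2) : ℂ) * pw (p.1 - p.2) (z - 2))
      ((JWEA.cc_cont hcon M).mul (JWEA.pw_cont₂ (by simp; linarith)).continuousOn)).mul
      hE.continuousOn
  have hC : ContinuousOn (fun q : (ℝ × ℝ) × (E n × E n) =>
      ((mv (M.frame q.2.1) (M.frame q.2.2) : ℂ) * pw (q.2.1 - q.2.2) z) *
      ((L q.2.2 : ℂ) * Complex.exp (s * L q.2.2 * q.1.2)))
      (box ×ˢ (M.carrier ×ˢ M.carrier)) := (lift hmp).mul hE'.continuousOn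
  have k1 : KI M (fun x y s => (L x * L y * Real.exp (2 * m * ll L x y s) : ℝ)) (ll L) z =
      ∫ q, ((mv (M.frame q.2.1) (M.frame q.2.2) : ℂ) * pw (q.2.1 - q.2.2) z) *
      ((L q.2.1 : ℂ) * L q.2.2 * Complex.exp (s * L q.2.1 * q.1.1 + s * L q.2.2 * q.1.2))
      ∂(μ3 M) := by
    rw [← tri M (f := fun σ x y => ((mv (M.frame x) (M.frame y) : ℂ) * pw (x - y) z) *
      ((L x : ℂ) * L y * Complex.exp (s * L x * σ.1 + s * L y * σ.2))) hA]
    unfold KI
    refine setIntegral_congr_fun box_meas fun σ _ => integral_congr₂ M fun x _ y _ => ?_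
    simp only
    rw [← hexp]; ring
  have k2 : KJ M (fun x y s => (L x * L y * Real.exp (2 * m * ll L x y s) : ℝ)) (ll L) z =
      ∫ q, ((cc (M.frame q.2.1) (M.frame q.2.2) (q.2.1 - q.2.2) : ℂ) *
        pw (q.2.1 - q.2.2) (z - 2)) *
      ((L q.2.1 : ℂ) * L q.2.2 * Complex.exp (s * L q.2.1 * q.1.1 + s * L q.2.2 * q.1.2))
      ∂(μ3 M) := by
    rw [← tri M (f := fun σ x y => ((cc (M.frame x) (M.frame y) (x - y) : ℂ) *
      pw (x - y) (z - 2)) * ((L x : ℂ) * L y * Complex.exp (s * L x * σ.1 + s * L y * σ.2))) hB]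
    unfold KJ
    refine setIntegral_congr_fun box_meas fun σ _ => integral_congr₂ M fun x _ y _ => ?_
    simp only
    rw [← hexp]; ring
  have k3 : KI M (fun _ y s => (L y * Real.exp (2 * m * (s.2 * L y)) : ℝ))
      (fun _ y s => s.2 * L y) z =
      ∫ q, ((mv (M.frame q.2.1) (M.frame q.2.2) : ℂ) * pw (q.2.1 - q.2.2) z) *
      ((L q.2.2 : ℂ) * Complex.exp (s * L q.2.2 * q.1.2)) ∂(μ3 M) := by
    rw [← tri M (f := fun σ x y => ((mv (M.frame x) (M.frame y) : ℂ) * pw (x - y) z) *
      ((L y : ℂ) * Complex.exp (s * L y * σ.2))) hC]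
    unfold KI
    refine setIntegral_congr_fun box_meas fun σ _ => integral_congr₂ M fun x _ y _ => ?_
    simp only
    rw [← hexp']; ring
  have d1 : ∫ x, ∫ y, KK z (M.frame x) (M.frame y) (x - y) * ((e x - 1) * (e y - 1))
      ∂M.vol ∂M.vol = s ^ 2 * (KI M (fun x y s => (L x * L y * Real.exp (2 * m * ll L x y s) : ℝ))
        (ll L) z - 2 * KJ M (fun x y s => (L x * L y * Real.exp (2 * m * ll L x y s) : ℝ))
        (ll L) z) := by
    have hD : ContinuousOn (fun q : (ℝ × ℝ) × (E n × E n) =>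
        KK z (M.frame q.2.1) (M.frame q.2.2) (q.2.1 - q.2.2) *
        ((L q.2.1 : ℂ) * L q.2.2 * Complex.exp (s * L q.2.1 * q.1.1 + s * L q.2.2 * q.1.2)))
        (box ×ˢ (M.carrier ×ˢ M.carrier)) := (lift hKK).mul hE.continuousOn
    have h1 : ∫ x, ∫ y, KK z (M.frame x) (M.frame y) (x - y) * ((e x - 1) * (e y - 1))
        ∂M.vol ∂M.vol = s ^ 2 * ∫ x, ∫ y, (∫ σ in box, KK z (M.frame x) (M.frame y) (x - y) *
        ((L x : ℂ) * L y * Complex.exp (s * L x * σ.1 + s * L y * σ.2))) ∂M.vol ∂M.vol := by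
      rw [← integral_const_mul]
      refine integral_congr M fun x _ => ?_
      rw [← integral_const_mul]
      refine integral_congr M fun y _ => ?_
      simp only [e]
      rw [two (s * L x) (s * L y), ← integral_const_mul, ← integral_const_mul]
      refine integral_congr_ae (Eventually.of_forall fun σ => ?_)
      simp only
      ring
    rw [h1, tri' M (f := fun σ x y => KK z (M.frame x) (M.frame y) (x - y) *
        ((L x : ℂ) * L y * Complex.exp (s * L x * σ.1 + s * L y * σ.2))) hD, k1, k2,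
      ← integral_const_mul 2, ← integral_sub (int3 M hA) ((int3 M hB).const_mul 2)]
    congr 1
    refine integral_congr_ae (Eventually.of_forall fun q => ?_)
    simp only [KK]
    ring
  have d2 : ∫ x, ∫ y, (mv (M.frame x) (M.frame y) : ℂ) * pw (x - y) z * (e y - 1)
      ∂M.vol ∂M.vol = s * KI M (fun _ y s => (L y * Real.exp (2 * m * (s.2 * L y)) : ℝ))
      (fun _ y s => s.2 * L y) z := by
    have h1 : ∫ x, ∫ y, (mv (M.frame x) (M.frame y) : ℂ) * pw (x - y) z * (e y - 1)
        ∂M.vol ∂M.vol = s * ∫ x, ∫ y, (∫ σ in box, ((mv (M.frame x) (M.frame y) : ℂ) *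
        pw (x - y) z) * ((L y : ℂ) * Complex.exp (s * L y * σ.2))) ∂M.vol ∂M.vol := by
      rw [← integral_const_mul]
      refine integral_congr M fun x _ => ?_
      rw [← integral_const_mul]
      refine integral_congr M fun y _ => ?_
      simp only [e]
      rw [three (s * L y), ← integral_const_mul, ← integral_const_mul]
      refine integral_congr_ae (Eventually.of_forall fun σ => ?_)
      simp only
      ring
    rw [h1, tri' M (f := fun σ x y => ((mv (M.frame x) (M.frame y) : ℂ) * pw (x - y) z) *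
      ((L y : ℂ) * Complex.exp (s * L y * σ.2))) hC, k3]
  -- conclusion
  unfold QQ
  rw [a1] at a2
  change (s / z) * energy M' z = ∫ x, ∫ y, KK z (M.frame x) (M.frame y) (x - y) * (e x * e y)
    ∂M.vol ∂M.vol at a2
  rw [b1, a5, a4, a3, d1, b2, d2] at a2
  have h3 : energy M' z = (z / s) * ((s / z) * energy M' z) := by field_simp
  rw [h3, a2]
  field_simp
  ring

end Pool.Agent.Q178.MW.JDIF
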