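import Pool.Agent.Q178.MW.Tools

set_option autoImplicit false

open MeasureTheory Set Filter Topology
open scoped ContDiff

namespace Pool.Agent.Q178.MW.JEA

open Pool.Agent.Q178.MW Pool.Agent.Q178.MW.Tools

theorem ea : S_STK → S_POW → S_FIN → S_CON → S_EA := by
  intro hstk hpow hfin hcon m n M w y z hz
  have := hfin m n M
  obtain ⟨hH, hd⟩ := hpow n y z (by linarith)
  have h := hstk m n M w y (fun x => pw (x - y) z) hH
  have h1 : Integrable (fun x => (cc w (M.frame x) (x - y) : ℂ) * pw (x - y) (z - 2)) M.vol := by
    refine integrable_of_contOn M (ContinuousOn.mul ?_ ?_)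
    · exact Complex.continuous_ofReal.comp_continuousOn ((hcon m n M).2.2.2 w y)
    · exact ((pw_cont (by simp; linarith)).comp (continuous_id.sub continuous_const)).continuousOn
  have h2 : Integrable (fun x => (mv w (M.frame x) : ℂ) * pw (x - y) z) M.vol := by
    refine integrable_of_contOn M (ContinuousOn.mul ?_ ?_)
    · exact Complex.continuous_ofReal.comp_continuousOn ((hcon m n M).2.2.1 w)
    · exact ((pw_cont (by linarith)).comp (continuous_id.sub continuous_const)).continuousOn
  rw [← integral_const_mul, ← integral_const_mul, ← integral_add (h1.const_mul _) (h2.const_mul _),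
    ← h]
  refine integral_congr_ae (Eventually.of_forall fun x => ?_)
  simp only [hd, cc]
  push_cast
  rw [Finset.sum_mul, Finset.mul_sum]
  congr 1
  · refine Finset.sum_congr rfl fun i _ => ?_
    rw [Finset.sum_mul, Finset.mul_sum]
    refine Finset.sum_congr rfl fun j _ => ?_
    ring
  · ring

end Pool.Agent.Q178.MW.JEA
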