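import Pool.Agent.Q178.MW.Stm

set_option autoImplicit false

open MeasureTheory Set Filter Topology
open scoped ContDiff

namespace Pool.Agent.Q178.MW.JEND

open Pool.Agent.Q178.MW

/-- the half plane -/
def Dm (m : ℕ) : Set ℂ := {z : ℂ | -(2 * m + 1 : ℝ) < z.re}

lemma isOpen_Dm (m : ℕ) : IsOpen (Dm m) := isOpen_lt continuous_const Complex.continuous_re

lemma convex_Dm (m : ℕ) : Convex ℝ (Dm m) := convex_halfSpace_re_gt _

lemma mem_Dm (m : ℕ) : (-2 * m : ℂ) ∈ Dm m := by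
  change -(2 * m + 1 : ℝ) < (-2 * m : ℂ).re
  simp

/-- the product -/
noncomputable def Pi1 (m : ℕ) (z : ℂ) : ℂ := ∏ j ∈ Finset.range (m + 1), (z + m + j)

/-- the product without the last factor -/
noncomputable def Pi0 (m : ℕ) (z : ℂ) : ℂ := ∏ j ∈ Finset.range m, (z + m + j)

lemma Pi1_eq (m : ℕ) (z : ℂ) : Pi1 m z = (z + 2 * m) * Pi0 m z := by
  unfold Pi1 Pi0
  rw [Finset.prod_range_succ, mul_comm]
  congr 1
  ring

lemma diff_Pi1 (m : ℕ) : Differentiable ℂ (Pi1 m) := by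
  unfold Pi1
  fun_prop

lemma diff_Pi0 (m : ℕ) : Differentiable ℂ (Pi0 m) := by
  unfold Pi0
  fun_prop

lemma Pi0_ne (m : ℕ) : Pi0 m (-2 * m) ≠ 0 := by
  unfold Pi0
  rw [Finset.prod_ne_zero_iff]
  intro j hj h
  rw [Finset.mem_range] at hj
  have h1 : (j : ℂ) = m := by
    linear_combination h
  have h2 : j = m := by exact_mod_cast h1
  omega

/-- the identity theorem -/
lemma continuation (m : ℕ) (B J : ℂ → ℂ) (hB : MeromorphicOn B univ)
    (hJ : DifferentiableOn ℂ J (Dm m)) (h : ∀ z : ℂ, 2 < z.re → J z = Pi1 m z * B z) :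
    ∀ᶠ z in 𝓝[≠] (-2 * m : ℂ), J z = Pi1 m z * B z := by
  set f : ℂ → ℂ := fun z => Pi1 m z * B z - J z with hf
  have hfm : MeromorphicOn f (Dm m) := by
    intro z hz
    have h1 : MeromorphicAt (Pi1 m) z := ((diff_Pi1 m).analyticAt z).meromorphicAt
    have h2 : MeromorphicAt J z := (hJ.analyticAt ((isOpen_Dm m).mem_nhds hz)).meromorphicAt
    exact (h1.mul (hB z (mem_univ z))).sub h2
  have h3 : (3 : ℂ) ∈ Dm m := by
    change -(2 * m + 1 : ℝ) < (3 : ℂ).re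
    have : (0 : ℝ) ≤ m := Nat.cast_nonneg m
    have h4 : (3 : ℂ).re = 3 := rfl
    rw [h4]
    linarith
  have h4 : meromorphicOrderAt f 3 = ⊤ := by
    rw [meromorphicOrderAt_eq_top_iff]
    apply Filter.Eventually.filter_mono nhdsWithin_le_nhds
    have h5 : {z : ℂ | 2 < z.re} ∈ 𝓝 (3 : ℂ) := by
      apply (isOpen_lt continuous_const Complex.continuous_re).mem_nhds
      change (2 : ℝ) < (3 : ℂ).re
      have h4 : (3 : ℂ).re = 3 := rfl
      rw [h4]
      norm_num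
    filter_upwards [h5] with z hz
    rw [hf]
    simp only
    rw [h z hz, sub_self]
  have h5 : meromorphicOrderAt f (-2 * m) = ⊤ := by
    by_contra h6
    exact hfm.meromorphicOrderAt_ne_top_of_isPreconnected (convex_Dm m).isPreconnected (mem_Dm m)
      h3 h6 h4
  rw [meromorphicOrderAt_eq_top_iff] at h5
  filter_upwards [h5] with z hz
  exact (sub_eq_zero.1 hz).symm

lemma tendsto_J {m : ℕ} {J : ℂ → ℂ} (hJ : DifferentiableOn ℂ J (Dm m)) :
    Tendsto (fun z => J z / Pi0 m z) (𝓝[≠] (-2 * m : ℂ)) (𝓝 (J (-2 * m) / Pi0 m (-2 * m))) := by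
  apply Tendsto.mono_left _ nhdsWithin_le_nhds
  exact (((hJ _ (mem_Dm m)).differentiableAt
    ((isOpen_Dm m).mem_nhds (mem_Dm m))).continuousAt.tendsto).div
      (((diff_Pi0 m) _).continuousAt.tendsto) (Pi0_ne m)

lemma tendsto_slope_J {m : ℕ} {J : ℂ → ℂ} (hJ : DifferentiableOn ℂ J (Dm m))
    (h0 : J (-2 * m) = 0) :
    Tendsto (fun z => J z / ((z + 2 * m) * Pi0 m z)) (𝓝[≠] (-2 * m : ℂ))
      (𝓝 (deriv J (-2 * m) / Pi0 m (-2 * m))) := by
  have h1 := ((hJ _ (mem_Dm m)).differentiableAt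
    ((isOpen_Dm m).mem_nhds (mem_Dm m))).hasDerivAt.tendsto_slope
  have h2 : Tendsto (Pi0 m) (𝓝[≠] (-2 * m : ℂ)) (𝓝 (Pi0 m (-2 * m))) :=
    (((diff_Pi0 m) _).continuousAt.tendsto).mono_left nhdsWithin_le_nhds
  refine (h1.div h2 (Pi0_ne m)).congr' ?_
  filter_upwards with z
  change slope J (-2 * m) z / Pi0 m z = _
  rw [slope_def_field, h0, sub_zero, div_div]
  congr 2
  ring

lemma box_vol (c : ℂ) : ∫ _ in box, c = c := by
  rw [setIntegral_const]
  have h1 : (volume : Measure (ℝ × ℝ)).real box = 1 := by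
    unfold Measure.real box
    rw [Measure.volume_eq_prod, Measure.prod_prod, Real.volume_Icc]
    simp
  rw [h1, one_smul]

lemma energy_eq {m n : ℕ} (M : Sub m n) (z : ℂ) :
    energy M z = KI M (fun _ _ _ => 1) (fun _ _ _ => 0) z := by
  unfold KI
  simp only [mul_one, Complex.ofReal_zero, mul_zero, Complex.exp_zero]
  rw [box_vol]
  rfl

theorem end_ : S_END := by
  intro hMOB hLSM hDIF hCONT m n hm M M' T hT hI B B' hB hB'
  obtain ⟨om, Ω, hΩ, hC⟩ := hMOB n T M.carrier hT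
  obtain ⟨L, hL, hL2⟩ := hLSM n M.carrier Ω om M.compact hC.isOpen hΩ hC.wsmooth hC.pos
  have hdif := hDIF m n M M' T om Ω hC hΩ hI L hL hL2
  -- the pieces
  have hc1 : ContDiff ℝ ∞ (fun _ : E n × E n × (ℝ × ℝ) => (1 : ℂ)) := contDiff_const
  have hc0 : ContDiff ℝ ∞ (fun _ : E n × E n × (ℝ × ℝ) => (0 : ℝ)) := contDiff_const
  have hcl : ContDiff ℝ ∞ (fun p : E n × E n × (ℝ × ℝ) => ll L p.1 p.2.1 p.2.2) := by
    unfold ll
    fun_prop
  have hca : ContDiff ℝ ∞ (fun p : E n × E n × (ℝ × ℝ) =>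
      ((L p.1 * L p.2.1 * Real.exp (2 * m * ll L p.1 p.2.1 p.2.2) : ℝ) : ℂ)) := by
    have h1 : ContDiff ℝ ∞ (fun p : E n × E n × (ℝ × ℝ) =>
        L p.1 * L p.2.1 * Real.exp (2 * m * ll L p.1 p.2.1 p.2.2)) := by
      fun_prop
    exact Complex.ofRealCLM.contDiff.comp h1
  have hcb : ContDiff ℝ ∞ (fun p : E n × E n × (ℝ × ℝ) =>
      ((L p.2.1 * Real.exp (2 * m * (p.2.2.2 * L p.2.1)) : ℝ) : ℂ)) := by
    have h1 : ContDiff ℝ ∞ (fun p : E n × E n × (ℝ × ℝ) =>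
        L p.2.1 * Real.exp (2 * m * (p.2.2.2 * L p.2.1))) := by
      fun_prop
    exact Complex.ofRealCLM.contDiff.comp h1
  have hcl2 : ContDiff ℝ ∞ (fun p : E n × E n × (ℝ × ℝ) => p.2.2.2 * L p.2.1) := by
    fun_prop
  obtain ⟨JA, hJA1, hJA2, hJA3⟩ := (hCONT m n hm M (fun _ _ _ => 1) (fun _ _ _ => 0) hc1 hc0).1
  obtain ⟨⟨J1, h11, h12, h13⟩, J2, h21, h22, h23⟩ := hCONT m n hm M
    (fun x y s => (L x * L y * Real.exp (2 * m * ll L x y s) : ℝ)) (ll L) hca hcl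
  obtain ⟨J3, h31, h32, h33⟩ := (hCONT m n hm M
    (fun _ y s => (L y * Real.exp (2 * m * (s.2 * L y)) : ℝ)) (fun _ y s => s.2 * L y)
    hcb hcl2).1
  set JQ : ℂ → ℂ := fun z => z * (J1 z - 2 * J2 z) + 2 * J3 z with hJQ
  have hJQ1 : DifferentiableOn ℂ JQ (Dm m) :=
    (differentiableOn_id.mul (h11.sub (h21.const_mul 2))).add (h31.const_mul 2)
  have hJQ2 : ∀ z : ℂ, 2 < z.re → JQ z = Pi1 m z * QQ M L z := by
    intro z hz
    rw [hJQ]
    simp only
    rw [h12 z hz, h22 z hz, h32 z hz]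
    unfold QQ Pi1
    ring
  have hA : ∀ z : ℂ, 2 < z.re → JA z = Pi1 m z * B z := by
    intro z hz
    rw [hJA2 z hz, ← energy_eq, hB.2 z (by
      have : (0 : ℝ) ≤ m := Nat.cast_nonneg m
      linarith)]
    rfl
  have hA' : ∀ z : ℂ, 2 < z.re → JA z + (z + 2 * m) * JQ z = Pi1 m z * B' z := by
    intro z hz
    rw [hJQ2 z hz, hA z hz, hB'.2 z (by
      have : (0 : ℝ) ≤ m := Nat.cast_nonneg m
      linarith), hdif z hz, hB.2 z (by
      have : (0 : ℝ) ≤ m := Nat.cast_nonneg m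
      linarith)]
    ring
  have hJA' : DifferentiableOn ℂ (fun z => JA z + (z + 2 * m) * JQ z) (Dm m) :=
    hJA1.add ((differentiableOn_id.add_const _).mul hJQ1)
  have hc := continuation m B JA hB.1 hJA1 hA
  have hc' := continuation m B' _ hB'.1 hJA' hA'
  have hpi : ∀ᶠ z in 𝓝[≠] (-2 * m : ℂ), Pi0 m z ≠ 0 :=
    (((diff_Pi0 m) _).continuousAt.eventually_ne (Pi0_ne m)).filter_mono nhdsWithin_le_nhds
  have hz0 : ∀ᶠ z : ℂ in 𝓝[≠] (-2 * m : ℂ), z + 2 * m ≠ 0 := by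
    filter_upwards [self_mem_nhdsWithin] with z hz h
    apply hz
    rw [mem_singleton_iff]
    linear_combination h
  constructor
  · intro hodd
    have hA0 := hJA3 hodd
    have hQ0 : JQ (-2 * m) = 0 := by
      rw [hJQ]
      simp only
      rw [h13 hodd, h23 hodd, h33 hodd]
      ring
    refine ⟨deriv JA (-2 * m) / Pi0 m (-2 * m), ?_, ?_⟩
    · refine (tendsto_slope_J hJA1 hA0).congr' ?_
      filter_upwards [hc, hpi, hz0] with z h1 h2 h3
      rw [h1, Pi1_eq]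
      field_simp
    · have h4 := (tendsto_slope_J hJA1 hA0).add (tendsto_J hJQ1)
      rw [hQ0, zero_div, add_zero] at h4
      refine h4.congr' ?_
      filter_upwards [hc', hpi, hz0] with z h1 h2 h3
      rw [Pi1_eq] at h1
      have h5 : B' z = (JA z + (z + 2 * m) * JQ z) / ((z + 2 * m) * Pi0 m z) := by
        rw [h1]
        field_simp
      rw [h5]
      field_simp
  · intro _
    refine ⟨JA (-2 * m) / Pi0 m (-2 * m), ?_, ?_⟩
    · refine (tendsto_J hJA1).congr' ?_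
      filter_upwards [hc, hpi, hz0] with z h1 h2 h3
      rw [h1, Pi1_eq]
      field_simp
    · have h4 := tendsto_J hJA'
      have h6 : (-2 * (m : ℂ) + 2 * m) = 0 := by ring
      rw [h6, zero_mul, add_zero] at h4
      refine h4.congr' ?_
      filter_upwards [hc', hpi, hz0] with z h1 h2 h3
      rw [h1, Pi1_eq]
      field_simp

end Pool.Agent.Q178.MW.JEND
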