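import Pool.Agent.Q178.MW.Stm

set_option autoImplicit false

open MeasureTheory Set Filter Topology
open scoped ContDiff

namespace Pool.Agent.Q178.MW.JEPR

open Pool.Agent.Q178.MW

variable {m n : ℕ}

theorem pw_zero {n : ℕ} {z : ℂ} (hz : 0 < z.re) : pw (0 : E n) z = 0 := by
  unfold pw
  rw [norm_zero, Complex.ofReal_zero, Complex.zero_cpow]
  intro h
  rw [h] at hz
  simp at hz

theorem pw_sub_two {n : ℕ} {d : E n} (hd : d ≠ 0) (z : ℂ) :
    pw d (z - 2) = pw d z / ((‖d‖ ^ 2 : ℝ) : ℂ) := by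
  have h0 : ((‖d‖ : ℝ) : ℂ) ≠ 0 := by
    simpa using hd
  unfold pw
  rw [Complex.cpow_sub _ _ h0]
  norm_num

theorem KK_eq {z : ℂ} (v w : Fin m → E n) {d : E n} (hd : d ≠ 0) :
    KK z v w d = pw d z * ((mv v w - 2 * cc v w d / ‖d‖ ^ 2 : ℝ) : ℂ) := by
  have h0 : ((‖d‖ : ℝ) : ℂ) ≠ 0 := by
    simpa using hd
  unfold KK
  rw [pw_sub_two hd]
  push_cast
  field_simp

theorem pw_exp {n : ℕ} {d : E n} (hd : d ≠ 0) (z : ℂ) :
    pw d z = Complex.exp (z * (Real.log ‖d‖ : ℝ)) := by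
  have h0 : ((‖d‖ : ℝ) : ℂ) ≠ 0 := by
    simpa using hd
  unfold pw
  rw [Complex.cpow_def_of_ne_zero h0, Complex.ofReal_log (norm_nonneg d), mul_comm]

theorem epr : S_VT → S_PC → S_EPR := by
  intro hVT hPC m n M M' T om Ω hC hMΩ hI L hL z hz
  have hvt := hVT m n M M' T om Ω hC hMΩ hI
  rw [hvt]
  have hae : ∀ᵐ x ∂M.vol, x ∈ M.carrier := by
    rw [ae_iff]
    exact M.vol_compl
  refine integral_congr_ae ?_
  filter_upwards [hae] with x hx
  rw [hvt, ← integral_const_mul]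
  refine integral_congr_ae ?_
  filter_upwards [hae] with y hy
  by_cases hxy : x = y
  · subst hxy
    have h1 : pw (0 : E n) z = 0 := pw_zero (by linarith)
    have h2 : pw (0 : E n) (z - 2) = 0 := pw_zero (by simp; linarith)
    simp [KK, h1, h2]
  have hd : x - y ≠ 0 := sub_ne_zero.2 hxy
  have hox := hC.pos x (hMΩ hx)
  have hoy := hC.pos y (hMΩ hy)
  have hdist := hC.dist x (hMΩ hx) y (hMΩ hy)
  have hdn : 0 < ‖x - y‖ := norm_pos_iff.2 hd
  have hd'n : 0 < ‖T x - T y‖ := by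
    have h2 : 0 < ‖T x - T y‖ ^ 2 := by rw [hdist]; positivity
    rcases (norm_nonneg (T x - T y)).eq_or_lt with h | h
    · rw [← h] at h2
      norm_num at h2
    · exact h
  have hd' : T x - T y ≠ 0 := norm_pos_iff.1 hd'n
  rw [KK_eq _ _ hd, KK_eq _ _ hd', hPC m n M M' T om Ω hC hMΩ hI x hx y hy hxy,
    pw_exp hd, pw_exp hd']
  have hlog : Real.log ‖T x - T y‖ = L x + L y + Real.log ‖x - y‖ := by
    have h := congrArg Real.log hdist
    rw [Real.log_pow, Real.log_mul (by positivity) (by positivity),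
      Real.log_mul hox.ne' hoy.ne', Real.log_pow] at h
    rw [hL x hx, hL y hy]
    push_cast at h
    linarith
  have hom : ∀ u ∈ M.carrier, 0 < om u → ((om u ^ m : ℝ) : ℂ) = Complex.exp (2 * m * L u) := by
    intro u hu hou
    rw [hL u hu]
    have : om u ^ m = Real.exp (2 * m * (Real.log (om u) / 2)) := by
      rw [show 2 * (m : ℝ) * (Real.log (om u) / 2) = m * Real.log (om u) by ring,
        ← Real.log_pow, Real.exp_log (pow_pos hou m)]
    rw [this]
    push_cast
    rfl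
  rw [hom x hx hox, hom y hy hoy, hlog]
  have e1 : Complex.exp (z * ((L x + L y + Real.log ‖x - y‖ : ℝ) : ℂ)) =
      Complex.exp (z * L x) * Complex.exp (z * L y) *
        Complex.exp (z * ((Real.log ‖x - y‖ : ℝ) : ℂ)) := by
    rw [← Complex.exp_add, ← Complex.exp_add]
    congr 1
    push_cast
    ring
  have e2 : ∀ u : E n, Complex.exp ((z + 2 * m) * L u) =
      Complex.exp (z * L u) * Complex.exp (2 * m * L u) := by
    intro u
    rw [← Complex.exp_add]
    congr 1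
    ring
  rw [e1, e2, e2]
  ring

end Pool.Agent.Q178.MW.JEPR
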