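import Pool.Agent.Q178.MW.J_INT

set_option autoImplicit false

open MeasureTheory Set Filter Topology
open scoped ContDiff ENNReal

namespace Pool.Agent.Q178.MW.JFIN

open Pool.Agent.Q178.MW

variable {m n : ℕ}

theorem param_mono {M : Set (E n)} {U U' : Set (P m)} {φ : P m → E n} (h : IsParam M U φ)
    (hU' : IsOpen U') (hs : U' ⊆ U) : IsParam M U' φ where
  isOpen := hU'
  smooth := h.smooth.mono hs
  inj := h.inj.mono hs
  immersion := fun u hu => h.immersion u (hs hu)
  image := fun W hW hWo => h.image W (hW.trans hs) hWo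

theorem chart_mono {M : Set (E n)} {b : E n → Fin m → E n} {U U' : Set (P m)} {φ : P m → E n}
    (h : IsChart M b U φ) (hU' : IsOpen U') (hs : U' ⊆ U) : IsChart M b U' φ where
  toIsParam := param_mono h.toIsParam hU' hs
  tangent := fun u hu => h.tangent u (hs hu)
  oriented := fun u hu => h.oriented u (hs hu)

theorem fin : S_FIN := by
  intro m n M
  have hM : M.vol M.carrier < ⊤ := by
    refine M.compact.measure_lt_top_of_nhdsWithin fun x hx => ?_
    obtain ⟨U, φ, hφ, u₀, hu₀, rfl⟩ := M.chart x hx
    obtain ⟨r, hr, hrU⟩ := Metric.nhds_basis_closedBall.mem_iff.1 (hφ.isOpen.mem_nhds hu₀)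
    have hφ' := chart_mono hφ Metric.isOpen_ball (Metric.ball_subset_closedBall.trans hrU)
    obtain ⟨V, hV, hVe⟩ := hφ'.image _ Subset.rfl Metric.isOpen_ball
    refine ⟨φ '' Metric.ball u₀ r, ?_, ?_⟩
    · rw [hVe]
      refine inter_mem self_mem_nhdsWithin (mem_nhdsWithin_of_mem_nhds (hV.mem_nhds ?_))
      have : φ u₀ ∈ M.carrier ∩ V := by
        rw [← hVe]; exact mem_image_of_mem φ (Metric.mem_ball_self hr)
      exact this.2
    · have h1 : M.vol (φ '' Metric.ball u₀ r) = (M.vol.restrict (φ '' Metric.ball u₀ r)) univ := by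
        rw [Measure.restrict_apply_univ]
      rw [h1, M.vol_chart _ φ hφ']
      have hae : AEMeasurable φ ((volume.restrict (Metric.ball u₀ r)).withDensity
          fun u => ENNReal.ofReal (Real.sqrt (mv (pd φ u) (pd φ u)))) :=
        (hφ'.smooth.continuousOn.aemeasurable Metric.isOpen_ball.measurableSet).mono_ac
          (withDensity_absolutelyContinuous _ _)
      rw [Measure.map_apply_of_aemeasurable hae MeasurableSet.univ, preimage_univ,
        withDensity_apply _ MeasurableSet.univ, Measure.restrict_univ]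
      have hc : ContinuousOn (fun u => Real.sqrt (mv (pd φ u) (pd φ u))) (Metric.closedBall u₀ r) :=
        Real.continuous_sqrt.comp_continuousOn
          ((JINT.mv_cont (JINT.pd_cont hφ.isOpen hφ.smooth) (JINT.pd_cont hφ.isOpen hφ.smooth)).mono
            hrU)
      obtain ⟨C, hC⟩ := (isCompact_closedBall u₀ r).exists_bound_of_continuousOn hc
      calc ∫⁻ u in Metric.ball u₀ r, ENNReal.ofReal (Real.sqrt (mv (pd φ u) (pd φ u)))
          ≤ ∫⁻ u in Metric.ball u₀ r, ENNReal.ofReal C := by
            refine setLIntegral_mono' Metric.isOpen_ball.measurableSet fun u hu => ?_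
            exact ENNReal.ofReal_le_ofReal ((le_abs_self _).trans
              (hC u (Metric.ball_subset_closedBall hu)))
        _ = ENNReal.ofReal C * volume (Metric.ball u₀ r) := by
            rw [setLIntegral_const]
        _ < ⊤ := ENNReal.mul_lt_top ENNReal.ofReal_lt_top measure_ball_lt_top
  refine ⟨?_⟩
  calc M.vol univ ≤ M.vol M.carrier + M.vol M.carrierᶜ := by
        rw [← union_compl_self M.carrier]; exact measure_union_le _ _
    _ < ⊤ := by rw [M.vol_compl, add_zero]; exact hM

end Pool.Agent.Q178.MW.JFIN
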