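import Pool.Agent.Q178.MW.Stm

set_option autoImplicit false

open MeasureTheory Set Filter Topology

namespace Pool.Agent.Q178.MW.JLAP

/-- elementary bound -/
theorem bd {t0 e a l : ℝ} (he : 0 < e) (h1 : t0 - e ≤ a) (h2 : a ≤ t0 + e) :
    |l| * Real.exp (a * l) ≤
      e⁻¹ * (Real.exp ((t0 + 2 * e) * l) + Real.exp ((t0 - 2 * e) * l)) := by
  have key : ∀ x : ℝ, 0 ≤ x → x ≤ e⁻¹ * Real.exp (e * x) := by
    intro x hx
    have h := Real.add_one_le_exp (e * x)
    rw [inv_mul_eq_div, le_div_iff₀ he]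
    linarith
  rcases le_total 0 l with hl | hl
  · rw [abs_of_nonneg hl]
    have h3 : Real.exp (a * l) ≤ Real.exp ((t0 + e) * l) :=
      Real.exp_le_exp.2 (mul_le_mul_of_nonneg_right h2 hl)
    have h4 := key l hl
    calc l * Real.exp (a * l) ≤ (e⁻¹ * Real.exp (e * l)) * Real.exp ((t0 + e) * l) :=
          mul_le_mul h4 h3 (Real.exp_pos _).le (by positivity)
      _ = e⁻¹ * Real.exp ((t0 + 2 * e) * l) := by
          rw [mul_assoc, ← Real.exp_add]; ring_nf
      _ ≤ _ := by
          apply mul_le_mul_of_nonneg_left _ (by positivity)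
          linarith [Real.exp_pos ((t0 - 2 * e) * l)]
  · rw [abs_of_nonpos hl]
    have h3 : Real.exp (a * l) ≤ Real.exp ((t0 - e) * l) :=
      Real.exp_le_exp.2 (mul_le_mul_of_nonpos_right h1 hl)
    have h4 := key (-l) (by linarith)
    calc -l * Real.exp (a * l) ≤ (e⁻¹ * Real.exp (e * (-l))) * Real.exp ((t0 - e) * l) :=
          mul_le_mul h4 h3 (Real.exp_pos _).le (by positivity)
      _ = e⁻¹ * Real.exp ((t0 - 2 * e) * l) := by
          rw [mul_assoc, ← Real.exp_add]; ring_nf
      _ ≤ _ := by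
          apply mul_le_mul_of_nonneg_left _ (by positivity)
          linarith [Real.exp_pos ((t0 + 2 * e) * l)]

theorem nexp (z : ℂ) (l : ℝ) : ‖Complex.exp (z * l)‖ = Real.exp (z.re * l) := by
  rw [Complex.norm_exp]; simp

theorem nexp' (t l : ℝ) : ‖Complex.exp ((t * l : ℝ) : ℂ)‖ = Real.exp (t * l) := by
  rw [Complex.norm_exp]; simp

theorem lap : S_LAP := by
  intro X _ ν c l O hO hc hl hint z0 hz0
  obtain ⟨e', he', hball⟩ := Metric.isOpen_iff.1 hO z0.re hz0
  set e := e' / 4 with hedef
  have he : 0 < e := by positivity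
  have hp : z0.re + 2 * e ∈ O := hball (by
    rw [Metric.mem_ball, Real.dist_eq, show z0.re + 2 * e - z0.re = 2 * e by ring,
      abs_of_pos (by positivity)]; linarith)
  have hm : z0.re - 2 * e ∈ O := hball (by
    rw [Metric.mem_ball, Real.dist_eq, show z0.re - 2 * e - z0.re = -(2 * e) by ring,
      abs_neg, abs_of_pos (by positivity)]; linarith)
  have hexpm : ∀ z : ℂ, AEStronglyMeasurable (fun x => Complex.exp (z * l x)) ν := by
    intro z
    have h1 : AEStronglyMeasurable (fun x => z * (l x : ℂ)) ν :=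
      (Complex.continuous_ofReal.comp_aestronglyMeasurable hl).const_mul z
    exact Complex.continuous_exp.comp_aestronglyMeasurable h1
  have key := hasDerivAt_integral_of_dominated_loc_of_deriv_le (μ := ν) (𝕜 := ℂ)
    (F := fun z x => c x * Complex.exp (z * l x))
    (F' := fun z x => c x * (Complex.exp (z * l x) * l x))
    (x₀ := z0) (s := Metric.ball z0 e)
    (bound := fun x => e⁻¹ * (‖c x * Complex.exp (((z0.re + 2 * e) * l x : ℝ) : ℂ)‖ +
      ‖c x * Complex.exp (((z0.re - 2 * e) * l x : ℝ) : ℂ)‖))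
    (Metric.ball_mem_nhds z0 he)
    (Eventually.of_forall fun z => hc.mul (hexpm z))
    ?_ ?_ ?_ ?_ ?_
  · exact key.2.differentiableAt.differentiableWithinAt
  · have h1 := hint z0.re hz0
    refine h1.mono (hc.mul (hexpm z0)) (Eventually.of_forall fun x => ?_)
    rw [norm_mul, norm_mul, nexp, nexp']
  · exact hc.mul ((hexpm z0).mul (Complex.continuous_ofReal.comp_aestronglyMeasurable hl))
  · refine Eventually.of_forall fun x z hz => ?_
    rw [Metric.mem_ball, dist_eq_norm] at hz
    have hre : |z.re - z0.re| < e := by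
      have := Complex.abs_re_le_norm (z - z0)
      rw [Complex.sub_re] at this
      linarith
    rw [abs_lt] at hre
    simp only [norm_mul, nexp, nexp', Complex.norm_real, Real.norm_eq_abs]
    have := bd (t0 := z0.re) (a := z.re) (l := l x) he (by linarith) (by linarith)
    calc ‖c x‖ * (Real.exp (z.re * l x) * |l x|) = ‖c x‖ * (|l x| * Real.exp (z.re * l x)) := by ring
      _ ≤ ‖c x‖ * (e⁻¹ * (Real.exp ((z0.re + 2 * e) * l x) + Real.exp ((z0.re - 2 * e) * l x))) :=
          mul_le_mul_of_nonneg_left this (norm_nonneg _)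
      _ = _ := by ring
  · exact (((hint _ hp).norm.add (hint _ hm).norm).const_mul e⁻¹)
  · refine Eventually.of_forall fun x z _ => ?_
    have h1 : HasDerivAt (fun z : ℂ => z * (l x : ℂ)) (l x : ℂ) z := by
      simpa using (hasDerivAt_id z).mul_const (l x : ℂ)
    exact (h1.cexp).const_mul (c x)

end Pool.Agent.Q178.MW.JLAP
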