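import Pool.Agent.Q178.MW.Stm

set_option autoImplicit false

open Set Filter Topology
open scoped ContDiff

namespace Pool.Agent.Q178.MW.JLSM

open Pool.Agent.Q178.MW

theorem lsm : S_LSM := by
  intro n K Ω om hK hΩ hKΩ hom hpos
  obtain ⟨K', hK', hKK', hK'Ω⟩ := exists_compact_between hK hΩ hKΩ
  -- a smooth bump
  obtain ⟨β, hβ, hβr, hβ0, hβ1⟩ : ∃ β : E n → ℝ, ContDiff ℝ ∞ β ∧ True ∧ (∀ x ∉ K', β x = 0) ∧ ∀ x ∈ K, β x = 1 := by
    obtain ⟨f, hf0, hf1, hf2⟩ := exists_contMDiff_zero_iff_one_iff_of_isClosed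
      (modelWithCornersSelf ℝ (E n)) (n := ⊤) (s := (interior K')ᶜ) (t := K)
      isOpen_interior.isClosed_compl hK.isClosed (by
        rw [Set.disjoint_left]; intro x hx hx'; exact hx (hKK' hx'))
    refine ⟨f, hf0.contDiff, trivial, fun x hx => ?_, fun x hx => ?_⟩
    · exact (hf2.1 x).1 (fun h => hx (interior_subset h))
    · exact (hf2.2 x).1 hx
  refine ⟨fun x => β x * (Real.log (om x) / 2), ?_, fun x hx => by show β x * (Real.log (om x) / 2) = _; rw [hβ1 x hx, one_mul]⟩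
  rw [contDiff_iff_contDiffAt]
  intro x
  by_cases hx : x ∈ Ω
  · refine hβ.contDiffAt.mul (ContDiffAt.div_const ?_ 2)
    exact ((hom.contDiffAt (hΩ.mem_nhds hx)).log (hpos x hx).ne')
  · have h0 : (fun x => β x * (Real.log (om x) / 2)) =ᶠ[𝓝 x] fun _ => 0 := by
      have : (K')ᶜ ∈ 𝓝 x := hK'.isClosed.isOpen_compl.mem_nhds fun h => hx (hK'Ω h)
      filter_upwards [this] with y hy
      rw [hβ0 y hy, zero_mul]
    exact contDiffAt_const.congr_of_eventuallyEq h0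

end Pool.Agent.Q178.MW.JLSM
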