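import Pool.Agent.Q178.MW.Stm

set_option autoImplicit false

open MeasureTheory Set Filter Topology
open scoped ContDiff

namespace Pool.Agent.Q178.MW.JMEL

section alg
variable {V : Type} [NormedAddCommGroup V] [NormedSpace ℝ V]
variable {W : Type} [NormedAddCommGroup W] [NormedSpace ℝ W]

/-- the derivative in the first variable -/
noncomputable def D (h : ℝ × V → W) (p : ℝ × V) : W := fderiv ℝ h p (1, 0)

theorem D_smooth {h : ℝ × V → W} (hh : ContDiff ℝ ∞ h) : ContDiff ℝ ∞ (D h) := by
  unfold D
  exact (hh.fderiv_right (m := ∞) (by simp)).clm_apply contDiff_const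

theorem D_cpt {h : ℝ × V → W} (hh : HasCompactSupport h) : HasCompactSupport (D h) :=
  hh.fderiv_apply (𝕜 := ℝ) _

theorem D_zero : D (fun _ : ℝ × V => (0 : W)) = fun _ => 0 := by
  funext p
  simp [D]

theorem D_deriv {h : ℝ × V → W} (hh : ContDiff ℝ ∞ h) (t : ℝ) (k : V) :
    HasDerivAt (fun t => h (t, k)) (D h (t, k)) t := by
  have h1 : HasFDerivAt h (fderiv ℝ h (t, k)) (t, k) :=
    (hh.differentiable (by simp)).differentiableAt.hasFDerivAt
  have h2 : HasDerivAt (fun t : ℝ => (t, k)) ((1 : ℝ), (0 : V)) t :=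
    (hasDerivAt_id t).prodMk (hasDerivAt_const t k)
  exact h1.comp_hasDerivAt t h2

/-- the coefficients -/
noncomputable def cf (F : ℝ × V → ℂ) (G : ℝ × V → ℝ) : ℕ → ℕ → ℝ × V → ℂ
  | 0, 0 => F
  | 0, (_ + 1) => fun _ => 0
  | (N + 1), 0 => D (cf F G N 0)
  | (N + 1), (i + 1) => fun p => D (cf F G N (i + 1)) p + ((D G p : ℝ) : ℂ) * cf F G N i p

variable {F : ℝ × V → ℂ} {G : ℝ × V → ℝ}

theorem cf_smooth (hF : ContDiff ℝ ∞ F) (hG : ContDiff ℝ ∞ G) (N i : ℕ) :
    ContDiff ℝ ∞ (cf F G N i) := by
  induction N generalizing i with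
  | zero => cases i with
    | zero => exact hF
    | succ i => exact contDiff_const
  | succ N ih => cases i with
    | zero => exact D_smooth (ih 0)
    | succ i =>
      refine (D_smooth (ih (i + 1))).add (ContDiff.mul ?_ (ih i))
      exact Complex.ofRealCLM.contDiff.comp (D_smooth hG)

theorem cf_cpt (hF : HasCompactSupport F) (N i : ℕ) :
    HasCompactSupport (cf F G N i) := by
  induction N generalizing i with
  | zero => cases i with
    | zero => exact hF
    | succ i => exact HasCompactSupport.zero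
  | succ N ih => cases i with
    | zero => exact D_cpt (ih 0)
    | succ i => exact (D_cpt (ih (i + 1))).add (HasCompactSupport.mul_left (ih i))

theorem cf_top (N i : ℕ) (h : N < i) : cf F G N i = fun _ => 0 := by
  induction N generalizing i with
  | zero => cases i with
    | zero => omega
    | succ i => rfl
  | succ N ih => cases i with
    | zero => omega
    | succ i =>
      funext p
      show D (cf F G N (i + 1)) p + ((D G p : ℝ) : ℂ) * cf F G N i p = 0
      rw [ih (i + 1) (by omega), ih i (by omega), D_zero]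
      simp

/-- the derivatives of `f e^{z g}` -/
noncomputable def GN (F : ℝ × V → ℂ) (G : ℝ × V → ℝ) (N : ℕ) (z : ℂ) (p : ℝ × V) : ℂ :=
  (∑ i ∈ Finset.range (N + 1), z ^ i * cf F G N i p) * Complex.exp (z * G p)

theorem GN_zero (z : ℂ) (p : ℝ × V) : GN F G 0 z p = F p * Complex.exp (z * G p) := by
  simp [GN, cf]

theorem GN_succ (z : ℂ) (N : ℕ) (p : ℝ × V) :
    GN F G (N + 1) z p =
      (∑ i ∈ Finset.range (N + 1), z ^ i * D (cf F G N i) p) * Complex.exp (z * G p) +
      (∑ i ∈ Finset.range (N + 1), z ^ i * cf F G N i p) *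
        (Complex.exp (z * G p) * (z * ((D G p : ℝ) : ℂ))) := by
  unfold GN
  rw [Finset.sum_range_succ']
  have h1 : ∑ i ∈ Finset.range (N + 1), z ^ (i + 1) * cf F G (N + 1) (i + 1) p =
      ∑ i ∈ Finset.range (N + 1), z ^ (i + 1) * D (cf F G N (i + 1)) p +
      (∑ i ∈ Finset.range (N + 1), z ^ i * cf F G N i p) * (z * ((D G p : ℝ) : ℂ)) := by
    rw [Finset.sum_mul, ← Finset.sum_add_distrib]
    refine Finset.sum_congr rfl fun i _ => ?_
    show z ^ (i + 1) * (D (cf F G N (i + 1)) p + ((D G p : ℝ) : ℂ) * cf F G N i p) = _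
    ring
  have h2 : ∑ i ∈ Finset.range (N + 1), z ^ (i + 1) * D (cf F G N (i + 1)) p +
      z ^ 0 * cf F G (N + 1) 0 p = ∑ i ∈ Finset.range (N + 1), z ^ i * D (cf F G N i) p := by
    have h3 : cf F G (N + 1) 0 p = D (cf F G N 0) p := rfl
    rw [h3, ← Finset.sum_range_succ' (fun i => z ^ i * D (cf F G N i) p) (N + 1),
      Finset.sum_range_succ, cf_top N (N + 1) (by omega), D_zero]
    simp
  rw [h1]
  linear_combination (Complex.exp (z * G p)) * h2

theorem GN_deriv (hF : ContDiff ℝ ∞ F) (hG : ContDiff ℝ ∞ G) (N : ℕ) (z : ℂ) (t : ℝ) (k : V) :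
    HasDerivAt (fun t => GN F G N z (t, k)) (GN F G (N + 1) z (t, k)) t := by
  rw [GN_succ]
  unfold GN
  refine HasDerivAt.mul ?_ ?_
  · have h := HasDerivAt.fun_sum (u := Finset.range (N + 1))
      (A := fun i t => z ^ i * cf F G N i (t, k))
      (A' := fun i => z ^ i * D (cf F G N i) (t, k)) (x := t)
      (fun i _ => (D_deriv (cf_smooth hF hG N i) t k).const_mul (z ^ i))
    exact h
  · have h1 : HasDerivAt (fun t => ((G (t, k) : ℝ) : ℂ)) ((D G (t, k) : ℝ) : ℂ) t :=
      (D_deriv hG t k).ofReal_comp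
    exact (h1.const_mul z).cexp

theorem GN_cont (hF : ContDiff ℝ ∞ F) (hG : ContDiff ℝ ∞ G) (N : ℕ) (z : ℂ) :
    Continuous (GN F G N z) := by
  unfold GN
  refine Continuous.mul ?_ ?_
  · exact continuous_finsetSum _ fun i _ => continuous_const.mul (cf_smooth hF hG N i).continuous
  · exact Complex.continuous_exp.comp
      (continuous_const.mul (Complex.continuous_ofReal.comp hG.continuous))

theorem GN_cpt (hF : HasCompactSupport F) (N : ℕ) (z : ℂ) :
    HasCompactSupport (GN F G N z) := by
  unfold GN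
  refine HasCompactSupport.mul_right ?_
  have : ∀ n : ℕ, HasCompactSupport (fun p => ∑ i ∈ Finset.range n, z ^ i * cf F G N i p) := by
    intro n
    induction n with
    | zero => exact (HasCompactSupport.zero : HasCompactSupport (0 : ℝ × V → ℂ))
    | succ n ih =>
      simp only [Finset.sum_range_succ]
      exact ih.add (HasCompactSupport.mul_left (cf_cpt hF N n))
  exact this (N + 1)

theorem GN_iter (hF : ContDiff ℝ ∞ F) (hG : ContDiff ℝ ∞ G) (N : ℕ) (z : ℂ) (k : V) :
    iteratedDeriv N (fun t => F (t, k) * Complex.exp (z * G (t, k))) =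
      fun t => GN F G N z (t, k) := by
  induction N with
  | zero => funext t; simp [GN_zero]
  | succ N ih =>
    rw [iteratedDeriv_succ, ih]
    funext t
    exact (GN_deriv hF hG N z t k).deriv

end alg

/-! ### one variable -/

/-- compactly supported continuous functions times a power are integrable on the half line -/
theorem pow_int {h : ℝ → ℂ} (hc : Continuous h) (hs : HasCompactSupport h) {a : ℂ}
    (ha : -1 < a.re) : IntegrableOn (fun t : ℝ => (t : ℂ) ^ a * h t) (Ioi 0) := by
  obtain ⟨R, hR0, hR⟩ : ∃ R : ℝ, 0 < R ∧ ∀ t, R < t → h t = 0 := by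
    obtain ⟨R, hR⟩ := hs.isCompact.isBounded.subset_closedBall 0
    refine ⟨max R 1, by positivity, fun t ht => ?_⟩
    apply image_eq_zero_of_notMem_tsupport
    intro hm
    have := hR hm
    rw [Metric.mem_closedBall, Real.dist_eq, sub_zero] at this
    have h1 := le_abs_self t
    have h2 := le_max_left R 1
    linarith
  have h1 : IntegrableOn (fun t : ℝ => (t : ℂ) ^ a * h t) (Ioc 0 R) := by
    have := (intervalIntegral.intervalIntegrable_cpow' (a := 0) (b := R) ha).mul_continuousOn
      (hc.continuousOn (s := uIcc 0 R))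
    rwa [intervalIntegrable_iff_integrableOn_Ioc_of_le hR0.le] at this
  have h2 : IntegrableOn (fun t : ℝ => (t : ℂ) ^ a * h t) (Ioi R) := by
    have h0 : IntegrableOn (fun _ : ℝ => (0 : ℂ)) (Ioi R) := integrableOn_zero
    refine h0.congr_fun ?_ measurableSet_Ioi
    intro t ht
    simp [hR t ht]
  have := h1.union h2
  rwa [Ioc_union_Ioi_eq_Ioi hR0.le] at this

/-- integration by parts -/
theorem parts {h h' : ℝ → ℂ} (hd : ∀ t, HasDerivAt h (h' t) t) (hc' : Continuous h')
    (hs : HasCompactSupport h) (hs' : HasCompactSupport h') {a : ℂ} (ha : -1 < a.re) :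
    (a + 1) * ∫ t in Ioi (0 : ℝ), (t : ℂ) ^ a * h t =
      - ∫ t in Ioi (0 : ℝ), (t : ℂ) ^ (a + 1) * h' t := by
  have hc : Continuous h := continuous_iff_continuousAt.2 fun t => (hd t).continuousAt
  have i1 := pow_int hc hs ha
  have i2 := pow_int hc' hs' (a := a + 1) (by simp; linarith)
  have hne : a + 1 ≠ 0 := by
    intro h0
    have := congrArg Complex.re h0
    simp at this; linarith
  have key := integral_Ioi_of_hasDerivAt_of_tendsto (a := 0) (m := (0 : ℂ))
    (f := fun t : ℝ => (t : ℂ) ^ (a + 1) * h t)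
    (f' := fun t : ℝ => (a + 1) * ((t : ℂ) ^ a * h t) + (t : ℂ) ^ (a + 1) * h' t) ?_ ?_ ?_ ?_
  · rw [integral_add (i1.const_mul _) i2, integral_const_mul] at key
    simp only [Complex.ofReal_zero, Complex.zero_cpow hne, zero_mul, sub_zero] at key
    linear_combination key
  · have h0 : ContinuousAt (fun t : ℝ => (t : ℂ) ^ (a + 1)) 0 :=
      Complex.continuousAt_ofReal_cpow_const 0 (a + 1) (Or.inl (by simp; linarith))
    exact (h0.mul hc.continuousAt).continuousWithinAt
  · intro t ht
    have h0 := hasDerivAt_ofReal_cpow_const (ne_of_gt ht) hne (x := t) (r := a + 1)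
    have h1 : HasDerivAt (fun t : ℝ => (t : ℂ) ^ (a + 1)) ((a + 1) * (t : ℂ) ^ a) t := by
      simpa using h0
    have := h1.mul (hd t)
    refine this.congr_deriv ?_
    ring
  · exact (i1.const_mul _).add i2
  · refine tendsto_const_nhds.congr' ?_
    obtain ⟨R, hR⟩ := hs.isCompact.isBounded.subset_closedBall 0
    filter_upwards [eventually_gt_atTop R] with t ht
    have : h t = 0 := by
      apply image_eq_zero_of_notMem_tsupport
      intro hm
      have := hR hm
      rw [Metric.mem_closedBall, Real.dist_eq, sub_zero] at this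
      have h1 := le_abs_self t
      linarith
    rw [this, mul_zero]

/-! ### the theorem -/

theorem slice_cpt {V : Type} [NormedAddCommGroup V] [NormedSpace ℝ V]
    {H : ℝ × V → ℂ} (hH : HasCompactSupport H) (k : V) :
    HasCompactSupport (fun t : ℝ => H (t, k)) := by
  have h1 : IsCompact (Prod.fst '' tsupport H) := hH.isCompact.image continuous_fst
  refine HasCompactSupport.intro h1 fun t ht => ?_
  apply image_eq_zero_of_notMem_tsupport
  intro hm
  exact ht ⟨_, hm, rfl⟩

section one
variable {V : Type} [NormedAddCommGroup V] [NormedSpace ℝ V]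
variable {F : ℝ × V → ℂ} {G : ℝ × V → ℝ}

theorem prod_parts (hF : ContDiff ℝ ∞ F) (hG : ContDiff ℝ ∞ G) (hFs : HasCompactSupport F)
    (m : ℕ) (z : ℂ) (hz : -(m : ℝ) < z.re) (k : V) (N : ℕ) :
    (∏ j ∈ Finset.range N, (z + m + j)) *
      ∫ t in Ioi (0 : ℝ), (t : ℂ) ^ (z + m - 1) * GN F G 0 z (t, k) =
    (-1) ^ N * ∫ t in Ioi (0 : ℝ), (t : ℂ) ^ (z + m - 1 + N) * GN F G N z (t, k) := by
  induction N with
  | zero => simp
  | succ N ih =>
    have key := parts (a := z + m - 1 + N) (GN_deriv hF hG N z · k)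
      ((GN_cont hF hG (N + 1) z).comp (Continuous.prodMk continuous_id continuous_const))
      (slice_cpt (GN_cpt hFs N z) k) (slice_cpt (GN_cpt hFs (N + 1) z) k)
      (by simp; linarith [(Nat.cast_nonneg N : (0 : ℝ) ≤ N)])
    rw [Finset.prod_range_succ]
    have e1 : z + m - 1 + N + 1 = z + m + N := by ring
    have e2 : z + m - 1 + ((N + 1 : ℕ) : ℂ) = z + m + N := by push_cast; ring
    rw [e1] at key
    rw [e2]
    calc _ = (z + m + N) * ((∏ j ∈ Finset.range N, (z + m + j)) *
          ∫ t in Ioi (0 : ℝ), (t : ℂ) ^ (z + m - 1) * GN F G 0 z (t, k)) := by ring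
      _ = (-1) ^ N * ((z + m + N) *
          ∫ t in Ioi (0 : ℝ), (t : ℂ) ^ (z + m - 1 + N) * GN F G N z (t, k)) := by
          rw [ih]; ring
      _ = _ := by rw [key]; ring

theorem ftc (hF : ContDiff ℝ ∞ F) (hG : ContDiff ℝ ∞ G) (hFs : HasCompactSupport F)
    (N : ℕ) (z : ℂ) (k : V) :
    ∫ t in Ioi (0 : ℝ), GN F G (N + 1) z (t, k) = - GN F G N z (0, k) := by
  have hc' : Continuous fun t : ℝ => GN F G (N + 1) z (t, k) :=
    (GN_cont hF hG (N + 1) z).comp (Continuous.prodMk continuous_id continuous_const)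
  have hc : Continuous fun t : ℝ => GN F G N z (t, k) :=
    (GN_cont hF hG N z).comp (Continuous.prodMk continuous_id continuous_const)
  have hs := slice_cpt (GN_cpt (G := G) hFs N z) k
  have hs' := slice_cpt (GN_cpt (G := G) hFs (N + 1) z) k
  have key := integral_Ioi_of_hasDerivAt_of_tendsto (a := 0) (m := (0 : ℂ))
    (f := fun t : ℝ => GN F G N z (t, k))
    (f' := fun t : ℝ => GN F G (N + 1) z (t, k)) hc.continuousAt.continuousWithinAt
    (fun t _ => GN_deriv hF hG N z t k)
    (hc'.integrable_of_hasCompactSupport hs').integrableOn ?_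
  · rw [key, zero_sub]
  · refine tendsto_const_nhds.congr' ?_
    obtain ⟨R, hR⟩ := hs.isCompact.isBounded.subset_closedBall 0
    filter_upwards [eventually_gt_atTop R] with t ht
    have : t ∉ tsupport (fun t : ℝ => GN F G N z (t, k)) := by
      intro hm
      have := hR hm
      rw [Metric.mem_closedBall, Real.dist_eq, sub_zero] at this
      have h1 := le_abs_self t
      linarith
    have h0 := image_eq_zero_of_notMem_tsupport this
    exact h0.symm

theorem sym_at {F : ℝ × V → ℂ} {G : ℝ × V → ℝ} (hF : ContDiff ℝ ∞ F) (hG : ContDiff ℝ ∞ G)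
    (N : ℕ) (z : ℂ) (k k' : V) (h : ∀ t : ℝ, F (-t, k') = F (t, k) ∧ G (-t, k') = G (t, k)) :
    GN F G N z (0, k) = (-1) ^ N * GN F G N z (0, k') := by
  have h1 := congrFun (GN_iter hF hG N z k) 0
  have h2 := congrFun (GN_iter hF hG N z k') 0
  have h3 : (fun t : ℝ => F (t, k) * Complex.exp (z * G (t, k))) =
      fun t : ℝ => (fun t => F (t, k') * Complex.exp (z * G (t, k'))) (-t) := by
    funext t
    simp only [(h t).1, (h t).2]
  have h4 := iteratedDeriv_comp_neg N
    (fun t : ℝ => F (t, k') * Complex.exp (z * G (t, k'))) 0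
  rw [← h1, ← h2, h3, h4]
  simp

end one

theorem mel (hLAP : S_LAP) : S_MEL := by
  intro m hm V _ _ _ _ _ ν _ f g τ hf hg hcs hτ hsym
  have hprop : ProperSpace V := FiniteDimensional.proper_real V
  set F : ℝ × V → ℂ := fun p => f p.1 p.2 with hFdef
  set G : ℝ × V → ℝ := fun p => g p.1 p.2 with hGdef
  set μ : Measure (V × ℝ) := ν.prod (volume.restrict (Ioi 0)) with hμ
  set c : ℕ → V × ℝ → ℂ := fun i x => (x.2 : ℂ) ^ (2 * m) * cf F G (m + 1) i (x.2, x.1) with hcdef
  set l : V × ℝ → ℝ := fun x => Real.log x.2 + G (x.2, x.1) with hldef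
  have hcc : ∀ i, Continuous (c i) := by
    intro i
    refine Continuous.mul ((Complex.continuous_ofReal.comp continuous_snd).pow _) ?_
    exact (cf_smooth hf hg (m + 1) i).continuous.comp continuous_swap
  have hcm : ∀ i, AEStronglyMeasurable (c i) μ := fun i => (hcc i).aestronglyMeasurable
  have hlm : AEStronglyMeasurable l μ := by
    refine Measurable.aestronglyMeasurable ?_
    exact (Real.measurable_log.comp measurable_snd).add
      (hg.continuous.comp continuous_swap).measurable
  -- integrability for a complex parameter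
  have hint : ∀ (i : ℕ) (z : ℂ), -(2 * m + 1 : ℝ) < z.re →
      Integrable (fun x => c i x * Complex.exp (z * l x)) μ := by
    intro i z hz
    have hK := (cf_cpt (G := G) hcs (m + 1) i).isCompact
    have hK1 : IsCompact (Prod.snd '' tsupport (cf F G (m + 1) i)) := hK.image continuous_snd
    obtain ⟨R, hR0, hR⟩ : ∃ R : ℝ, 0 < R ∧ ∀ t k, R < t → cf F G (m + 1) i (t, k) = 0 := by
      obtain ⟨R, hR⟩ := (hK.image continuous_fst).isBounded.subset_closedBall 0
      refine ⟨max R 1, by positivity, fun t k ht => ?_⟩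
      apply image_eq_zero_of_notMem_tsupport
      intro hm
      have := hR ⟨_, hm, rfl⟩
      rw [Metric.mem_closedBall, Real.dist_eq, sub_zero] at this
      have h1 := le_abs_self t
      have h2 := le_max_left R 1
      simp only at this
      linarith
    obtain ⟨C, hC⟩ : ∃ C : ℝ, ∀ p : ℝ × V,
        ‖cf F G (m + 1) i p * Complex.exp (z * G p)‖ ≤ C := by
      have h1 : Continuous fun p => cf F G (m + 1) i p * Complex.exp (z * G p) :=
        (cf_smooth hf hg (m + 1) i).continuous.mul (Complex.continuous_exp.comp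
          (continuous_const.mul (Complex.continuous_ofReal.comp hg.continuous)))
      have h2 : HasCompactSupport fun p => cf F G (m + 1) i p * Complex.exp (z * G p) :=
        (cf_cpt hcs (m + 1) i).mul_right
      exact h1.bounded_above_of_compact_support h2
    have hC0 : 0 ≤ C := (norm_nonneg _).trans (hC 0)
    -- the dominating function
    have h1 : Integrable ((Prod.snd '' tsupport (cf F G (m + 1) i)).indicator
        (fun _ : V => (1 : ℝ))) ν := by
      rw [integrable_indicator_iff hK1.measurableSet]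
      exact integrableOn_const (hK1.measure_lt_top).ne
    have h2 : Integrable ((Ioc (0 : ℝ) R).indicator (fun t : ℝ => C * t ^ (z.re + 2 * m)))
        (volume.restrict (Ioi 0)) := by
      refine Integrable.restrict ?_
      rw [integrable_indicator_iff measurableSet_Ioc]
      have h3 := (intervalIntegral.intervalIntegrable_rpow' (a := 0) (b := R)
        (r := z.re + 2 * m) (by linarith)).const_mul C
      rwa [intervalIntegrable_iff_integrableOn_Ioc_of_le hR0.le] at h3
    have h3 := h1.mul_prod h2
    refine h3.mono' ?_ ?_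
    · refine (hcm i).mul (Complex.continuous_exp.comp_aestronglyMeasurable ?_)
      exact (Complex.continuous_ofReal.comp_aestronglyMeasurable hlm).const_mul z
    · have h4 : ∀ᵐ x : V × ℝ ∂μ, x.2 ∈ Ioi (0 : ℝ) := by
        have h5 : ∀ᵐ t : ℝ ∂(volume.restrict (Ioi (0 : ℝ))), t ∈ Ioi (0 : ℝ) :=
          ae_restrict_mem measurableSet_Ioi
        exact Measure.quasiMeasurePreserving_snd.ae h5
      filter_upwards [h4] with x hx
      have hx' : 0 < x.2 := hx
      by_cases hxR : R < x.2
      · simp only [hcdef, hR x.2 x.1 hxR, mul_zero, zero_mul, norm_zero]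
        refine mul_nonneg (indicator_nonneg (fun _ _ => zero_le_one) _)
          (indicator_nonneg (fun t ht => ?_) _)
        exact mul_nonneg hC0 (Real.rpow_nonneg ht.1.le _)
      · by_cases hxK : x.1 ∈ Prod.snd '' tsupport (cf F G (m + 1) i)
        · have hxI : x.2 ∈ Ioc (0 : ℝ) R := ⟨hx', not_lt.1 hxR⟩
          rw [indicator_of_mem hxK, indicator_of_mem hxI, one_mul]
          have e1 : c i x * Complex.exp (z * l x) =
              ((x.2 : ℂ) ^ (2 * m) * (x.2 : ℂ) ^ z) *
                (cf F G (m + 1) i (x.2, x.1) * Complex.exp (z * G (x.2, x.1))) := by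
            simp only [hcdef, hldef]
            rw [Complex.cpow_def_of_ne_zero (Complex.ofReal_ne_zero.2 hx'.ne'),
              ← Complex.ofReal_log hx'.le, Complex.ofReal_add, mul_add, Complex.exp_add,
              mul_comm ((Real.log x.2 : ℝ) : ℂ) z]
            ring
          rw [e1, norm_mul, norm_mul, norm_pow, Complex.norm_real, Real.norm_of_nonneg hx'.le,
            Complex.norm_cpow_eq_rpow_re_of_pos hx', ← Real.rpow_natCast, ← Real.rpow_add hx']
          rw [mul_comm C]
          have e2 : ((2 * m : ℕ) : ℝ) + z.re = z.re + 2 * m := by push_cast; ring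
          rw [e2]
          exact mul_le_mul_of_nonneg_left (hC _) (Real.rpow_nonneg hx'.le _)
        · have h0 : cf F G (m + 1) i (x.2, x.1) = 0 := by
            apply image_eq_zero_of_notMem_tsupport
            intro hm'
            exact hxK ⟨_, hm', rfl⟩
          simp only [hcdef, h0, mul_zero, zero_mul, norm_zero]
          refine mul_nonneg (indicator_nonneg (fun _ _ => zero_le_one) _)
            (indicator_nonneg (fun t ht => ?_) _)
          exact mul_nonneg hC0 (Real.rpow_nonneg ht.1.le _)
  -- the continuation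
  set J : ℂ → ℂ := fun z => (-1) ^ (m + 1) * ∑ i ∈ Finset.range (m + 1 + 1),
    z ^ i * ∫ x, c i x * Complex.exp (z * l x) ∂μ with hJ
  have hform : ∀ z : ℂ, -(2 * m + 1 : ℝ) < z.re →
      J z = (-1) ^ (m + 1) * ∫ k, (∫ t in Ioi (0 : ℝ),
        (t : ℂ) ^ (z + 2 * m) * GN F G (m + 1) z (t, k)) ∂ν := by
    intro z hz
    have h1 : Integrable (fun x => ∑ i ∈ Finset.range (m + 1 + 1),
        z ^ i * (c i x * Complex.exp (z * l x))) μ :=
      integrable_finsetSum _ fun i _ => (hint i z hz).const_mul _
    simp only [hJ]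
    congr 1
    calc _ = ∑ i ∈ Finset.range (m + 1 + 1), ∫ x, z ^ i * (c i x * Complex.exp (z * l x)) ∂μ := by
          refine Finset.sum_congr rfl fun i _ => ?_
          rw [integral_const_mul]
      _ = ∫ x, ∑ i ∈ Finset.range (m + 1 + 1), z ^ i * (c i x * Complex.exp (z * l x)) ∂μ := by
          rw [integral_finsetSum]
          exact fun i _ => (hint i z hz).const_mul _
      _ = ∫ k, (∫ t in Ioi (0 : ℝ), ∑ i ∈ Finset.range (m + 1 + 1),
            z ^ i * (c i (k, t) * Complex.exp (z * l (k, t)))) ∂ν := integral_prod _ h1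
      _ = _ := by
          refine integral_congr_ae (Eventually.of_forall fun k => ?_)
          refine setIntegral_congr_fun measurableSet_Ioi fun t ht => ?_
          have ht' : (0 : ℝ) < t := ht
          have hne : (t : ℂ) ≠ 0 := Complex.ofReal_ne_zero.2 ht'.ne'
          have e1 : (t : ℂ) ^ (z + 2 * m) = (t : ℂ) ^ (2 * m) * Complex.exp (z * Real.log t) := by
            rw [Complex.cpow_add _ _ hne, mul_comm]
            congr 1
            · rw [show (2 * m : ℂ) = ((2 * m : ℕ) : ℂ) by push_cast; ring, Complex.cpow_natCast]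
            · rw [Complex.cpow_def_of_ne_zero hne, ← Complex.ofReal_log ht'.le, mul_comm]
          simp only [hcdef, hldef, GN]
          rw [e1, Finset.sum_mul, Finset.mul_sum]
          refine Finset.sum_congr rfl fun i _ => ?_
          rw [Complex.ofReal_add, mul_add, Complex.exp_add]
          ring
  refine ⟨J, ?_, ?_, ?_⟩
  · -- analytic
    have h1 : ∀ i, DifferentiableOn ℂ (fun z : ℂ => ∫ x, c i x * Complex.exp (z * l x) ∂μ)
        {z | z.re ∈ Ioi (-(2 * m + 1 : ℝ))} := by
      intro i
      refine hLAP (V × ℝ) μ (c i) l (Ioi (-(2 * m + 1 : ℝ))) isOpen_Ioi (hcm i) hlm ?_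
      intro t ht
      have := hint i (t : ℂ) (by simpa using ht)
      refine this.congr (Eventually.of_forall fun x => ?_)
      simp
    have h2 : {z : ℂ | -(2 * m + 1 : ℝ) < z.re} = {z | z.re ∈ Ioi (-(2 * m + 1 : ℝ))} := rfl
    rw [h2]
    simp only [hJ]
    refine DifferentiableOn.const_mul ?_ _
    refine DifferentiableOn.fun_sum fun i _ => ?_
    exact ((differentiable_id.pow i).differentiableOn).mul (h1 i)
  · intro z hz
    have hm0 : (0 : ℝ) ≤ m := Nat.cast_nonneg m
    rw [hform z (by linarith), ← integral_const_mul, ← integral_const_mul]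
    refine integral_congr_ae (Eventually.of_forall fun k => ?_)
    have := prod_parts hf hg hcs m z (by linarith) k (m + 1)
    simp only
    have e1 : z + m - 1 + ((m + 1 : ℕ) : ℂ) = z + 2 * m := by push_cast; ring
    rw [e1] at this
    rw [← this]
    congr 1
    refine setIntegral_congr_fun measurableSet_Ioi fun t _ => ?_
    simp only [GN_zero, hFdef, hGdef]
    ring
  · intro hodd
    rw [hform _ (by simp)]
    have e0 : ∀ k, ∫ t in Ioi (0 : ℝ), (t : ℂ) ^ ((-2 * m : ℂ) + 2 * m) *
        GN F G (m + 1) (-2 * m) (t, k) = - GN F G m (-2 * m) (0, k) := by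
      intro k
      rw [← ftc hf hg hcs m (-2 * m) k]
      refine setIntegral_congr_fun measurableSet_Ioi fun t _ => ?_
      simp
    simp only [e0]
    rw [integral_neg]
    have hA : Continuous fun k => GN F G m (-2 * m) (0, k) :=
      (GN_cont hf hg m _).comp (Continuous.prodMk continuous_const continuous_id)
    have h1 : ∫ k, GN F G m (-2 * m) (0, k) ∂ν = ∫ k, GN F G m (-2 * m) (0, τ k) ∂ν := by
      conv_lhs => rw [← hτ.map_eq]
      rw [integral_map hτ.measurable.aemeasurable hA.aestronglyMeasurable]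
    have h2 : ∫ k, GN F G m (-2 * m) (0, k) ∂ν = - ∫ k, GN F G m (-2 * m) (0, τ k) ∂ν := by
      rw [← integral_neg]
      refine integral_congr_ae ?_
      filter_upwards [hsym] with k hk
      have := sym_at hf hg m (-2 * m) k (τ k) (fun t => hk t)
      rw [this, hodd.neg_one_pow]
      ring
    have h3 : ∫ k, GN F G m (-2 * m) (0, k) ∂ν = 0 := by
      rw [← h1] at h2
      have : (2 : ℂ) * ∫ k, GN F G m (-2 * m) (0, k) ∂ν = 0 := by linear_combination h2
      simpa using this
    rw [h3]
    simp

end Pool.Agent.Q178.MW.JMEL
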