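import Pool.Agent.Q178.MW.Stm

set_option autoImplicit false

open MeasureTheory Set Filter Topology
open scoped ContDiff

namespace Pool.Agent.Q178.MW.JMOB

open Pool.Agent.Q178.MW

section

variable {V : Type*} [NormedAddCommGroup V] [InnerProductSpace ℝ V]

/-- the derivative of the inversion -/
noncomputable def DI (X v : V) : V := (‖X‖ ^ 2)⁻¹ • v - (2 * inner ℝ X v * ((‖X‖ ^ 2)⁻¹) ^ 2) • X

lemma sq_ne {X : V} (hX : X ≠ 0) : inner ℝ X X ≠ (0 : ℝ) := by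
  rw [real_inner_self_eq_norm_sq]
  have := norm_pos_iff.2 hX
  positivity

lemma dist_inv {X Y : V} (hX : X ≠ 0) (hY : Y ≠ 0) :
    ‖(‖X‖ ^ 2)⁻¹ • X - (‖Y‖ ^ 2)⁻¹ • Y‖ ^ 2 = (‖X‖ ^ 2)⁻¹ * (‖Y‖ ^ 2)⁻¹ * ‖X - Y‖ ^ 2 := by
  have h1 := sq_ne hX
  have h2 := sq_ne hY
  simp only [← real_inner_self_eq_norm_sq, inner_sub_left, inner_sub_right, inner_smul_left,
    inner_smul_right, real_inner_comm X Y, conj_trivial]
  field_simp
  ring

lemma conf_inv {X : V} (hX : X ≠ 0) (v w : V) :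
    inner ℝ (DI X v) (DI X w) = ((‖X‖ ^ 2)⁻¹) ^ 2 * inner ℝ v w := by
  have h1 := sq_ne hX
  unfold DI
  simp only [← real_inner_self_eq_norm_sq, inner_sub_left, inner_sub_right, inner_smul_left,
    inner_smul_right, real_inner_comm v X, real_inner_comm w X, conj_trivial]
  field_simp
  ring

lemma refl_inv {X Y : V} (hX : X ≠ 0) (hY : Y ≠ 0) (hXY : X - Y ≠ 0) (v w : V) :
    inner ℝ (DI X v) (DI Y w) - 2 * inner ℝ (DI X v) ((‖X‖ ^ 2)⁻¹ • X - (‖Y‖ ^ 2)⁻¹ • Y) *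
      inner ℝ ((‖X‖ ^ 2)⁻¹ • X - (‖Y‖ ^ 2)⁻¹ • Y) (DI Y w) /
        ‖(‖X‖ ^ 2)⁻¹ • X - (‖Y‖ ^ 2)⁻¹ • Y‖ ^ 2 =
    (‖X‖ ^ 2)⁻¹ * (‖Y‖ ^ 2)⁻¹ *
      (inner ℝ v w - 2 * inner ℝ v (X - Y) * inner ℝ (X - Y) w / ‖X - Y‖ ^ 2) := by
  rw [dist_inv hX hY]
  have h1 := sq_ne hX
  have h2 := sq_ne hY
  have h3 := sq_ne hXY
  unfold DI
  simp only [← real_inner_self_eq_norm_sq]
  set S : ℝ := inner ℝ (X - Y) (X - Y) with hS
  have hS2 : S = inner ℝ X X - 2 * inner ℝ X Y + inner ℝ Y Y := by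
    rw [hS]
    simp only [inner_sub_left, inner_sub_right, real_inner_comm X Y]
    ring
  have hab : inner ℝ X Y = (inner ℝ X X + inner ℝ Y Y - S) / 2 := by
    rw [hS2]
    ring
  simp only [inner_sub_left, inner_sub_right, inner_smul_left, inner_smul_right,
    real_inner_comm X Y, real_inner_comm v X, real_inner_comm v Y, real_inner_comm w X,
    real_inner_comm w Y, conj_trivial, hab]
  field_simp
  ring

lemma hasFDerivAt_inv {c x : V} (hx : x ≠ c) :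
    ∃ L : V →L[ℝ] V, HasFDerivAt (fun x : V => c + (‖x - c‖ ^ 2)⁻¹ • (x - c)) L x ∧
      ∀ v, L v = DI (x - c) v := by
  have h0 : x - c ≠ 0 := sub_ne_zero.2 hx
  have h1 : HasFDerivAt (fun x : V => x - c) (ContinuousLinearMap.id ℝ V) x :=
    (hasFDerivAt_id x).sub_const c
  have h2 := h1.norm_sq
  have hne : ‖x - c‖ ^ 2 ≠ 0 := by
    have := norm_pos_iff.2 h0
    positivity
  have h3 := (hasDerivAt_inv hne).comp_hasFDerivAt x h2
  have h4 := (h3.smul h1).const_add c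
  refine ⟨_, h4, fun v => ?_⟩
  unfold DI
  simp only [add_apply, smul_apply,
    ContinuousLinearMap.smulRight_apply, ContinuousLinearMap.id_apply,
    ContinuousLinearMap.comp_apply, innerSL_apply_apply, Function.comp_apply, smul_eq_mul]
  have h5 : -((‖x - c‖ ^ 2) ^ 2)⁻¹ * 2 • inner ℝ (x - c) v =
      -(2 * inner ℝ (x - c) v * ((‖x - c‖ ^ 2)⁻¹) ^ 2) := by
    rw [nsmul_eq_mul]
    push_cast
    field_simp
  rw [h5, neg_smul]
  abel

end

variable {n : ℕ}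

lemma conf_inversion (c : E n) : Conf (inv c) (fun x => (‖x - c‖ ^ 2)⁻¹) {c}ᶜ := by
  have hne : ∀ x ∈ ({c} : Set (E n))ᶜ, x - c ≠ 0 := fun x hx => sub_ne_zero.2 hx
  have hsq : ContDiff ℝ ∞ (fun x : E n => ‖x - c‖ ^ 2) :=
    (contDiff_id.sub contDiff_const).norm_sq ℝ
  have hinv : ContDiffOn ℝ ∞ (fun x : E n => (‖x - c‖ ^ 2)⁻¹) {c}ᶜ := by
    apply hsq.contDiffOn.inv
    intro x hx
    have := norm_pos_iff.2 (hne x hx)
    positivity
  have hfd : ∀ x ∈ ({c} : Set (E n))ᶜ, ∀ v, fderiv ℝ (inv c) x v = DI (x - c) v := by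
    intro x hx v
    obtain ⟨L, h1, h2⟩ := hasFDerivAt_inv (c := c) (x := x) hx
    have h3 : fderiv ℝ (inv c) x = L := h1.fderiv
    rw [h3, h2]
  have hdiff : ∀ x y : E n, inv c x - inv c y =
      (‖x - c‖ ^ 2)⁻¹ • (x - c) - (‖y - c‖ ^ 2)⁻¹ • (y - c) := by
    intro x y
    unfold inv
    abel
  refine ⟨isOpen_compl_singleton, ?_, hinv, ?_, ?_, ?_, ?_⟩
  · exact contDiffOn_const.add (hinv.smul (contDiff_id.sub contDiff_const).contDiffOn)
  · intro x hx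
    have := norm_pos_iff.2 (hne x hx)
    positivity
  · intro x hx y hy
    rw [hdiff, dist_inv (hne x hx) (hne y hy), sub_sub_sub_cancel_right]
  · intro x hx v w
    rw [hfd x hx, hfd x hx, conf_inv (hne x hx)]
  · intro x hx y hy hxy v w
    have h1 : (x - c) - (y - c) ≠ 0 := by
      rw [sub_sub_sub_cancel_right]
      exact sub_ne_zero.2 hxy
    rw [hfd x hx, hfd y hy, hdiff, refl_inv (hne x hx) (hne y hy) h1, sub_sub_sub_cancel_right]

lemma conf_comp {T' : E n → E n} {om : E n → ℝ} {Ω : Set (E n)} (hT : Conf T' om Ω) {ρ : ℝ}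
    (hρ : 0 < ρ) (Q : E n ≃ₗᵢ[ℝ] E n) (p : E n) {T : E n → E n}
    (h : ∀ x, T x = ρ • Q (T' x) + p) : Conf T (fun x => ρ * om x) Ω := by
  have hTf : T = fun x => ρ • Q (T' x) + p := funext h
  have hd : ∀ x ∈ Ω, DifferentiableAt ℝ T' x := fun x hx =>
    (hT.smooth.contDiffAt (hT.isOpen.mem_nhds hx)).differentiableAt (by simp)
  have hfd : ∀ x ∈ Ω, ∀ v, fderiv ℝ T x v = ρ • Q (fderiv ℝ T' x v) := by
    intro x hx v
    have h1 : HasFDerivAt T (ρ • ((Q : E n ≃L[ℝ] E n) : E n →L[ℝ] E n).comp (fderiv ℝ T' x)) x := by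
      rw [hTf]
      exact ((((Q : E n ≃L[ℝ] E n) : E n →L[ℝ] E n).hasFDerivAt.comp x
        (hd x hx).hasFDerivAt).const_smul ρ).add_const p
    rw [h1.fderiv]
    rfl
  have hdiff : ∀ x y, T x - T y = ρ • Q (T' x - T' y) := by
    intro x y
    rw [h, h, map_sub, smul_sub]
    abel
  have hin : ∀ a b : E n, inner ℝ (ρ • Q a) (ρ • Q b) = ρ ^ 2 * inner ℝ a b := by
    intro a b
    rw [inner_smul_left, inner_smul_right, Q.inner_map_map]
    simp only [conj_trivial]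
    ring
  refine ⟨hT.isOpen, ?_, ?_, ?_, ?_, ?_, ?_⟩
  · rw [hTf]
    have h1 : ContDiff ℝ ∞ (fun y : E n => ρ • Q y + p) :=
      ((((Q : E n ≃L[ℝ] E n) : E n →L[ℝ] E n).contDiff).const_smul ρ).add contDiff_const
    exact h1.comp_contDiffOn hT.smooth
  · exact contDiffOn_const.mul hT.wsmooth
  · exact fun x hx => mul_pos hρ (hT.pos x hx)
  · intro x hx y hy
    rw [hdiff, ← real_inner_self_eq_norm_sq, hin, real_inner_self_eq_norm_sq, hT.dist x hx y hy]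
    ring
  · intro x hx v w
    rw [hfd x hx, hfd x hx, hin, hT.conf x hx]
    ring
  · intro x hx y hy hxy v w
    have h1 := hT.refl x hx y hy hxy v w
    rw [hfd x hx, hfd y hy, hdiff, hin, hin, hin, ← real_inner_self_eq_norm_sq (ρ • Q (T' x - T' y)),
      hin, real_inner_self_eq_norm_sq]
    have h2 : ρ ^ 2 * inner ℝ ((fderiv ℝ T' x) v) ((fderiv ℝ T' y) w) -
        2 * (ρ ^ 2 * inner ℝ ((fderiv ℝ T' x) v) (T' x - T' y)) *
          (ρ ^ 2 * inner ℝ (T' x - T' y) ((fderiv ℝ T' y) w)) / (ρ ^ 2 * ‖T' x - T' y‖ ^ 2) =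
        ρ ^ 2 * (inner ℝ ((fderiv ℝ T' x) v) ((fderiv ℝ T' y) w) -
          2 * inner ℝ ((fderiv ℝ T' x) v) (T' x - T' y) *
            inner ℝ (T' x - T' y) ((fderiv ℝ T' y) w) / ‖T' x - T' y‖ ^ 2) := by
      have h3 : 0 < ‖T' x - T' y‖ ^ 2 := by
        rw [hT.dist x hx y hy]
        have h4 := norm_pos_iff.2 (sub_ne_zero.2 hxy)
        have h5 := hT.pos x hx
        have h6 := hT.pos y hy
        positivity
      field_simp
    rw [h2, h1]
    ring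

lemma conf_id : Conf (fun x : E n => x) (fun _ => 1) univ := by
  refine ⟨isOpen_univ, contDiffOn_id, contDiffOn_const, fun _ _ => one_pos, ?_, ?_, ?_⟩
  · intro x _ y _
    ring
  · intro x _ v w
    simp
  · intro x _ y _ _ v w
    simp

theorem mob : S_MOB := by
  intro n T M hT
  rcases hT with ⟨ρ, Q, p, hρ, h⟩ | ⟨S, c, ⟨ρ, Q, p, hρ, h⟩, hc, hTS⟩
  · exact ⟨_, univ, subset_univ _, conf_comp conf_id hρ Q p h⟩
  · exact ⟨_, {c}ᶜ, fun x hx hxc => hc (hxc ▸ hx), conf_comp (conf_inversion c) hρ Q p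
      fun x => by rw [hTS, h]⟩

end Pool.Agent.Q178.MW.JMOB
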