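import Pool.Agent.Q178.MW.Stm
import Pool.Agent.H248.BH.X1a

set_option autoImplicit false

open MeasureTheory Set Filter Topology
open scoped ContDiff

namespace Pool.Agent.Q178.MW.JNL

open Pool.Agent.Q178.MW

variable {m : ℕ}

/-- Jacobian matrix -/
noncomputable def jm (F : P m → P m) (u : P m) : Matrix (Fin m) (Fin m) ℝ :=
  Matrix.of fun i j => fderiv ℝ F u (Pi.single j 1) i

theorem jm_eq {F : P m → P m} (hF : ContDiff ℝ ∞ F) (u : P m) : H248.ID.jac F u = jm F u := by
  ext i j
  simp only [H248.ID.jac, H248.ID.pd, jm, Matrix.of_apply]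
  have hd : DifferentiableAt ℝ F u := hF.differentiable (by simp) u
  have h := (hasFDerivAt_pi'.1 hd.hasFDerivAt) i
  rw [h.fderiv]
  rfl

theorem jm_cont {F : P m → P m} (hF : ContDiff ℝ ∞ F) : Continuous (jm F) := by
  refine continuous_pi fun i => continuous_pi fun j => ?_
  have h1 : Continuous fun u => fderiv ℝ F u (Pi.single j 1) :=
    (hF.continuous_fderiv (by simp)).clm_apply continuous_const
  exact (continuous_apply i).comp h1

theorem real {F : P m → P m} {g : P m → ℝ} (hF : ContDiff ℝ ∞ F) (hg : ContDiff ℝ 1 g)
    (hc : HasCompactSupport g) :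
    ∫ u, ((∑ i, ∑ j, fderiv ℝ g u (Pi.single j 1) * ((jm F u).adjugate j i * F u i)) +
      m * g u * (jm F u).det) = 0 := by
  have hFi : ∀ i, ContDiff ℝ ∞ (fun u => F u i) := fun i => contDiff_pi.1 hF i
  have hh : ∀ i, ContDiff ℝ 1 (fun u => g u * F u i) := fun i =>
    hg.mul ((hFi i).of_le (by exact_mod_cast le_top))
  have hhc : ∀ i, HasCompactSupport (fun u => g u * F u i) := fun i => hc.mul_right
  have key := fun i => H248.BH.null_lagrangian_C1 hF (hh i) (hhc i) i
  have hcont : ∀ i, Continuous fun u => ∑ j, (H248.ID.jac F u).adjugate j i *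
      H248.ID.pd (fun u => g u * F u i) j u := by
    intro i
    refine continuous_finsetSum _ fun j _ => Continuous.mul ?_ ?_
    · have : (fun u => (H248.ID.jac F u).adjugate j i) = fun u => (jm F u).adjugate j i := by
        funext u; rw [jm_eq hF]
      rw [this]
      exact (continuous_apply i).comp ((continuous_apply j).comp (jm_cont hF).matrix_adjugate)
    · exact ((hh i).continuous_fderiv (by norm_num)).clm_apply continuous_const
  have hsup : ∀ i, HasCompactSupport fun u => ∑ j, (H248.ID.jac F u).adjugate j i *
      H248.ID.pd (fun u => g u * F u i) j u := by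
    intro i
    refine HasCompactSupport.intro (hhc i) fun x hx => ?_
    refine Finset.sum_eq_zero fun j _ => ?_
    have : fderiv ℝ (fun u => g u * F u i) x = 0 := by
      have h1 : x ∉ tsupport (fderiv ℝ (fun u => g u * F u i)) :=
        fun h => hx (tsupport_fderiv_subset ℝ h)
      exact image_eq_zero_of_notMem_tsupport h1
    simp only [H248.ID.pd, this, ContinuousLinearMap.zero_apply, mul_zero]
  have hint := fun i => (hcont i).integrable_of_hasCompactSupport (μ := (volume : Measure (P m))) (hsup i)
  have hsum : ∫ u, ∑ i, ∑ j, (H248.ID.jac F u).adjugate j i *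
      H248.ID.pd (fun u => g u * F u i) j u = 0 := by
    rw [integral_finset_sum _ fun i _ => hint i]
    exact Finset.sum_eq_zero fun i _ => key i
  rw [← hsum]
  refine integral_congr_ae (Eventually.of_forall fun u => ?_)
  simp only
  have hpd : ∀ i j, H248.ID.pd (fun u => g u * F u i) j u =
      fderiv ℝ g u (Pi.single j 1) * F u i + g u * jm F u i j := by
    intro i j
    have h1 : DifferentiableAt ℝ g u := hg.differentiable (by norm_num) u
    have h2 : DifferentiableAt ℝ (fun u => F u i) u := (hFi i).differentiable (by simp) u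
    have h3 : DifferentiableAt ℝ F u := hF.differentiable (by simp) u
    have h4 := (hasFDerivAt_pi'.1 h3.hasFDerivAt) i
    simp only [H248.ID.pd]
    rw [fderiv_fun_mul h1 h2, h4.fderiv]
    simp only [ContinuousLinearMap.add_apply, ContinuousLinearMap.smul_apply, smul_eq_mul, jm,
      Matrix.of_apply, ContinuousLinearMap.comp_apply, ContinuousLinearMap.proj_apply]
    ring
  simp only [hpd, jm_eq hF]
  have htr : ∑ i, ∑ j, (jm F u).adjugate j i * (g u * jm F u i j) = m * g u * (jm F u).det := by
    have h5 : ∀ i : Fin m, ∑ j, (jm F u).adjugate j i * (g u * jm F u i j) =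
        g u * (jm F u).det := by
      intro i
      have h6 := congrFun (congrFun (Matrix.mul_adjugate (jm F u)) i) i
      rw [Matrix.mul_apply, Matrix.smul_apply, Matrix.one_apply_eq, smul_eq_mul, mul_one] at h6
      rw [← h6, Finset.mul_sum]
      exact Finset.sum_congr rfl fun j _ => by ring
    simp only [h5, Finset.sum_const, Finset.card_univ, Fintype.card_fin, nsmul_eq_mul]
    ring
  rw [← htr, ← Finset.sum_add_distrib]
  refine Finset.sum_congr rfl fun i _ => ?_
  rw [← Finset.sum_add_distrib]
  exact Finset.sum_congr rfl fun j _ => by ring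

theorem nl : S_NL := by
  intro m F g hF hg hc
  change ∫ u, ((∑ i, ∑ j, fderiv ℝ g u (Pi.single j 1) *
      (((jm F u).adjugate j i * F u i : ℝ) : ℂ)) + m * g u * (((jm F u).det : ℝ) : ℂ)) = 0
  set G : P m → ℂ := fun u => (∑ i, ∑ j, fderiv ℝ g u (Pi.single j 1) *
      (((jm F u).adjugate j i * F u i : ℝ) : ℂ)) + m * g u * (((jm F u).det : ℝ) : ℂ) with hG
  have hadj : ∀ i j, Continuous fun u => (jm F u).adjugate j i := fun i j =>
    (continuous_apply i).comp ((continuous_apply j).comp (jm_cont hF).matrix_adjugate)
  have hGc : Continuous G := by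
    refine Continuous.add (continuous_finsetSum _ fun i _ => continuous_finsetSum _ fun j _ => ?_)
      ((continuous_const.mul hg.continuous).mul
        (Complex.continuous_ofReal.comp (jm_cont hF).matrix_det))
    refine Continuous.mul ((hg.continuous_fderiv (by norm_num)).clm_apply continuous_const) ?_
    exact Complex.continuous_ofReal.comp ((hadj i j).mul
      ((continuous_apply i).comp hF.continuous))
  have hGs : HasCompactSupport G := by
    refine HasCompactSupport.intro hc fun x hx => ?_
    have h1 : fderiv ℝ g x = 0 :=
      image_eq_zero_of_notMem_tsupport fun h => hx (tsupport_fderiv_subset ℝ h)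
    have h2 : g x = 0 := image_eq_zero_of_notMem_tsupport hx
    simp [hG, h1, h2]
  have hGi : Integrable G := hGc.integrable_of_hasCompactSupport hGs
  have hre := real hF (Complex.reCLM.contDiff.comp hg)
    (hc.comp_left (g := Complex.reCLM) (map_zero _))
  have him := real hF (Complex.imCLM.contDiff.comp hg)
    (hc.comp_left (g := Complex.imCLM) (map_zero _))
  have hfre : ∀ u v, fderiv ℝ (Complex.reCLM ∘ g) u v = (fderiv ℝ g u v).re := by
    intro u v
    rw [fderiv_comp u Complex.reCLM.differentiableAt (hg.differentiable (by norm_num) u)]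
    simp
  have hfim : ∀ u v, fderiv ℝ (Complex.imCLM ∘ g) u v = (fderiv ℝ g u v).im := by
    intro u v
    rw [fderiv_comp u Complex.imCLM.differentiableAt (hg.differentiable (by norm_num) u)]
    simp
  apply Complex.ext
  · rw [Complex.zero_re, ← hre]
    have := integral_re (μ := volume) hGi
    simp only [RCLike.re_to_complex] at this
    rw [← this]
    refine integral_congr_ae (Eventually.of_forall fun u => ?_)
    simp only [hG, hfre, Complex.add_re, Complex.re_sum, Complex.re_mul_ofReal]
    simp
  · rw [Complex.zero_im, ← him]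
    have := integral_im (μ := volume) hGi
    simp only [RCLike.im_to_complex] at this
    rw [← this]
    refine integral_congr_ae (Eventually.of_forall fun u => ?_)
    simp only [hG, hfim, Complex.add_im, Complex.im_sum, Complex.im_mul_ofReal]
    simp

end Pool.Agent.Q178.MW.JNL
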