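import Pool.Agent.Q178.MW.J_CHT

set_option autoImplicit false

open MeasureTheory Set Filter Topology
open scoped ContDiff

namespace Pool.Agent.Q178.MW.JPC

open Pool.Agent.Q178.MW Pool.Agent.Q178.MW.Tools

variable {m n : ℕ}

/-- the transported orthonormal frame -/
noncomputable def af (M : Sub m n) (T : E n → E n) (om : E n → ℝ) (x : E n) (i : Fin m) : E n :=
  (om x)⁻¹ • fderiv ℝ T x (M.frame x i)

theorem af_inner {M : Sub m n} {T : E n → E n} {om : E n → ℝ} {Ω : Set (E n)} (hT : Conf T om Ω)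
    {x : E n} (hx : x ∈ Ω) (i j : Fin m) :
    inner ℝ (af M T om x i) (af M T om x j) = inner ℝ (M.frame x i) (M.frame x j) := by
  have h0 := (hT.pos x hx).ne'
  simp only [af, inner_smul_left, inner_smul_right, RCLike.conj_to_real]
  rw [hT.conf x hx]
  field_simp

theorem span_frame {M : Sub m n} {U : Set (P m)} {φ : P m → E n}
    (hφ : IsChart M.carrier M.frame U φ) {u : P m} (hu : u ∈ U) (k : Fin m) :
    ∃ c : Fin m → ℝ, M.frame (φ u) k = ∑ j, c j • pd φ u j := by
  have hor := M.orthonormal _ (JTAN.param_mem hφ.toIsParam hu)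
  have hdet : (gm (M.frame (φ u)) (pd φ u)).det ≠ 0 := (hφ.oriented u hu).ne'
  set A := gm (M.frame (φ u)) (pd φ u) with hA
  have hex := fun j => JFR.expand (M.frame (φ u)) (pd φ u) hor (hφ.tangent u hu) j
  refine ⟨fun j => A⁻¹ j k, ?_⟩
  have h1 : ∑ j, A⁻¹ j k • pd φ u j = ∑ j, A⁻¹ j k • ∑ l, A l j • M.frame (φ u) l := by
    refine Finset.sum_congr rfl fun j _ => ?_
    conv_lhs => rw [hex j]
    rfl
  rw [h1]
  simp only [Finset.smul_sum, smul_smul]
  rw [Finset.sum_comm]
  have h2 : ∀ l, ∑ j, (A⁻¹ j k * A l j) • M.frame (φ u) l =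
      ((1 : Matrix (Fin m) (Fin m) ℝ) l k) • M.frame (φ u) l := by
    intro l
    rw [← Finset.sum_smul]
    congr 1
    rw [← Matrix.mul_nonsing_inv A (isUnit_iff_ne_zero.2 hdet), Matrix.mul_apply]
    exact Finset.sum_congr rfl fun j _ => mul_comm _ _
  simp only [h2, Matrix.one_apply, ite_smul, one_smul, zero_smul, Finset.sum_ite_eq',
    Finset.mem_univ, if_true]

theorem af_span (hcht : S_CHT) {M M' : Sub m n} {T : E n → E n} {om : E n → ℝ} {Ω : Set (E n)}
    (hT : Conf T om Ω) (hMΩ : M.carrier ⊆ Ω) (hI : IsImage T M M') {x : E n}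
    (hx : x ∈ M.carrier) (i : Fin m) :
    af M T om x i ∈ Submodule.span ℝ (range (M'.frame (T x))) := by
  obtain ⟨U, φ, hφ, u, hu, rfl⟩ := M.chart x hx
  have hc := hcht m n M M' T om Ω hT hMΩ hI U φ hφ
  obtain ⟨c, hcc⟩ := span_frame hφ hu i
  refine Submodule.smul_mem _ _ ?_
  rw [hcc, map_sum]
  refine Submodule.sum_mem _ fun j _ => ?_
  rw [map_smul]
  refine Submodule.smul_mem _ _ ?_
  have h := hc.tangent u hu j
  have h5 : pd (T ∘ φ) u j = fderiv ℝ T (φ u) (pd φ u j) := by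
    simp only [pd]
    rw [JCHT.pd_comp hT hφ.isOpen hφ.smooth hu (hMΩ hx)]
    rfl
  rw [h5] at h
  exact h

theorem mv_one {M M' : Sub m n} (hfr : S_FR) (hcht : S_CHT) {T : E n → E n} {om : E n → ℝ}
    {Ω : Set (E n)} (hT : Conf T om Ω) (hMΩ : M.carrier ⊆ Ω) (hI : IsImage T M M') {x : E n}
    (hx : x ∈ M.carrier) : mv (M'.frame (T x)) (af M T om x) = 1 := by
  have hx' : T x ∈ M'.carrier := by rw [hI.1]; exact mem_image_of_mem T hx
  have h := (hfr.1 m n (M'.frame (T x)) (af M T om x) (af M T om x) 0 (M'.orthonormal _ hx')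
    (af_span hcht hT hMΩ hI hx)).2.2
  have h1 : mv (af M T om x) (af M T om x) = 1 := by
    have e : gm (af M T om x) (af M T om x) = 1 := by
      ext i j
      simp only [gm, Matrix.of_apply]
      rw [af_inner hT (hMΩ hx)]
      have := (orthonormal_iff_ite.1 (M.orthonormal x hx)) i j
      rw [this, Matrix.one_apply]
    rw [mv, e, Matrix.det_one]
  have h2 : 0 < mv (M'.frame (T x)) (af M T om x) := by
    have e : gm (M'.frame (T x)) (af M T om x) =
        (om x)⁻¹ • gm (M'.frame (T x)) (fun i => fderiv ℝ T x (M.frame x i)) := by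
      ext i j
      simp only [gm, Matrix.of_apply, Matrix.smul_apply, af, inner_smul_right, smul_eq_mul]
    rw [mv, e, Matrix.det_smul]
    exact mul_pos (pow_pos (inv_pos.2 (hT.pos x (hMΩ hx))) _) (hI.2 x hx)
  rw [h1] at h
  nlinarith [h, h2]

theorem pc : S_CHT → S_FR → S_RF → S_PC := by
  intro hcht hfr hrf m n M M' T om Ω hT hMΩ hI x hx y hy hxy
  have hx' : T x ∈ M'.carrier := by rw [hI.1]; exact mem_image_of_mem T hx
  have hy' : T y ∈ M'.carrier := by rw [hI.1]; exact mem_image_of_mem T hy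
  have repl : ∀ x ∈ M.carrier, ∀ (w : Fin m → E n) (d : E n),
      mv w (M'.frame (T x)) = mv w (af M T om x) ∧
      cc w (M'.frame (T x)) d = cc w (af M T om x) d := by
    intro x hx w d
    have hx' : T x ∈ M'.carrier := by rw [hI.1]; exact mem_image_of_mem T hx
    have h := hfr.1 m n (M'.frame (T x)) (af M T om x) w d (M'.orthonormal _ hx')
      (af_span hcht hT hMΩ hI hx)
    rw [mv_one hfr hcht hT hMΩ hI hx, mul_one, mul_one] at h
    exact ⟨h.1.symm, h.2.1.symm⟩
  have sm := fun v w d => (hfr.2 m n v w d).1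
  have sc := fun v w d => (hfr.2 m n v w d).2
  have e1 : mv (M'.frame (T x)) (M'.frame (T y)) = mv (af M T om x) (af M T om y) := by
    rw [(repl y hy _ 0).1, sm _ _ 0, (repl x hx _ 0).1, sm _ _ 0]
  have e2 : cc (M'.frame (T x)) (M'.frame (T y)) (T x - T y) =
      cc (af M T om x) (af M T om y) (T x - T y) := by
    rw [(repl y hy _ _).2, sc, (repl x hx _ _).2, sc]
  rw [e1, e2, ← hrf, ← hrf]
  congr 1
  ext i j
  simp only [Matrix.of_apply, af, inner_smul_left, inner_smul_right, RCLike.conj_to_real]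
  have h0 := (hT.pos x (hMΩ hx)).ne'
  have h0' := (hT.pos y (hMΩ hy)).ne'
  have h := hT.refl x (hMΩ hx) y (hMΩ hy) hxy (M.frame x i) (M.frame y j)
  have h2 : (om x)⁻¹ * (om y)⁻¹ * (om x * om y) = 1 := by field_simp
  calc _ = (om x)⁻¹ * (om y)⁻¹ * (inner ℝ (fderiv ℝ T x (M.frame x i))
        (fderiv ℝ T y (M.frame y j)) -
      2 * inner ℝ (fderiv ℝ T x (M.frame x i)) (T x - T y) *
        inner ℝ (T x - T y) (fderiv ℝ T y (M.frame y j)) / ‖T x - T y‖ ^ 2) := by ring
    _ = _ := by rw [h, ← mul_assoc, h2, one_mul]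

end Pool.Agent.Q178.MW.JPC
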