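import Pool.Agent.Q178.MW.Stm

set_option autoImplicit false

open MeasureTheory Set Filter Topology
open scoped ContDiff

namespace Pool.Agent.Q178.MW.JPOW

open Pool.Agent.Q178.MW

variable {n : ℕ}

theorem norm_pw (d : E n) {z : ℂ} (hz : z.re ≠ 0) : ‖pw d z‖ = ‖d‖ ^ z.re := by
  rw [pw, Complex.norm_cpow_eq_rpow_re_of_nonneg (norm_nonneg d) hz]

theorem norm_pw' {d : E n} (hd : d ≠ 0) (z : ℂ) : ‖pw d z‖ = ‖d‖ ^ z.re := by
  rw [pw, Complex.norm_cpow_eq_rpow_re_of_pos (norm_pos_iff.2 hd)]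

theorem pw_exp {d : E n} (hd : d ≠ 0) (z : ℂ) :
    pw d z = Complex.exp (z / 2 * (Real.log (‖d‖ ^ 2) : ℂ)) := by
  have h : (0 : ℝ) < ‖d‖ := norm_pos_iff.2 hd
  rw [pw, Complex.cpow_def_of_ne_zero (by exact_mod_cast h.ne'), ← Complex.ofReal_log h.le,
    Real.log_pow]
  congr 1
  push_cast
  ring

theorem pw_sub_two {d : E n} (hd : d ≠ 0) (z : ℂ) :
    pw d (z - 2) = pw d z / ((‖d‖ ^ 2 : ℝ) : ℂ) := by
  have h : ((‖d‖ : ℝ) : ℂ) ≠ 0 := by exact_mod_cast (norm_pos_iff.2 hd).ne'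
  rw [pw, pw, Complex.cpow_sub _ _ h]
  congr 1
  rw [Complex.ofReal_pow]
  exact Complex.cpow_natCast ((‖d‖ : ℝ) : ℂ) 2

/-- the derivative -/
noncomputable def F' (z : ℂ) (d : E n) : E n →L[ℝ] ℂ :=
  (z * pw d (z - 2)) • (Complex.ofRealCLM.comp (innerSL ℝ d))

theorem F'_apply (z : ℂ) (d v : E n) :
    F' z d v = z * pw d (z - 2) * ((inner ℝ d v : ℝ) : ℂ) := by
  simp [F']

theorem hasFDerivAt_ne {d : E n} (hd : d ≠ 0) (z : ℂ) :
    HasFDerivAt (fun d : E n => pw d z) (F' z d) d := by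
  have h0 : (0 : ℝ) < ‖d‖ ^ 2 := by positivity
  have h1 : HasFDerivAt (fun d : E n => ‖d‖ ^ 2) (2 • (innerSL ℝ d)) d := by
    simpa using (hasStrictFDerivAt_norm_sq d).hasFDerivAt
  have h2 : HasFDerivAt (fun d : E n => Real.log (‖d‖ ^ 2)) ((‖d‖ ^ 2)⁻¹ • (2 • (innerSL ℝ d))) d :=
    h1.log h0.ne'
  have h3 : HasFDerivAt (fun d : E n => ((Real.log (‖d‖ ^ 2) : ℝ) : ℂ))
      (Complex.ofRealCLM.comp ((‖d‖ ^ 2)⁻¹ • (2 • (innerSL ℝ d)))) d :=
    Complex.ofRealCLM.hasFDerivAt.comp d h2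
  have h4 := (h3.const_mul (z / 2)).cexp
  have he : (fun d : E n => pw d z) =ᶠ[𝓝 d]
      fun d => Complex.exp (z / 2 * (Real.log (‖d‖ ^ 2) : ℂ)) := by
    filter_upwards [isOpen_ne.mem_nhds hd] with x hx
    exact pw_exp hx z
  refine (h4.congr_of_eventuallyEq he).congr_fderiv ?_
  ext v
  rw [F'_apply, pw_sub_two hd, pw_exp hd]
  simp only [ContinuousLinearMap.smul_apply, ContinuousLinearMap.comp_apply,
    Complex.ofRealCLM_apply, smul_eq_mul, innerSL_apply_apply, nsmul_eq_mul]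
  push_cast
  field_simp

theorem hasFDerivAt_zero {z : ℂ} (hz : 1 < z.re) :
    HasFDerivAt (fun d : E n => pw d z) (F' z (0 : E n)) 0 := by
  have h0 : F' z (0 : E n) = 0 := by
    ext v; rw [F'_apply]; simp
  have hz0 : z ≠ 0 := by rintro rfl; norm_num at hz
  rw [h0, hasFDerivAt_iff_isLittleO_nhds_zero]
  have e : (fun h : E n => pw (0 + h) z - pw (0 : E n) z - (0 : E n →L[ℝ] ℂ) h) = fun h : E n => pw h z := by
    funext h
    have : pw (0 : E n) z = 0 := by
      rw [pw, norm_zero, Complex.ofReal_zero, Complex.zero_cpow hz0]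
    rw [this, zero_add]; simp
  rw [e, Asymptotics.isLittleO_iff]
  intro c hc
  have ht : Tendsto (fun h : E n => ‖h‖ ^ (z.re - 1)) (𝓝 0) (𝓝 0) := by
    have h1 : Tendsto (fun h : E n => ‖h‖) (𝓝 0) (𝓝 0) := tendsto_norm_zero
    have h2 : ContinuousAt (fun t : ℝ => t ^ (z.re - 1)) 0 :=
      Real.continuousAt_rpow_const _ _ (Or.inr (by linarith))
    have h3 : Tendsto (fun t : ℝ => t ^ (z.re - 1)) (𝓝 0) (𝓝 0) := by
      have := h2.tendsto
      rwa [Real.zero_rpow (by linarith)] at this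
    exact h3.comp h1
  filter_upwards [ht.eventually (eventually_le_nhds hc)] with h hh
  rw [norm_pw h (by linarith)]
  rcases eq_or_ne h 0 with rfl | hne
  · simp [Real.zero_rpow (by linarith : z.re ≠ 0)]
  · have hp : 0 < ‖h‖ := norm_pos_iff.2 hne
    have : ‖h‖ ^ z.re = ‖h‖ ^ (z.re - 1) * ‖h‖ := by
      rw [← Real.rpow_add_one hp.ne']; congr 1; ring
    rw [this]
    exact mul_le_mul_of_nonneg_right hh hp.le

theorem hasFDerivAt_all {z : ℂ} (hz : 1 < z.re) (d : E n) :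
    HasFDerivAt (fun d : E n => pw d z) (F' z d) d := by
  rcases eq_or_ne d 0 with rfl | hd
  · exact hasFDerivAt_zero hz
  · exact hasFDerivAt_ne hd z

theorem pw_contAt {d : E n} (hd : d ≠ 0) (z : ℂ) : ContinuousAt (fun d : E n => pw d z) d :=
  (hasFDerivAt_ne hd z).continuousAt

theorem F'_cont {z : ℂ} (hz : 1 < z.re) : Continuous (F' (n := n) z) := by
  rw [continuous_iff_continuousAt]
  intro d
  rcases eq_or_ne d 0 with rfl | hd
  · have h0 : F' z (0 : E n) = 0 := by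
      ext v; rw [F'_apply]; simp
    rw [ContinuousAt, h0, tendsto_zero_iff_norm_tendsto_zero]
    have ht : Tendsto (fun h : E n => ‖z‖ * ‖h‖ ^ (z.re - 1)) (𝓝 0) (𝓝 0) := by
      have h1 : Tendsto (fun h : E n => ‖h‖) (𝓝 0) (𝓝 0) := tendsto_norm_zero
      have h2 : ContinuousAt (fun t : ℝ => t ^ (z.re - 1)) 0 :=
        Real.continuousAt_rpow_const _ _ (Or.inr (by linarith))
      have h3 : Tendsto (fun t : ℝ => t ^ (z.re - 1)) (𝓝 0) (𝓝 0) := by
        have := h2.tendsto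
        rwa [Real.zero_rpow (by linarith)] at this
      simpa using (h3.comp h1).const_mul ‖z‖
    refine squeeze_zero (fun _ => norm_nonneg _) (fun h => ?_) ht
    refine ContinuousLinearMap.opNorm_le_bound _ (by positivity) fun v => ?_
    rw [F'_apply, norm_mul, norm_mul, Complex.norm_real, Real.norm_eq_abs]
    rcases eq_or_ne h 0 with rfl | hne
    · simp [Real.zero_rpow (by linarith : z.re - 1 ≠ 0)]
    · have hp : 0 < ‖h‖ := norm_pos_iff.2 hne
      rw [norm_pw' hne]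
      have h4 := abs_real_inner_le_norm h v
      have h5 : ‖h‖ ^ (z.re - 1) = ‖h‖ ^ (z - 2).re * ‖h‖ := by
        rw [← Real.rpow_add_one hp.ne']; congr 1; simp; ring
      rw [h5]
      calc ‖z‖ * ‖h‖ ^ (z - 2).re * |inner ℝ h v|
          ≤ ‖z‖ * ‖h‖ ^ (z - 2).re * (‖h‖ * ‖v‖) := by gcongr
        _ = _ := by ring
  · refine ContinuousAt.smul (continuousAt_const.mul (pw_contAt hd _)) ?_
    exact (continuous_const.clm_comp (innerSL ℝ).continuous).continuousAt

theorem pow : S_POW := by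
  intro n y z hz
  have hd : ∀ x : E n, HasFDerivAt (fun x : E n => pw (x - y) z) (F' z (x - y)) x := by
    intro x
    have h1 := (hasFDerivAt_all hz (x - y)).comp x ((hasFDerivAt_id x).sub_const y)
    exact h1
  refine ⟨?_, fun x v => ?_⟩
  · rw [contDiff_one_iff_hasFDerivAt]
    exact ⟨fun x => F' z (x - y), (F'_cont hz).comp (continuous_id.sub continuous_const), hd⟩
  · rw [(hd x).fderiv, F'_apply]

end Pool.Agent.Q178.MW.JPOW
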