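import Pool.Agent.Q178.MW.J_FIN

set_option autoImplicit false

open MeasureTheory Set Filter Topology
open scoped ContDiff Manifold

namespace Pool.Agent.Q178.MW.JPU

open Pool.Agent.Q178.MW

variable {m n : ℕ}

theorem chart_congr {M : Set (E n)} {b : E n → Fin m → E n} {U : Set (P m)} {φ φ' : P m → E n}
    (h : IsChart M b U φ) (he : ∀ u ∈ U, φ' u = φ u) : IsChart M b U φ' := by
  have hd : ∀ u ∈ U, fderiv ℝ φ' u = fderiv ℝ φ u := fun u hu =>
    Filter.EventuallyEq.fderiv_eq (by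
      filter_upwards [h.isOpen.mem_nhds hu] with v hv using he v hv)
  have hpd : ∀ u ∈ U, pd φ' u = pd φ u := fun u hu => by
    funext j; simp only [pd, hd u hu]
  refine ⟨⟨h.isOpen, h.smooth.congr he, ?_, ?_, ?_⟩, ?_, ?_⟩
  · intro u hu v hv huv
    rw [he u hu, he v hv] at huv
    exact h.inj hu hv huv
  · intro u hu; rw [hd u hu]; exact h.immersion u hu
  · intro U' hU' hU'o
    obtain ⟨V, hV, hVe⟩ := h.image U' hU' hU'o
    refine ⟨V, hV, ?_⟩
    rw [← hVe]
    exact image_congr fun u hu => he u (hU' hu)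
  · intro u hu j; rw [hpd u hu, he u hu]; exact h.tangent u hu j
  · intro u hu; rw [hpd u hu, he u hu]; exact h.oriented u hu

theorem good (M : Sub m n) {x : E n} (hx : x ∈ M.carrier) :
    ∃ (u₀ : P m) (ρ : ℝ) (φ : P m → E n), GoodChart M u₀ ρ φ ∧ φ u₀ = x := by
  obtain ⟨U, φ, hφ, u₀, hu₀, rfl⟩ := M.chart x hx
  obtain ⟨r, hr, hrU⟩ := Metric.nhds_basis_closedBall.mem_iff.1 (hφ.isOpen.mem_nhds hu₀)
  let β : ContDiffBump u₀ := ⟨r / 2, r, by positivity, by linarith⟩
  have hβs : tsupport β ⊆ U := by rw [β.tsupport_eq]; exact hrU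
  have hφ' : ContDiff ℝ ∞ fun u => β u • φ u := by
    rw [contDiff_iff_contDiffAt]
    intro u
    by_cases hu : u ∈ U
    · exact β.contDiff.contDiffAt.smul (hφ.smooth.contDiffAt (hφ.isOpen.mem_nhds hu))
    · have h0 : (fun u => β u • φ u) =ᶠ[𝓝 u] fun _ => 0 := by
        have h1 : (tsupport β)ᶜ ∈ 𝓝 u :=
          (isClosed_tsupport _).isOpen_compl.mem_nhds fun h => hu (hβs h)
        filter_upwards [h1] with v hv
        rw [image_eq_zero_of_notMem_tsupport hv, zero_smul]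
      exact contDiffAt_const.congr_of_eventuallyEq h0
  have hb : ∀ u ∈ Metric.ball u₀ (r / 2), β u • φ u = φ u := fun u hu => by
    rw [β.one_of_mem_closedBall (Metric.ball_subset_closedBall hu), one_smul]
  refine ⟨u₀, r / 2, fun u => β u • φ u, ⟨by positivity, hφ', ?_⟩,
    hb u₀ (Metric.mem_ball_self (by positivity))⟩
  refine chart_congr (JFIN.chart_mono hφ Metric.isOpen_ball ?_) hb
  exact ((Metric.ball_subset_ball (by linarith)).trans Metric.ball_subset_closedBall).trans hrU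

theorem pu : S_PU := by
  intro m n M
  have hex : ∀ x : M.carrier, ∃ (u₀ : P m) (ρ : ℝ) (φ : P m → E n) (V : Set (E n)),
      GoodChart M u₀ ρ φ ∧ IsOpen V ∧ (x : E n) ∈ V ∧ Bornology.IsBounded V ∧
      M.carrier ∩ V ⊆ φ '' Metric.ball u₀ ρ := by
    intro x
    obtain ⟨u₀, ρ, φ, hg, he⟩ := good M x.2
    obtain ⟨V, hV, hVe⟩ := hg.chart.image _ Subset.rfl hg.chart.isOpen
    refine ⟨u₀, ρ, φ, V ∩ Metric.ball (x : E n) 1, hg, hV.inter Metric.isOpen_ball, ⟨?_, ?_⟩,
      Metric.isBounded_ball.subset inter_subset_right, ?_⟩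
    · have : (x : E n) ∈ M.carrier ∩ V := by
        rw [← hVe, ← he]; exact mem_image_of_mem φ (Metric.mem_ball_self hg.pos)
      exact this.2
    · exact Metric.mem_ball_self one_pos
    · rw [hVe]; exact fun y hy => ⟨hy.1, hy.2.1⟩
  choose u₀ ρ φ V hg hV hxV hVb hVs using hex
  obtain ⟨t, ht⟩ := M.compact.elim_finite_subcover V hV
    (fun x hx => mem_iUnion.2 ⟨⟨x, hx⟩, hxV ⟨x, hx⟩⟩)
  have hVo : IsOpen (⋃ i ∈ t, V i) := isOpen_biUnion fun i _ => hV i
  obtain ⟨K, hK, hMK, hKV⟩ := exists_compact_between M.compact hVo ht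
  let e : Fin t.card ≃ t := t.equivFin.symm
  have hcov : K ⊆ ⋃ i : Fin t.card, V (e i) := by
    intro x hx
    obtain ⟨i, hi, hxi⟩ := mem_iUnion₂.1 (hKV hx)
    exact mem_iUnion.2 ⟨e.symm ⟨i, hi⟩, by simpa using hxi⟩
  obtain ⟨f, hf⟩ := SmoothPartitionOfUnity.exists_isSubordinate (modelWithCornersSelf ℝ (E n))
    hK.isClosed (fun i : Fin t.card => V (e i)) (fun i => hV _) hcov
  refine ⟨t.card, fun i => u₀ (e i), fun i => ρ (e i), fun i => φ (e i), fun i => f i,
    fun i => hg _, fun i => (f i).contMDiff.contDiff, fun i => ?_, fun i => ?_, interior K,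
    isOpen_interior, hMK, fun x hx => ?_⟩
  · exact Metric.isCompact_of_isClosed_isBounded (isClosed_tsupport _) ((hVb _).subset (hf i))
  · exact fun x hx => hVs _ ⟨hx.1, hf i hx.2⟩
  · have h := f.sum_eq_one (interior_subset hx)
    rwa [finsum_eq_sum_of_fintype] at h

end Pool.Agent.Q178.MW.JPU
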