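import Pool.Agent.Q178.MW.Stm

set_option autoImplicit false

open Set Matrix

namespace Pool.Agent.Q178.MW.JRF

open Pool.Agent.Q178.MW

theorem rank_one_unit {m : ℕ} (N : Matrix (Fin m) (Fin m) ℝ) (h : N.det ≠ 0) (u v : Fin m → ℝ) :
    (N + Matrix.of fun i j => u i * v j).det = N.det + v ⬝ᵥ (N.adjugate.mulVec u) := by
  have h1 : (Matrix.of fun i j => u i * v j : Matrix (Fin m) (Fin m) ℝ) =
      replicateCol Unit u * replicateRow Unit v := by
    ext i j
    simp [Matrix.mul_apply]
  rw [h1, det_add_replicateCol_mul_replicateRow (isUnit_iff_ne_zero.2 h)]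
  have h2 : (1 + replicateRow Unit v * N⁻¹ * replicateCol Unit u).det =
      1 + v ⬝ᵥ (N⁻¹.mulVec u) := by
    rw [Matrix.det_unique]
    simp only [Matrix.add_apply, Matrix.one_apply_eq]
    congr 1
    rw [Matrix.mul_assoc, Matrix.mul_apply]
    simp only [dotProduct, Matrix.mulVec, replicateRow_apply, Matrix.mul_apply, replicateCol_apply]
  rw [h2, Matrix.inv_def, Matrix.smul_mulVec, dotProduct_smul, Ring.inverse_eq_inv', smul_eq_mul,
    mul_add, mul_one, ← mul_assoc, mul_inv_cancel₀ h, one_mul]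

theorem rank_one {m : ℕ} (N : Matrix (Fin m) (Fin m) ℝ) (u v : Fin m → ℝ) :
    (N + Matrix.of fun i j => u i * v j).det = N.det + v ⬝ᵥ (N.adjugate.mulVec u) := by
  have hc : Continuous fun t : ℝ => N + t • (1 : Matrix (Fin m) (Fin m) ℝ) :=
    continuous_const.add (continuous_id.smul continuous_const)
  have h1 : Continuous fun t : ℝ =>
      ((N + t • (1 : Matrix (Fin m) (Fin m) ℝ)) + Matrix.of fun i j => u i * v j).det :=
    (hc.add continuous_const).matrix_det
  have h2 : Continuous fun t : ℝ => (N + t • (1 : Matrix (Fin m) (Fin m) ℝ)).det +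
      v ⬝ᵥ ((N + t • (1 : Matrix (Fin m) (Fin m) ℝ)).adjugate.mulVec u) :=
    hc.matrix_det.add (Continuous.dotProduct continuous_const
      (hc.matrix_adjugate.matrix_mulVec continuous_const))
  have hfin : {t : ℝ | (N + t • (1 : Matrix (Fin m) (Fin m) ℝ)).det = 0}.Finite := by
    refine ((-N).charpoly.roots.toFinset.finite_toSet).subset fun t ht => ?_
    simp only [Finset.mem_coe, Multiset.mem_toFinset]
    rw [Polynomial.mem_roots (Matrix.charpoly_monic _).ne_zero, Polynomial.IsRoot.def,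
      Matrix.eval_charpoly, sub_neg_eq_add, add_comm]
    simpa [Matrix.smul_one_eq_diagonal, Matrix.scalar_apply] using ht
  have hd : Dense {t : ℝ | (N + t • (1 : Matrix (Fin m) (Fin m) ℝ)).det = 0}ᶜ :=
    hfin.countable.dense_compl ℝ
  have := h1.ext_on hd h2 (fun t ht => rank_one_unit _ ht u v)
  have h0 := congrFun this 0
  simpa using h0

theorem rf : S_RF := by
  intro m n v w d
  have h := rank_one (gm v w) (fun i => - 2 * inner ℝ (v i) d / ‖d‖ ^ 2) (fun j => inner ℝ d (w j))
  have e : (Matrix.of fun i j => inner ℝ (v i) (w j) -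
      2 * inner ℝ (v i) d * inner ℝ d (w j) / ‖d‖ ^ 2 : Matrix (Fin m) (Fin m) ℝ) =
      gm v w + Matrix.of fun i j => (- 2 * inner ℝ (v i) d / ‖d‖ ^ 2) * inner ℝ d (w j) := by
    ext i j
    simp only [gm, Matrix.add_apply, Matrix.of_apply]
    ring
  rw [e, h]
  simp only [mv, cc, dotProduct, Matrix.mulVec, Finset.mul_sum, Finset.sum_div]
  rw [sub_eq_add_neg, ← Finset.sum_neg_distrib, Finset.sum_comm]
  congr 1
  refine Finset.sum_congr rfl fun i _ => ?_
  rw [← Finset.sum_neg_distrib]
  refine Finset.sum_congr rfl fun j _ => ?_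
  ring

end Pool.Agent.Q178.MW.JRF
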