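import Pool.Agent.Q178.MW.J_CON

set_option autoImplicit false

open MeasureTheory Set Filter Topology
open scoped ContDiff

namespace Pool.Agent.Q178.MW.JTAN

open Pool.Agent.Q178.MW Pool.Agent.Q178.MW.Tools

variable {m n : ℕ}

theorem param_mem {M : Set (E n)} {U : Set (P m)} {φ : P m → E n} (h : IsParam M U φ) {u : P m}
    (hu : u ∈ U) : φ u ∈ M := by
  obtain ⟨V, hV, hVe⟩ := h.image U Subset.rfl h.isOpen
  have : φ u ∈ M ∩ V := by rw [← hVe]; exact mem_image_of_mem φ hu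
  exact this.1

theorem param_tendsto {M : Set (E n)} {U : Set (P m)} {φ : P m → E n} (h : IsParam M U φ)
    {u : P m} (hu : u ∈ U) : Tendsto φ (𝓝 u) (𝓝[M] (φ u)) := by
  refine tendsto_nhdsWithin_iff.2 ⟨?_, ?_⟩
  · exact h.smooth.continuousOn.continuousAt (h.isOpen.mem_nhds hu)
  · filter_upwards [h.isOpen.mem_nhds hu] with v hv
    exact param_mem h hv

theorem aux {M : Set (E n)} {U U' : Set (P m)} {φ φ' : P m → E n} {u u' : P m}
    (h : IsParam M U φ) (h' : IsParam M U' φ') (hu : u ∈ U) (hu' : u' ∈ U') (he : φ u = φ' u') :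
    LinearMap.range (fderiv ℝ φ u : P m →ₗ[ℝ] E n) ≤
      LinearMap.range (fderiv ℝ φ' u' : P m →ₗ[ℝ] E n) := by
  have hcd : ContDiffAt ℝ ∞ φ' u' := h'.smooth.contDiffAt (h'.isOpen.mem_nhds hu')
  have hstrict : HasStrictFDerivAt φ' (fderiv ℝ φ' u') u' := hcd.hasStrictFDerivAt (by simp)
  obtain ⟨q, hq⟩ := LinearMap.exists_leftInverse_of_injective (fderiv ℝ φ' u' : P m →ₗ[ℝ] E n)
    (LinearMap.ker_eq_bot.2 (h'.immersion u' hu'))
  let p : E n →L[ℝ] P m := LinearMap.toContinuousLinearMap q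
  have hp : ∀ v, p (fderiv ℝ φ' u' v) = v := fun v => by
    have := LinearMap.congr_fun hq v
    simpa [p] using this
  have hg : HasStrictFDerivAt (fun v => p (φ' v))
      ((ContinuousLinearEquiv.refl ℝ (P m) : P m ≃L[ℝ] P m) : P m →L[ℝ] P m) u' := by
    have h1 := p.hasStrictFDerivAt.comp u' hstrict
    refine h1.congr_fderiv ?_
    ext1 v
    exact hp v
  let θ : P m → P m := hg.localInverse _ _ _
  have hθ : HasStrictFDerivAt θ
      ((ContinuousLinearEquiv.refl ℝ (P m)).symm : P m →L[ℝ] P m) (p (φ' u')) :=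
    hg.to_localInverse
  have hθl : ∀ᶠ v in 𝓝 u', θ (p (φ' v)) = v := hg.eventually_left_inverse
  -- on `M`, near the point
  have hM : ∀ᶠ y in 𝓝[M] (φ' u'), φ' (θ (p y)) = y := by
    refine JCON.nhds_le h' hu' ?_
    rw [Filter.mem_map]
    filter_upwards [hθl] with v hv
    show φ' (θ (p (φ' v))) = φ' v
    rw [hv]
  have hφ : ∀ᶠ w in 𝓝 u, φ' (θ (p (φ w))) = φ w := by
    have ht := param_tendsto h hu
    rw [he] at ht
    exact ht.eventually hM
  have hd1 : HasFDerivAt φ (fderiv ℝ φ u) u :=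
    ((h.smooth.contDiffAt (h.isOpen.mem_nhds hu)).differentiableAt (by simp)).hasFDerivAt
  have hθu : θ (p (φ u)) = u' := by
    rw [he]; exact hθl.self_of_nhds
  have hd2 : HasFDerivAt (fun w => θ (p (φ w)))
      ((((ContinuousLinearEquiv.refl ℝ (P m)).symm : P m →L[ℝ] P m).comp p).comp (fderiv ℝ φ u)) u := by
    have h1 : HasFDerivAt θ ((ContinuousLinearEquiv.refl ℝ (P m)).symm : P m →L[ℝ] P m)
        (p (φ u)) := by rw [he]; exact hθ.hasFDerivAt
    have h2 : HasFDerivAt (fun w => p (φ w)) (p.comp (fderiv ℝ φ u)) u :=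
      p.hasFDerivAt.comp u hd1
    exact h1.comp u h2
  have hd3 : HasFDerivAt (fun w => φ' (θ (p (φ w))))
      ((fderiv ℝ φ' u').comp ((((ContinuousLinearEquiv.refl ℝ (P m)).symm :
        P m →L[ℝ] P m).comp p).comp (fderiv ℝ φ u))) u := by
    have h1 : HasFDerivAt φ' (fderiv ℝ φ' u') (θ (p (φ u))) := by
      rw [hθu]; exact hstrict.hasFDerivAt
    exact h1.comp u hd2
  have hd4 := hd3.congr_of_eventuallyEq (f₁ := φ) (hφ.mono fun w hw => hw.symm)
  rw [hd4.fderiv]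
  rintro _ ⟨v, rfl⟩
  exact ⟨_, rfl⟩

theorem tan : S_TAN := by
  intro m n M U U' φ φ' u u' h h' hu hu' he
  exact le_antisymm (aux h h' hu hu' he) (aux h' h hu' hu he.symm)

end Pool.Agent.Q178.MW.JTAN
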