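import Pool.Agent.Q178.MW.J_PU
import Pool.Agent.Q178.MW.J_CON
import Pool.Agent.Q178.MW.J_TAN
import Pool.Agent.Q178.MW.J_FR

set_option autoImplicit false

open MeasureTheory Set Filter Topology
open scoped ContDiff

namespace Pool.Agent.Q178.MW.JSTK

open Pool.Agent.Q178.MW Pool.Agent.Q178.MW.Tools

variable {m n : ℕ}

/-- preimages of compact sets in a chart are compact -/
theorem preimage_compact {M : Set (E n)} {U : Set (P m)} {φ : P m → E n} (h : IsParam M U φ)
    {C : Set (E n)} (hC : IsCompact C) (hsub : C ⊆ φ '' U) : IsCompact (U ∩ φ ⁻¹' C) := by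
  have hind : IsInducing (fun u : U => φ u) := by
    rw [isInducing_iff_nhds]
    intro u
    refine le_antisymm ?_ ?_
    · rw [← Filter.map_le_iff_le_comap]
      exact (h.smooth.continuousOn.domRestrict).continuousAt
    · intro S hS
      rw [mem_nhds_subtype] at hS
      obtain ⟨S', hS', hSS⟩ := hS
      obtain ⟨W, hW, hWo, huW⟩ := mem_nhds_iff.1 (inter_mem hS' (h.isOpen.mem_nhds u.2))
      obtain ⟨V, hV, hVe⟩ := h.image W (fun x hx => (hW hx).2) hWo
      refine Filter.mem_comap.2 ⟨V, hV.mem_nhds ?_, ?_⟩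
      · have : φ u ∈ M ∩ V := by rw [← hVe]; exact mem_image_of_mem φ huW
        exact this.2
      · intro v hv
        have h1 : φ v ∈ M ∩ V := ⟨JTAN.param_mem h v.2, hv⟩
        rw [← hVe] at h1
        obtain ⟨w, hw, he⟩ := h1
        have h2 : w = v := h.inj (hW hw).2 v.2 he
        exact hSS (show (v : P m) ∈ S' from h2 ▸ (hW hw).1)
  have h1 : (fun u : U => φ u) '' ((fun u : U => φ u) ⁻¹' C) = C := by
    rw [image_preimage_eq_iff]
    intro x hx
    obtain ⟨u, hu, rfl⟩ := hsub hx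
    exact ⟨⟨u, hu⟩, rfl⟩
  have h2 : IsCompact ((fun u : U => φ u) ⁻¹' C) := by
    rw [hind.isCompact_iff, h1]; exact hC
  have h3 : U ∩ φ ⁻¹' C = Subtype.val '' ((fun u : U => φ u) ⁻¹' C) := by
    ext u
    constructor
    · rintro ⟨hu, hu'⟩; exact ⟨⟨u, hu⟩, hu', rfl⟩
    · rintro ⟨v, hv, rfl⟩; exact ⟨v.2, hv⟩
  rw [h3]
  exact h2.image continuous_subtype_val

/-- a cut-off function -/
theorem cutoff {V : Type*} [NormedAddCommGroup V] [NormedSpace ℝ V] [FiniteDimensional ℝ V]
    {K U : Set V} (hK : IsCompact K) (hU : IsOpen U) (hKU : K ⊆ U) :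
    ∃ β : V → ℝ, ContDiff ℝ ∞ β ∧ HasCompactSupport β ∧ tsupport β ⊆ U ∧ ∃ W, IsOpen W ∧ K ⊆ W ∧
      ∀ x ∈ W, β x = 1 := by
  obtain ⟨K₂, hK₂, h12, h2U⟩ := exists_compact_between hK hU hKU
  obtain ⟨K₃, hK₃, h23, h3U⟩ := exists_compact_between hK₂ hU h2U
  obtain ⟨f, hf0, hf1, hf2⟩ := exists_contMDiff_zero_iff_one_iff_of_isClosed
    (modelWithCornersSelf ℝ V) (n := ⊤) (s := (interior K₃)ᶜ) (t := K₂)
    isOpen_interior.isClosed_compl hK₂.isClosed (by
      rw [Set.disjoint_left]; intro x hx hx'; exact hx (h23 hx'))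
  have hts : tsupport f ⊆ K₃ := by
    refine closure_minimal ?_ hK₃.isClosed
    intro x hx
    by_contra hx'
    exact hx ((hf2.1 x).1 fun h => hx' (interior_subset h))
  exact ⟨f, hf0.contDiff, hK₃.of_isClosed_subset (isClosed_tsupport _) hts, hts.trans h3U,
    interior K₂, isOpen_interior, h12, fun x hx => (hf2.2 x).1 (interior_subset hx)⟩

/-- the integrand, for a basis `p` -/
noncomputable def IG (w p : Fin m → E n) (y : E n) (G : E n → ℂ) (x : E n) : ℂ :=
  (∑ i, ∑ j, fderiv ℝ G x (p j) * (((gm w p).adjugate j i * inner ℝ (w i) (x - y) : ℝ) : ℂ)) +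
    m * G x * (mv w p : ℂ)

theorem IG_frame {b p w : Fin m → E n} (hb : Orthonormal ℝ b)
    (hp : ∀ j, p j ∈ Submodule.span ℝ (range b)) (y : E n) (G : E n → ℂ) (x : E n) :
    IG w p y G x = IG w b y G x * (mv b p : ℂ) := by
  have hgm := JFR.gm_eq b p w hb hp
  have h1 : ∀ i, ∑ j, fderiv ℝ G x (p j) *
      (((gm w p).adjugate j i * inner ℝ (w i) (x - y) : ℝ) : ℂ) =
      (∑ k, fderiv ℝ G x (b k) *
        (((gm w b).adjugate k i * inner ℝ (w i) (x - y) : ℝ) : ℂ)) * (mv b p : ℂ) := by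
    intro i
    have h2 : ∀ j, fderiv ℝ G x (p j) = ∑ k, ((gm b p k j : ℝ) : ℂ) * fderiv ℝ G x (b k) := by
      intro j
      conv_lhs => rw [JFR.expand b p hb hp j]
      rw [map_sum]
      refine Finset.sum_congr rfl fun k _ => ?_
      rw [map_smul, Complex.real_smul]
      rfl
    have h3 : ∀ k, ∑ j, gm b p k j * (gm w p).adjugate j i = (gm w b).adjugate k i * mv b p := by
      intro k
      rw [hgm, Matrix.adjugate_mul_distrib, ← Matrix.mul_apply, ← Matrix.mul_assoc,
        Matrix.mul_adjugate, Matrix.smul_mul, Matrix.one_mul, Matrix.smul_apply, smul_eq_mul, mv]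
      ring
    calc ∑ j, fderiv ℝ G x (p j) * (((gm w p).adjugate j i * inner ℝ (w i) (x - y) : ℝ) : ℂ)
        = ∑ j, ∑ k, fderiv ℝ G x (b k) * ((gm b p k j * (gm w p).adjugate j i : ℝ) : ℂ) *
            ((inner ℝ (w i) (x - y) : ℝ) : ℂ) := by
          refine Finset.sum_congr rfl fun j _ => ?_
          rw [h2 j, Finset.sum_mul]
          refine Finset.sum_congr rfl fun k _ => ?_
          push_cast; ring
      _ = ∑ k, fderiv ℝ G x (b k) * (((∑ j, gm b p k j * (gm w p).adjugate j i : ℝ)) : ℂ) *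
            ((inner ℝ (w i) (x - y) : ℝ) : ℂ) := by
          rw [Finset.sum_comm]
          refine Finset.sum_congr rfl fun k _ => ?_
          rw [Complex.ofReal_sum, Finset.mul_sum, Finset.sum_mul]
      _ = _ := by
          rw [Finset.sum_mul]
          refine Finset.sum_congr rfl fun k _ => ?_
          rw [h3 k]; push_cast; ring
  unfold IG
  rw [Finset.sum_congr rfl fun i _ => h1 i, ← Finset.sum_mul]
  have h4 : mv w p = mv w b * mv b p := by simp only [mv]; rw [hgm, Matrix.det_mul]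
  rw [h4]; push_cast; ring

theorem IG_zero {w p : Fin m → E n} {y : E n} {G : E n → ℂ} {x : E n} (hx : x ∉ tsupport G) :
    IG w p y G x = 0 := by
  have h1 : fderiv ℝ G x = 0 :=
    image_eq_zero_of_notMem_tsupport fun h => hx (tsupport_fderiv_subset ℝ h)
  have h2 : G x = 0 := image_eq_zero_of_notMem_tsupport hx
  simp [IG, h1, h2]

theorem IG_congr {w p : Fin m → E n} {y : E n} {G G' : E n → ℂ} {x : E n} (h : G =ᶠ[𝓝 x] G') :
    IG w p y G x = IG w p y G' x := by
  simp only [IG, h.fderiv_eq, h.self_of_nhds]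

theorem IG_cont (hfr : S_FR) (M : Sub m n) (w : Fin m → E n) (y : E n) {G : E n → ℂ}
    (hG : ContDiff ℝ 1 G) : ContinuousOn (fun x => IG w (M.frame x) y G x) M.carrier := by
  refine JCON.cont₁ M _ fun U φ hφ => ?_
  have hpd := JINT.pd_cont hφ.isOpen hφ.smooth
  have hgm : ContinuousOn (fun u => gm w (pd φ u)) U :=
    continuousOn_pi.2 fun i => continuousOn_pi.2 fun j => continuousOn_const.inner (𝕜 := ℝ) (hpd j)
  have hadj : ∀ i j, ContinuousOn (fun u => (gm w (pd φ u)).adjugate j i) U := by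
    intro i j
    have h : Continuous fun N : Matrix (Fin m) (Fin m) ℝ => N.adjugate j i :=
      (continuous_apply i).comp ((continuous_apply j).comp continuous_id.matrix_adjugate)
    exact h.comp_continuousOn hgm
  have hφc : ContinuousOn φ U := hφ.smooth.continuousOn
  have h1 : ContinuousOn (fun u => IG w (pd φ u) y G (φ u)) U := by
    unfold IG
    refine ContinuousOn.add (continuousOn_finsetSum _ fun i _ => continuousOn_finsetSum _
      fun j _ => ContinuousOn.mul ?_ ?_) (ContinuousOn.mul (continuousOn_const.mul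
      (hG.continuous.comp_continuousOn hφc)) ?_)
    · exact ((hG.continuous_fderiv (by norm_num)).comp_continuousOn hφc).clm_apply (hpd j)
    · exact Complex.continuous_ofReal.comp_continuousOn ((hadj i j).mul
        (continuousOn_const.inner (𝕜 := ℝ) (hφc.sub continuousOn_const)))
    · exact Complex.continuous_ofReal.comp_continuousOn
        (JINT.mv_cont (fun j => continuousOn_const) hpd)
  have h2 : ContinuousOn (fun u => ((Real.sqrt (mv (pd φ u) (pd φ u)) : ℝ) : ℂ)) U :=
    Complex.continuous_ofReal.comp_continuousOn (Real.continuous_sqrt.comp_continuousOn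
      (JINT.mv_cont hpd hpd))
  have h3 : ∀ u ∈ U, ((Real.sqrt (mv (pd φ u) (pd φ u)) : ℝ) : ℂ) ≠ 0 := fun u hu => by
    exact_mod_cast (JCON.sqrt_pos M hφ hu hfr).ne'
  refine (h1.div h2 h3).congr fun u hu => ?_
  simp only [Pi.div_apply]
  rw [IG_frame (M.orthonormal _ (JCON.mem M hφ hu)) (hφ.tangent u hu) y G (φ u),
    JCON.vol_eq hfr M hφ hu, mul_div_assoc, div_self, mul_one]
  rw [← JCON.vol_eq hfr M hφ hu]
  exact h3 u hu

theorem local_zero (hnl : S_NL) (hint : S_INT) (hfr : S_FR) (M : Sub m n) (w : Fin m → E n)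
    (y : E n) {G : E n → ℂ} (hG : ContDiff ℝ 1 G) {u₀ : P m} {r : ℝ}
    {φ : P m → E n} (hg : GoodChart M u₀ r φ)
    (hsub : M.carrier ∩ tsupport G ⊆ φ '' Metric.ball u₀ r) :
    ∫ x, IG w (M.frame x) y G x ∂M.vol = 0 := by
  set B := Metric.ball u₀ r with hB
  have hBo : IsOpen B := Metric.isOpen_ball
  rw [hint m n M B φ hg.chart (fun x => IG w (M.frame x) y G x) (fun x hx hx' =>
    IG_zero fun h => hx' (hsub ⟨hx, h⟩))]
  have hmem : ∀ u ∈ B, φ u ∈ M.carrier := fun u hu => JCON.mem M hg.chart hu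
  have e1 : ∀ u ∈ B, (Real.sqrt (mv (pd φ u) (pd φ u)) : ℂ) * IG w (M.frame (φ u)) y G (φ u) =
      IG w (pd φ u) y G (φ u) := by
    intro u hu
    rw [IG_frame (M.orthonormal _ (hmem u hu)) (hg.chart.tangent u hu) y G (φ u),
      JCON.vol_eq hfr M hg.chart hu, mul_comm]
  rw [setIntegral_congr_fun hBo.measurableSet e1]
  -- cut off
  have hKc : IsCompact (B ∩ φ ⁻¹' (M.carrier ∩ tsupport G)) :=
    preimage_compact hg.chart.toIsParam (M.compact.inter_right (isClosed_tsupport _)) hsub
  obtain ⟨β, hβ, hβc, hβB, W, hW, hKW, hβ1⟩ := cutoff hKc hBo inter_subset_left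
  let g : P m → ℂ := fun u => (β u : ℂ) * G (φ u)
  have hgd : ContDiff ℝ 1 g := by
    refine ContDiff.mul ?_ (hG.comp (hg.smooth.of_le (by exact_mod_cast le_top)))
    exact Complex.ofRealCLM.contDiff.comp (hβ.of_le (by exact_mod_cast le_top))
  have hgc : HasCompactSupport g := by
    refine HasCompactSupport.intro hβc fun u hu => ?_
    simp [g, image_eq_zero_of_notMem_tsupport hu]
  have hgloc : ∀ u ∈ B, g =ᶠ[𝓝 u] fun u => G (φ u) := by
    intro u hu
    by_cases huK : u ∈ W
    · filter_upwards [hW.mem_nhds huK] with v hv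
      simp [g, hβ1 v hv]
    · have h1 : φ u ∉ tsupport G := fun h => huK (hKW ⟨hu, hmem u hu, h⟩)
      have h2 : ∀ᶠ v in 𝓝 u, φ v ∉ tsupport G :=
        hg.smooth.continuous.continuousAt.eventually
          ((isClosed_tsupport G).isOpen_compl.mem_nhds h1)
      filter_upwards [h2] with v hv
      simp [g, image_eq_zero_of_notMem_tsupport hv]
  let F : P m → P m := fun u i => inner ℝ (w i) (φ u - y)
  have hF : ContDiff ℝ ∞ F := by
    rw [contDiff_pi]
    intro i
    exact contDiff_const.inner ℝ (hg.smooth.sub contDiff_const)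
  have hDF : ∀ u j i, fderiv ℝ F u (Pi.single j 1) i = inner ℝ (w i) (pd φ u j) := by
    intro u j i
    have hd : DifferentiableAt ℝ φ u := hg.smooth.differentiable (by simp) u
    have h1 : HasFDerivAt F (ContinuousLinearMap.pi fun i =>
        (innerSL ℝ (w i)).comp (fderiv ℝ φ u)) u := by
      rw [hasFDerivAt_pi]
      intro i
      have h2 := (innerSL ℝ (w i)).hasFDerivAt.comp u (hd.hasFDerivAt.sub_const y)
      exact h2
    rw [h1.fderiv]
    rfl
  have key := hnl m F g hF hgd hgc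
  have hjac : ∀ u, (Matrix.of fun i j => fderiv ℝ F u (Pi.single j 1) i :
      Matrix (Fin m) (Fin m) ℝ) = gm w (pd φ u) := by
    intro u; ext i j; simp only [Matrix.of_apply, gm]; exact hDF u j i
  simp only [hjac] at key
  rw [← key]
  symm
  have h5 : ∀ u ∉ B, ((∑ i, ∑ j, fderiv ℝ g u (Pi.single j 1) *
      (((gm w (pd φ u)).adjugate j i * F u i : ℝ) : ℂ)) +
      m * g u * (((gm w (pd φ u)).det : ℝ) : ℂ)) = 0 := by
    intro u hu
    have h6 : u ∉ tsupport g := by
      intro h
      have h7 : tsupport g ⊆ tsupport β := by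
        refine closure_mono fun v hv => ?_
        intro h8
        apply hv
        simp [g, h8]
      exact hu (hβB (h7 h))
    have h7 : fderiv ℝ g u = 0 :=
      image_eq_zero_of_notMem_tsupport fun h => h6 (tsupport_fderiv_subset ℝ h)
    have h8 : g u = 0 := image_eq_zero_of_notMem_tsupport h6
    simp [h7, h8]
  rw [← setIntegral_eq_integral_of_forall_compl_eq_zero h5]
  refine setIntegral_congr_fun hBo.measurableSet fun u hu => ?_
  have hgu := hgloc u hu
  have hfd : ∀ j, fderiv ℝ g u (Pi.single j 1) = fderiv ℝ G (φ u) (pd φ u j) := by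
    intro j
    rw [hgu.fderiv_eq]
    have h9 : fderiv ℝ (fun u => G (φ u)) u = (fderiv ℝ G (φ u)).comp (fderiv ℝ φ u) :=
      fderiv_comp u (hG.differentiable (by norm_num) _) (hg.smooth.differentiable (by simp) u)
    rw [h9]
    rfl
  simp only [IG, hfd, hgu.self_of_nhds, F, mv]

theorem stk : S_NL → S_PU → S_INT → S_FR → S_FIN → S_CON → S_STK := by
  intro hnl hpu hint hfr hfin _ m n M w y H hH
  have := hfin m n M
  obtain ⟨N, u₀, r, φ, χ, hg, hχ, hχc, hsub, V, hV, hMV, hsum⟩ := hpu m n M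
  change ∫ x, IG w (M.frame x) y H x ∂M.vol = 0
  let G : Fin N → E n → ℂ := fun i x => (χ i x : ℂ) * H x
  have hGd : ∀ i, ContDiff ℝ 1 (G i) := fun i =>
    ContDiff.mul (Complex.ofRealCLM.contDiff.comp ((hχ i).of_le (by exact_mod_cast le_top))) hH
  have hGs : ∀ i, tsupport (G i) ⊆ tsupport (χ i) := fun i => by
    refine closure_mono fun v hv => ?_
    intro h8
    apply hv
    simp [G, h8]
  have h1 : ∀ x ∈ M.carrier, IG w (M.frame x) y H x = ∑ i, IG w (M.frame x) y (G i) x := by
    intro x hx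
    have h2 : H =ᶠ[𝓝 x] fun x => ∑ i, G i x := by
      filter_upwards [hV.mem_nhds (hMV hx)] with z hz
      have h3 : (∑ i, ((χ i z : ℝ) : ℂ)) = 1 := by exact_mod_cast hsum z hz
      simp only [G]
      rw [← Finset.sum_mul, h3, one_mul]
    rw [IG_congr h2]
    unfold IG
    have h4 : fderiv ℝ (fun x => ∑ i, G i x) x = ∑ i, fderiv ℝ (G i) x :=
      fderiv_fun_sum fun i _ => (hGd i).differentiable (by norm_num) x
    rw [h4, Finset.sum_add_distrib]
    have h5 : ∀ i k, (∑ l, fderiv ℝ (G l) x) (M.frame x k) *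
        (((gm w (M.frame x)).adjugate k i * inner ℝ (w i) (x - y) : ℝ) : ℂ) =
        ∑ l, fderiv ℝ (G l) x (M.frame x k) *
        (((gm w (M.frame x)).adjugate k i * inner ℝ (w i) (x - y) : ℝ) : ℂ) := by
      intro i k
      rw [sum_apply, Finset.sum_mul]
    have h6 : (∑ l, (m : ℂ) * G l x * (mv w (M.frame x) : ℂ)) =
        m * (∑ l, G l x) * (mv w (M.frame x) : ℂ) := by
      rw [Finset.mul_sum, Finset.sum_mul]
    rw [h6]
    congr 1
    simp only [h5]
    rw [Finset.sum_comm (s := Finset.univ (α := Fin N))]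
    refine Finset.sum_congr rfl fun i _ => ?_
    rw [Finset.sum_comm]
  rw [integral_congr M h1, integral_finsetSum _ fun i _ =>
    integrable_of_contOn M (IG_cont hfr M w y (hGd i))]
  exact Finset.sum_eq_zero fun i _ => local_zero hnl hint hfr M w y (hGd i) (hg i)
    fun x hx => hsub i ⟨hx.1, hGs i hx.2⟩

end Pool.Agent.Q178.MW.JSTK
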