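import Pool.Agent.Q178.MW.J_CHT
import Pool.Agent.Q178.MW.J_PU

set_option autoImplicit false

open MeasureTheory Set Filter Topology
open scoped ContDiff

namespace Pool.Agent.Q178.MW.JVT

open Pool.Agent.Q178.MW Pool.Agent.Q178.MW.Tools

variable {m n : ℕ}

theorem gram_comp {T : E n → E n} {om : E n → ℝ} {Ω : Set (E n)} (hT : Conf T om Ω)
    {U : Set (P m)} {φ : P m → E n} (hU : IsOpen U) (hφ : ContDiffOn ℝ ∞ φ U) {u : P m}
    (hu : u ∈ U) (hΩ : φ u ∈ Ω) :
    Real.sqrt (mv (pd (T ∘ φ) u) (pd (T ∘ φ) u)) =
      om (φ u) ^ m * Real.sqrt (mv (pd φ u) (pd φ u)) := by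
  have e : gm (pd (T ∘ φ) u) (pd (T ∘ φ) u) = (om (φ u) ^ 2) • gm (pd φ u) (pd φ u) := by
    ext i j
    simp only [gm, Matrix.of_apply, Matrix.smul_apply, smul_eq_mul, pd,
      JCHT.pd_comp hT hU hφ hu hΩ, ContinuousLinearMap.comp_apply]
    exact hT.conf _ hΩ _ _
  rw [mv, e, Matrix.det_smul, Fintype.card_fin, ← pow_mul, mul_comm 2 m, pow_mul]
  have h0 : 0 ≤ om (φ u) ^ m := pow_nonneg (hT.pos _ hΩ).le _
  rw [Real.sqrt_mul (sq_nonneg _), Real.sqrt_sq h0]
  rfl

theorem vt : S_CHT → S_PU → S_INT → S_VT := by
  intro hcht hpu _ m n M M' T om Ω hT hMΩ hI F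
  classical
  have hMm : MeasurableSet M.carrier := meas_carrier M
  have hM'm : MeasurableSet M'.carrier := meas_carrier M'
  -- measurable versions
  set Tm : E n → E n := M.carrier.piecewise T (fun _ => 0) with hTm
  have hTmm : Measurable Tm :=
    (hT.smooth.continuousOn.mono hMΩ).measurable_piecewise continuousOn_const hMm
  have hTme : ∀ x ∈ M.carrier, Tm x = T x := fun x hx => piecewise_eq_of_mem _ _ _ hx
  set ρ : E n → ENNReal := M.carrier.piecewise (fun x => ENNReal.ofReal (om x ^ m)) (fun _ => 0)
    with hρ
  have hρm : Measurable ρ := by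
    refine ContinuousOn.measurable_piecewise ?_ continuousOn_const hMm
    exact ENNReal.continuous_ofReal.comp_continuousOn ((hT.wsmooth.continuousOn.mono hMΩ).pow m)
  have hρe : ∀ x ∈ M.carrier, ρ x = ENNReal.ofReal (om x ^ m) :=
    fun x hx => piecewise_eq_of_mem _ _ _ hx
  have hinj : InjOn T M.carrier := (JCHT.T_inj hT).mono hMΩ
  have hTmi : InjOn Tm M.carrier := fun x hx y hy h => hinj hx hy (by
    rwa [hTme x hx, hTme y hy] at h)
  obtain ⟨N, u₀, r, φ, χ, hg, -, -, hsub, V, hV, hMV, hsum⟩ := hpu m n M
  -- the key equality of measures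
  have key : M'.vol = Measure.map Tm (M.vol.withDensity ρ) := by
    let s : Option (Fin N) → Set (E n) := fun o => match o with
      | none => M'.carrierᶜ
      | some i => T '' (φ i '' Metric.ball (u₀ i) (r i))
    have hmem : ∀ i, ∀ u ∈ Metric.ball (u₀ i) (r i), φ i u ∈ M.carrier := fun i u hu =>
      JTAN.param_mem (hg i).chart.toIsParam hu
    have hWsub : ∀ i, φ i '' Metric.ball (u₀ i) (r i) ⊆ M.carrier := by
      rintro i _ ⟨u, hu, rfl⟩; exact hmem i u hu
    have hWm : ∀ i, MeasurableSet (φ i '' Metric.ball (u₀ i) (r i)) := fun i =>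
      Metric.isOpen_ball.measurableSet.image_of_continuousOn_injOn
        (hg i).smooth.continuous.continuousOn (hg i).chart.inj
    have hs : ⋃ o, s o = univ := by
      refine eq_univ_of_forall fun y => ?_
      by_cases hy : y ∈ M'.carrier
      · rw [hI.1] at hy
        obtain ⟨x, hx, rfl⟩ := hy
        have h1 := hsum x (hMV hx)
        obtain ⟨i, -, hi⟩ : ∃ i ∈ Finset.univ, χ i x ≠ 0 := by
          refine Finset.exists_ne_zero_of_sum_ne_zero ?_
          rw [h1]; exact one_ne_zero
        have h2 : x ∈ tsupport (χ i) := subset_tsupport _ hi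
        exact mem_iUnion.2 ⟨some i, mem_image_of_mem T (hsub i ⟨hx, h2⟩)⟩
      · exact mem_iUnion.2 ⟨none, hy⟩
    rw [Measure.ext_iff_of_iUnion_eq_univ hs]
    intro o
    match o with
    | none =>
      have h1 : M'.vol.restrict M'.carrierᶜ = 0 := Measure.restrict_eq_zero.2 M'.vol_compl
      have h2 : (Measure.map Tm (M.vol.withDensity ρ)).restrict M'.carrierᶜ = 0 := by
        rw [Measure.restrict_eq_zero, Measure.map_apply hTmm hM'm.compl]
        refine measure_mono_null (t := M.carrierᶜ) ?_
          (withDensity_absolutelyContinuous _ _ M.vol_compl)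
        intro x hx hxM
        apply hx
        rw [hTme x hxM, hI.1]
        exact mem_image_of_mem T hxM
      show M'.vol.restrict M'.carrierᶜ = _
      rw [h1]; exact h2.symm
    | some i =>
      show M'.vol.restrict (T '' (φ i '' Metric.ball (u₀ i) (r i))) =
        (Measure.map Tm (M.vol.withDensity ρ)).restrict (T '' (φ i '' Metric.ball (u₀ i) (r i)))
      have hTW : MeasurableSet (T '' (φ i '' Metric.ball (u₀ i) (r i))) :=
        (hWm i).image_of_continuousOn_injOn (hT.smooth.continuousOn.mono ((hWsub i).trans hMΩ))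
          (hinj.mono (hWsub i))
      have hch' := hcht m n M M' T om Ω hT hMΩ hI _ _ (hg i).chart
      have hB : MeasurableSet (Metric.ball (u₀ i) (r i)) := Metric.isOpen_ball.measurableSet
      rw [Measure.restrict_map hTmm hTW]
      have hae : (Tm ⁻¹' (T '' (φ i '' Metric.ball (u₀ i) (r i))) : Set (E n))
          =ᵐ[M.vol.withDensity ρ] φ i '' Metric.ball (u₀ i) (r i) := by
        have h3 : ∀ᵐ x ∂(M.vol.withDensity ρ), x ∈ M.carrier := by
          rw [ae_iff]; exact withDensity_absolutelyContinuous _ _ M.vol_compl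
        filter_upwards [h3] with x hx
        apply propext
        constructor
        · intro hx'
          have hx2 : T x ∈ T '' (φ i '' Metric.ball (u₀ i) (r i)) := by
            have : Tm x ∈ T '' (φ i '' Metric.ball (u₀ i) (r i)) := hx'
            rwa [hTme x hx] at this
          obtain ⟨w, hw, he⟩ := hx2
          have := hinj (hWsub i hw) hx he
          exact this ▸ hw
        · intro hx'
          show Tm x ∈ T '' (φ i '' Metric.ball (u₀ i) (r i))
          rw [hTme x hx]
          exact mem_image_of_mem T hx'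
      rw [Measure.restrict_congr_set hae, restrict_withDensity (hWm i), (M.vol_chart _ _ (hg i).chart),
        ← image_comp, M'.vol_chart _ _ hch']
      set B := Metric.ball (u₀ i) (r i) with hBdef
      set g : P m → ENNReal := fun u => ENNReal.ofReal (Real.sqrt (mv (pd (φ i) u) (pd (φ i) u)))
        with hgd
      set g' : P m → ENNReal := fun u =>
        ENNReal.ofReal (Real.sqrt (mv (pd (T ∘ φ i) u) (pd (T ∘ φ i) u))) with hgd'
      have hφm : Measurable (φ i) := (hg i).smooth.continuous.measurable
      have hga : AEMeasurable g (volume.restrict B) :=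
        JINT.dens_meas (hg i).chart.isOpen (hg i).chart.smooth
      have hgg : ∀ᵐ u ∂(volume.restrict B), g' u = ρ (φ i u) * g u := by
        filter_upwards [ae_restrict_mem hB] with u hu
        rw [hgd', hgd]
        simp only
        rw [gram_comp hT (hg i).chart.isOpen (hg i).chart.smooth hu (hMΩ (hmem i u hu)),
          hρe _ (hmem i u hu), ENNReal.ofReal_mul (pow_nonneg (hT.pos _ (hMΩ (hmem i u hu))).le _)]
      have h4 : Measure.map (T ∘ φ i) ((volume.restrict B).withDensity g') =
          Measure.map (Tm ∘ φ i) ((volume.restrict B).withDensity g') := by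
        refine Measure.map_congr ?_
        have h5 : ∀ᵐ u ∂((volume.restrict B).withDensity g'), u ∈ B :=
          (withDensity_absolutelyContinuous _ _).ae_le (ae_restrict_mem hB)
        filter_upwards [h5] with u hu
        exact (hTme _ (hmem i u hu)).symm
      rw [h4, withDensity_congr_ae hgg]
      ext S hS
      rw [Measure.map_apply (hTmm.comp hφm) hS, Measure.map_apply hTmm hS,
        withDensity_apply _ ((hTmm.comp hφm) hS), withDensity_apply _ (hTmm hS),
        Measure.restrict_map hφm (hTmm hS), lintegral_map hρm hφm, restrict_withDensity (hφm (hTmm hS)),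
        lintegral_withDensity_eq_lintegral_mul₀' ?_ ?_]
      · rw [preimage_comp]
        refine lintegral_congr fun u => ?_
        simp only [Pi.mul_apply, Function.comp_apply]
        rw [mul_comm]
      · exact hga.restrict
      · exact (hρm.comp hφm).aemeasurable
  -- integrals of arbitrary functions
  rw [key]
  set ν := M.vol.withDensity ρ with hν
  have hνM : ν.restrict M.carrier = ν := by
    rw [hν, restrict_withDensity hMm, restrict_carrier]
  have hemb : MeasurableEmbedding (M.carrier.domRestrict Tm) := by
    refine ContinuousOn.measurableEmbedding hMm ?_ hTmi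
    exact (hT.smooth.continuousOn.mono hMΩ).congr hTme
  have hval : MeasurableEmbedding (Subtype.val : M.carrier → E n) :=
    MeasurableEmbedding.subtype_coe hMm
  have h2 : ν = Measure.map Subtype.val (ν.comap (Subtype.val : M.carrier → E n)) := by
    rw [hval.map_comap, Subtype.range_coe, hνM]
  have h3 : Measure.map Tm ν =
      Measure.map (M.carrier.domRestrict Tm) (ν.comap (Subtype.val : M.carrier → E n)) := by
    conv_lhs => rw [h2]
    rw [Measure.map_map hTmm hval.measurable]
    rfl
  rw [h3, hemb.integral_map]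
  have h4 : ∫ x, F (M.carrier.domRestrict Tm x) ∂(ν.comap (Subtype.val : M.carrier → E n)) =
      ∫ x, F (Tm x) ∂ν := by
    conv_rhs => rw [h2]
    rw [hval.integral_map]
    rfl
  rw [h4, hν, integral_withDensity_eq_integral_toReal_smul₀ hρm.aemeasurable ?_]
  · refine integral_congr_ae ?_
    filter_upwards [ae_mem M] with x hx
    rw [hρe x hx, hTme x hx, ENNReal.toReal_ofReal (pow_nonneg (hT.pos x (hMΩ hx)).le _),
      Complex.real_smul]
  · filter_upwards [ae_mem M] with x hx
    rw [hρe x hx]; exact ENNReal.ofReal_lt_top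

end Pool.Agent.Q178.MW.JVT
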