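import Pool.Agent.Q178.MW.Tools

set_option autoImplicit false

open MeasureTheory Set Filter Topology
open scoped ContDiff

namespace Pool.Agent.Q178.MW.JWEA

open Pool.Agent.Q178.MW Pool.Agent.Q178.MW.Tools

variable {m n : ℕ}

theorem mv_cont (hcon : S_CON) (M : Sub m n) :
    ContinuousOn (fun p : E n × E n => (mv (M.frame p.1) (M.frame p.2) : ℂ))
      (M.carrier ×ˢ M.carrier) :=
  Complex.continuous_ofReal.comp_continuousOn (hcon m n M).1

theorem cc_cont (hcon : S_CON) (M : Sub m n) :
    ContinuousOn (fun p : E n × E n => (cc (M.frame p.1) (M.frame p.2) (p.1 - p.2) : ℂ))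
      (M.carrier ×ˢ M.carrier) :=
  Complex.continuous_ofReal.comp_continuousOn (hcon m n M).2.1

theorem pw_cont₂ {z : ℂ} (hz : 0 < z.re) :
    Continuous (fun p : E n × E n => pw (p.1 - p.2) z) :=
  (pw_cont hz).comp (continuous_fst.sub continuous_snd)

theorem KK_cont (hcon : S_CON) (M : Sub m n) {z : ℂ} (hz : 2 < z.re) :
    ContinuousOn (fun p : E n × E n => KK z (M.frame p.1) (M.frame p.2) (p.1 - p.2))
      (M.carrier ×ˢ M.carrier) := by
  unfold KK
  refine ContinuousOn.sub ?_ ?_
  · exact (mv_cont hcon M).mul (pw_cont₂ (by linarith)).continuousOn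
  · exact (continuousOn_const.mul (cc_cont hcon M)).mul
      (pw_cont₂ (by simp; linarith)).continuousOn

theorem mp_cont (hcon : S_CON) (M : Sub m n) {z : ℂ} (hz : 2 < z.re) :
    ContinuousOn (fun p : E n × E n => (mv (M.frame p.1) (M.frame p.2) : ℂ) * pw (p.1 - p.2) z)
      (M.carrier ×ˢ M.carrier) :=
  (mv_cont hcon M).mul (pw_cont₂ (by linarith)).continuousOn

theorem snd_cont {M : Sub m n} {h : E n → ℂ} (hh : ContinuousOn h M.carrier) :
    ContinuousOn (fun p : E n × E n => h p.2) (M.carrier ×ˢ M.carrier) :=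
  hh.comp continuousOn_snd fun _ hp => hp.2

theorem fst_cont {M : Sub m n} {h : E n → ℂ} (hh : ContinuousOn h M.carrier) :
    ContinuousOn (fun p : E n × E n => h p.1) (M.carrier ×ˢ M.carrier) :=
  hh.comp continuousOn_fst fun _ hp => hp.1

theorem swap (M : Sub m n) [IsFiniteMeasure M.vol] {f : E n → E n → ℂ}
    (hf : ContinuousOn (fun p : E n × E n => f p.1 p.2) (M.carrier ×ˢ M.carrier)) :
    ∫ x, ∫ y, f x y ∂M.vol ∂M.vol = ∫ y, ∫ x, f x y ∂M.vol ∂M.vol :=
  integral_integral_swap (integrable_prod_of_contOn M hf)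

theorem slice {M : Sub m n} {f : E n → E n → ℂ}
    (hf : ContinuousOn (fun p : E n × E n => f p.1 p.2) (M.carrier ×ˢ M.carrier)) {y : E n}
    (hy : y ∈ M.carrier) : ContinuousOn (fun x => f x y) M.carrier :=
  hf.comp (continuousOn_id.prodMk continuousOn_const) fun _ hx => ⟨hx, hy⟩

theorem KK_symm (hfr : S_FR) (z : ℂ) (v w : Fin m → E n) (x y : E n) :
    KK z w v (y - x) = KK z v w (x - y) := by
  have h1 := (hfr.2 m n v w (x - y)).1
  have h2 := (hfr.2 m n v w (x - y)).2
  have h3 : cc w v (y - x) = cc w v (x - y) := by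
    rw [← neg_sub x y]
    simp only [cc, inner_neg_left, inner_neg_right]
    refine Finset.sum_congr rfl fun i _ => Finset.sum_congr rfl fun j _ => ?_
    ring
  have h4 : ∀ z : ℂ, pw (y - x) z = pw (x - y) z := by
    intro z; rw [pw, pw, norm_sub_rev]
  unfold KK
  rw [h3, h4, h4, ← h1, ← h2]

theorem wea : S_EA → S_FR → S_FIN → S_CON → S_WEA := by
  intro hea hfr hfin hcon m n M h z hz hh
  have := hfin m n M
  have hz0 : z ≠ 0 := by rintro rfl; norm_num at hz
  have hK := KK_cont hcon M hz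
  have hKh : ContinuousOn (fun p : E n × E n =>
      KK z (M.frame p.1) (M.frame p.2) (p.1 - p.2) * h p.2) (M.carrier ×ˢ M.carrier) :=
    hK.mul (snd_cont hh)
  have hP := mp_cont hcon M hz
  have hPh : ContinuousOn (fun p : E n × E n =>
      (mv (M.frame p.1) (M.frame p.2) : ℂ) * pw (p.1 - p.2) z * h p.2) (M.carrier ×ˢ M.carrier) :=
    hP.mul (snd_cont hh)
  have key : ∀ y ∈ M.carrier, ∫ x, KK z (M.frame x) (M.frame y) (x - y) ∂M.vol =
      ((z + 2 * m) / z) * ∫ x, (mv (M.frame x) (M.frame y) : ℂ) * pw (x - y) z ∂M.vol := by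
    intro y hy
    have h1 := hea m n M (M.frame y) y z hz
    have i1 : Integrable (fun x => (mv (M.frame x) (M.frame y) : ℂ) * pw (x - y) z) M.vol :=
      integrable_of_contOn M (slice (f := fun x y =>
        (mv (M.frame x) (M.frame y) : ℂ) * pw (x - y) z) hP hy)
    have i2 : Integrable (fun x => (cc (M.frame x) (M.frame y) (x - y) : ℂ) * pw (x - y) (z - 2))
        M.vol :=
      integrable_of_contOn M (slice (f := fun x y =>
        (cc (M.frame x) (M.frame y) (x - y) : ℂ) * pw (x - y) (z - 2))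
        ((cc_cont hcon M).mul (pw_cont₂ (by simp; linarith)).continuousOn) hy)
    have e1 : ∫ x, KK z (M.frame x) (M.frame y) (x - y) ∂M.vol =
        ∫ x, (mv (M.frame x) (M.frame y) : ℂ) * pw (x - y) z ∂M.vol -
        2 * ∫ x, (cc (M.frame x) (M.frame y) (x - y) : ℂ) * pw (x - y) (z - 2) ∂M.vol := by
      rw [← integral_const_mul, ← integral_sub i1 (i2.const_mul 2)]
      refine integral_congr_ae (Eventually.of_forall fun x => ?_)
      simp only [KK]; ring
    have e2 : ∫ x, (cc (M.frame y) (M.frame x) (x - y) : ℂ) * pw (x - y) (z - 2) ∂M.vol =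
        ∫ x, (cc (M.frame x) (M.frame y) (x - y) : ℂ) * pw (x - y) (z - 2) ∂M.vol := by
      refine integral_congr_ae (Eventually.of_forall fun x => ?_)
      simp only [(hfr.2 m n (M.frame y) (M.frame x) (x - y)).2]
    have e3 : ∫ x, (mv (M.frame y) (M.frame x) : ℂ) * pw (x - y) z ∂M.vol =
        ∫ x, (mv (M.frame x) (M.frame y) : ℂ) * pw (x - y) z ∂M.vol := by
      refine integral_congr_ae (Eventually.of_forall fun x => ?_)
      simp only [(hfr.2 m n (M.frame y) (M.frame x) (x - y)).1]
    rw [e2, e3] at h1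
    rw [e1]
    field_simp
    linear_combination (-2) * h1
  have first : ∫ x, ∫ y, KK z (M.frame x) (M.frame y) (x - y) * h y ∂M.vol ∂M.vol =
      ((z + 2 * m) / z) *
        ∫ x, ∫ y, (mv (M.frame x) (M.frame y) : ℂ) * pw (x - y) z * h y ∂M.vol ∂M.vol := by
    have s1 := swap M (f := fun x y => KK z (M.frame x) (M.frame y) (x - y) * h y) hKh
    have s2 := swap M (f := fun x y =>
      (mv (M.frame x) (M.frame y) : ℂ) * pw (x - y) z * h y) hPh
    rw [s1, s2, ← integral_const_mul]
    refine integral_congr M fun y hy => ?_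
    rw [integral_mul_const, integral_mul_const, key y hy]
    ring
  refine ⟨first, ?_⟩
  have s1 := swap M (f := fun x y => KK z (M.frame x) (M.frame y) (x - y) * h y) hKh
  rw [← first, s1]
  refine integral_congr₂ M fun x _ y _ => ?_
  rw [KK_symm hfr z (M.frame y) (M.frame x) y x]

end Pool.Agent.Q178.MW.JWEA
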