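import Pool.Agent.Q178.MW.Defs

/-!
# Möbius invariance of the `ν`-weighted energies: statements of the steps

**The paper proof.** Notation: `λ(x,y) = ⟨T_x M, T_y M⟩ = det ⟨b_i(x), b_j(y)⟩ = mv (b x) (b y)`,
`r = |x - y|`, `d = x - y`, `C(x,y) = cc (b x) (b y) d` (so that
`λ - 2 C / r² = det ⟨b_i(x), R_d b_j(y)⟩`, `R_d` the reflection in the hyperplane `d^⊥`),
`K_z = λ r^z - 2 C r^{z-2}`, `s = z + 2 m`.

1. *Stokes in one variable* (`S_STK`, `S_EA`): for a fixed `y` and fixed vectors `w_1..w_m`,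
   `z ∫ cc w (b x) (x-y) r^{z-2} dv(x) + m ∫ mv w (b x) r^z dv(x) = 0` for `Re z > 2`. Hence
   `∬ K_z(x,y) h(y) = (1 + 2m/z) ∬ λ r^z h(y) = (s/z) ∬ λ r^z h(y)` for every weight `h` (`S_WEA`).
2. *Covariance* (`S_PC`, `S_VT`, `S_EPR`): for a conformal `T` with `|Tx-Ty|² = om(x) om(y) |x-y|²`,
   `L = ½ log om`: `∬_{M'} K'_z = ∬_M K_z e^{s L(x)} e^{s L(y)}`.
3. So `A'(z) = (z/s) ∬ K_z e^{sL(x)} e^{sL(y)}` and
   `A'(z) - A(z) = (z/s) ∬ K_z (e^{sL(x)}-1)(e^{sL(y)}-1) + 2 ∬ λ r^z (e^{sL(y)}-1)`; as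
   `e^{sL}-1 = s L ∫_0^1 e^{s σ L} dσ`, we get `A' - A = s Q(z)` (`S_DIF`).
4. `Q` continues meromorphically; at `z = -2m` it has at most a simple pole (no pole if `m` is
   odd) (`S_CONT`; local version `S_LL` by polar coordinates in a chart and integration by parts).
So `A' - A` is regular at `-2m`, with value `0` if `m` is odd.
-/

set_option autoImplicit false

open MeasureTheory Set Filter Topology
open scoped ContDiff

namespace Pool.Agent.Q178.MW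

/-- the power `|d|^z` -/
noncomputable def pw {n : ℕ} (d : E n) (z : ℂ) : ℂ := ((‖d‖ : ℝ) : ℂ) ^ z

/-- the kernel `K_z` -/
noncomputable def KK {m n : ℕ} (z : ℂ) (v w : Fin m → E n) (d : E n) : ℂ :=
  (mv v w : ℂ) * pw d z - 2 * (cc v w d : ℂ) * pw d (z - 2)

/-- a conformal map `T` on the open set `Ω`, with conformal factor `om` -/
structure Conf {n : ℕ} (T : E n → E n) (om : E n → ℝ) (Ω : Set (E n)) : Prop where
  isOpen : IsOpen Ω
  smooth : ContDiffOn ℝ ∞ T Ω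
  wsmooth : ContDiffOn ℝ ∞ om Ω
  pos : ∀ x ∈ Ω, 0 < om x
  dist : ∀ x ∈ Ω, ∀ y ∈ Ω, ‖T x - T y‖ ^ 2 = om x * om y * ‖x - y‖ ^ 2
  conf : ∀ x ∈ Ω, ∀ v w : E n,
    inner ℝ (fderiv ℝ T x v) (fderiv ℝ T x w) = om x ^ 2 * inner ℝ v w
  refl : ∀ x ∈ Ω, ∀ y ∈ Ω, x ≠ y → ∀ v w : E n,
    inner ℝ (fderiv ℝ T x v) (fderiv ℝ T y w) -
      2 * inner ℝ (fderiv ℝ T x v) (T x - T y) * inner ℝ (T x - T y) (fderiv ℝ T y w) /
        ‖T x - T y‖ ^ 2 =
    om x * om y * (inner ℝ v w - 2 * inner ℝ v (x - y) * inner ℝ (x - y) w / ‖x - y‖ ^ 2)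

/-! ### Linear algebra -/

/-- **FR** (change of frames). `b` orthonormal, `p_j ∈ span b`, i.e. `p_j = ∑_k A_{kj} b_k` with
`A_{kj} = ⟨b_k, p_j⟩`, `det A = mv b p`. Then `gm w p = gm w b * A`, so
`mv w p = mv w b * mv b p`; `adj (N A) = adj A * adj N` gives `cc w p d = cc w b d * mv b p`
(`⟨d, p_j⟩ = ∑_k ⟨d,b_k⟩ A_{kj}` and `A * adj A = det A`); `gm p p = Aᵀ A`, so
`mv p p = (mv b p)²`. Symmetry of `mv`, `cc`: transpose. -/
def S_FR : Prop :=
  (∀ (m n : ℕ) (b p w : Fin m → E n) (d : E n), Orthonormal ℝ b →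
    (∀ j, p j ∈ Submodule.span ℝ (range b)) →
    mv w p = mv w b * mv b p ∧ cc w p d = cc w b d * mv b p ∧ mv p p = (mv b p) ^ 2) ∧
  (∀ (m n : ℕ) (v w : Fin m → E n) (d : E n), mv v w = mv w v ∧ cc v w d = cc w v d)

/-- **RF** (rank one update): `det (N - 2 a cᵀ / |d|²) = det N - 2 (cᵀ adj(N) a) / |d|²`, with
`N = gm v w`, `a_i = ⟨v_i, d⟩`, `c_j = ⟨d, w_j⟩`. (If `N` is invertible this is
`Matrix.det_add_replicateCol_mul_replicateRow` or similar; in general: multilinearity, or the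
polynomial `t ↦ det (N + t 1)`.) -/
def S_RF : Prop :=
  ∀ (m n : ℕ) (v w : Fin m → E n) (d : E n),
    (Matrix.of fun i j => inner ℝ (v i) (w j) -
      2 * inner ℝ (v i) d * inner ℝ d (w j) / ‖d‖ ^ 2 : Matrix (Fin m) (Fin m) ℝ).det =
    mv v w - 2 * cc v w d / ‖d‖ ^ 2

/-! ### Möbius transformations are conformal -/

/-- **MOB**. For a similarity `T x = ρ Q x + p`: `Ω = univ`, `om = ρ`. For `T = S ∘ inv c`:
`Ω = {c}ᶜ`, `om x = ρ / ‖x - c‖²`. `D inv_c (x) v = |x-c|⁻² (v - 2 ⟨x-c, v⟩ (x-c) / |x-c|²)`, and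
`inv_c x - inv_c y` is computed directly; `refl` is the identity `R_x R_{x'-y'} R_y = R_{x-y}`
(polynomial identity in the scalar products of `x, y, v, w` after multiplication with the
denominators, `‖x'-y'‖² = ‖x-y‖² / (‖x‖² ‖y‖²)`; `field_simp; ring` after expressing everything
with `⟨x,x⟩, ⟨x,y⟩, ⟨y,y⟩, ⟨x,v⟩, ⟨y,v⟩, ⟨x,w⟩, ⟨y,w⟩, ⟨v,w⟩`). -/
def S_MOB : Prop :=
  ∀ (n : ℕ) (T : E n → E n) (M : Set (E n)), IsMoebius T M →
    ∃ (om : E n → ℝ) (Ω : Set (E n)), M ⊆ Ω ∧ Conf T om Ω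

/-! ### Geometry of the submanifold -/

/-- **TAN** (the tangent space does not depend on the parametrization). An immersion `φ'` has a
smooth local left inverse `ψ'` (`ψ' = θ ∘ p`, `p` a linear left inverse of `Dφ'(u')`, `θ` a local
inverse of `p ∘ φ'`, inverse function theorem) with `ψ' ∘ φ' = id` near `u'`; by `image`, near
`x = φ u = φ' u'` every point of `M` is `φ' (ψ' ·)`; so `φ = φ' ∘ ψ' ∘ φ` near `u`, hence
`range Dφ(u) ⊆ range Dφ'(u')`; by symmetry equality. -/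
def S_TAN : Prop :=
  ∀ (m n : ℕ) (M : Set (E n)) (U U' : Set (P m)) (φ φ' : P m → E n) (u u' : P m),
    IsParam M U φ → IsParam M U' φ' → u ∈ U → u' ∈ U' → φ u = φ' u' →
    LinearMap.range (fderiv ℝ φ u : P m →ₗ[ℝ] E n) =
      LinearMap.range (fderiv ℝ φ' u' : P m →ₗ[ℝ] E n)

/-- **CHT** (the image under `T` of a chart of `M` is a chart of `M'`). `T` is injective on `Ω`
by `dist`, `DT_x` is injective by `conf`. Relative openness: `T '' (M ∩ V) = M' ∩ (T '' (M \ V))ᶜ`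
and `T '' (M \ V)` is compact. Tangent: `TAN` with a chart of `M'` at the point. Orientation:
`pd (T ∘ φ) u j = DT (pd φ u j) = ∑_k A_{kj} DT (b_k)`, so `mv b' (pd (T∘φ) u) = det A * mv b' (DT b)`
with `det A = mv b (pd φ u) > 0`. -/
def S_CHT : Prop :=
  ∀ (m n : ℕ) (M M' : Sub m n) (T : E n → E n) (om : E n → ℝ) (Ω : Set (E n)), Conf T om Ω →
    M.carrier ⊆ Ω → IsImage T M M' → ∀ (U : Set (P m)) (φ : P m → E n),
    IsChart M.carrier M.frame U φ → IsChart M'.carrier M'.frame U (T ∘ φ)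

/-- **FIN** the volume is finite: every point has a chart; a smaller ball around the point is
mapped onto a relatively open set of finite volume (`vol_chart` for the restricted chart); compactness. -/
def S_FIN : Prop := ∀ (m n : ℕ) (M : Sub m n), IsFiniteMeasure M.vol

/-- **INT** integration in a chart, for every function `F` (no measurability needed: a continuous
injective map on an open set is a measurable embedding, `ContinuousOn.measurableEmbedding`). -/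
def S_INT : Prop :=
  ∀ (m n : ℕ) (M : Sub m n) (U : Set (P m)) (φ : P m → E n), IsChart M.carrier M.frame U φ →
    ∀ F : E n → ℂ, (∀ x ∈ M.carrier, x ∉ φ '' U → F x = 0) →
    ∫ x, F x ∂M.vol = ∫ u in U, (Real.sqrt (mv (pd φ u) (pd φ u)) : ℂ) * F (φ u)

/-- a chart defined on a ball, with a globally smooth `φ` -/
structure GoodChart {m n : ℕ} (M : Sub m n) (u₀ : P m) (ρ : ℝ) (φ : P m → E n) : Prop where
  pos : 0 < ρ
  smooth : ContDiff ℝ ∞ φ
  chart : IsChart M.carrier M.frame (Metric.ball u₀ ρ) φ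

/-- **PU** (partition of unity). Every point has a chart, which may be replaced by a good chart:
multiply `φ` with a bump function which is `1` on a smaller ball. Then take a finite cover and a
smooth partition of unity (`SmoothPartitionOfUnity.exists_isSubordinate`, or by hand: bump
functions `β_i` with `∑ β_i > 0` on `M`, divided by a smooth function which equals `∑ β_i` near
`M`). -/
def S_PU : Prop :=
  ∀ (m n : ℕ) (M : Sub m n), ∃ (N : ℕ) (u₀ : Fin N → P m) (ρ : Fin N → ℝ)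
    (φ : Fin N → P m → E n) (χ : Fin N → E n → ℝ),
    (∀ i, GoodChart M (u₀ i) (ρ i) (φ i)) ∧ (∀ i, ContDiff ℝ ∞ (χ i)) ∧
    (∀ i, HasCompactSupport (χ i)) ∧
    (∀ i, M.carrier ∩ tsupport (χ i) ⊆ φ i '' Metric.ball (u₀ i) (ρ i)) ∧
    ∃ V : Set (E n), IsOpen V ∧ M.carrier ⊆ V ∧ ∀ x ∈ V, ∑ i, χ i x = 1

/-- **CON** continuity of the kernels on `M × M` (in a chart `mv w (b (φ u)) =
mv w (pd φ u) / √(mv (pd φ u) (pd φ u))` by `FR`; images of charts are relatively open and `φ` is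
a homeomorphism onto its image by `image`). -/
def S_CON : Prop :=
  ∀ (m n : ℕ) (M : Sub m n),
    ContinuousOn (fun p : E n × E n => mv (M.frame p.1) (M.frame p.2)) (M.carrier ×ˢ M.carrier) ∧
    ContinuousOn (fun p : E n × E n => cc (M.frame p.1) (M.frame p.2) (p.1 - p.2))
      (M.carrier ×ˢ M.carrier) ∧
    (∀ w : Fin m → E n, ContinuousOn (fun x => mv w (M.frame x)) M.carrier) ∧
    (∀ (w : Fin m → E n) (y : E n), ContinuousOn (fun x => cc w (M.frame x) (x - y)) M.carrier)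

/-- **VT** change of variables: `φ` a chart of `M`, `T ∘ φ` a chart of `M'` (`CHT`) with
`mv (pd (T∘φ) u) (pd (T∘φ) u) = om^{2m} mv (pd φ u) (pd φ u)`. Use a finite cover of `M` by charts, or
the partition of unity. -/
def S_VT : Prop :=
  ∀ (m n : ℕ) (M M' : Sub m n) (T : E n → E n) (om : E n → ℝ) (Ω : Set (E n)), Conf T om Ω →
    M.carrier ⊆ Ω → IsImage T M M' → ∀ F : E n → ℂ,
    ∫ x, F x ∂M'.vol = ∫ x, ((om x ^ m : ℝ) : ℂ) * F (T x) ∂M.vol

/-! ### The divergence theorem -/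

/-- **NL** (null Lagrangian). `Helper930.BL` (`H248.BH.X1a.null_lagrangian_C1`): for `f` smooth and
`h` of class `C¹` with compact support, `∫ det (updateRow (Df) i (∇h)) = 0`. Apply it with `f = F`
(or `F` cut off) and `h = g F_i` (real and imaginary part), and sum over `i`:
`∇(g F_i) = F_i ∇g + g ∇F_i`, `det (updateRow DF i ∇F_i) = det DF`, and
`det (updateRow DF i ∇g) = ∑_j ∂_j g adj(DF)_{ji}` (`Matrix.cramer`, `adjugate`). -/
def S_NL : Prop :=
  ∀ (m : ℕ) (F : P m → P m) (g : P m → ℂ), ContDiff ℝ ∞ F → ContDiff ℝ 1 g → HasCompactSupport g →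
    ∫ u, ((∑ i, ∑ j, fderiv ℝ g u (Pi.single j 1) *
      (((Matrix.of fun i j => fderiv ℝ F u (Pi.single j 1) i :
        Matrix (Fin m) (Fin m) ℝ).adjugate j i * F u i : ℝ) : ℂ)) +
      m * g u * (((Matrix.of fun i j => fderiv ℝ F u (Pi.single j 1) i :
        Matrix (Fin m) (Fin m) ℝ).det : ℝ) : ℂ)) = 0

/-- **STK** (Stokes' theorem on the closed manifold `M`). In a good chart let
`F_i(u) = ⟨w_i, φ(u) - y⟩`, so that `DF(u) = gm w (pd φ u)`, and `g = (χ H) ∘ φ` (cut off to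
compact support). `NL` gives the identity for `χ_i H` instead of `H` (transform with `INT` and
`FR`: the integrand at `x = φ u` times `√mv(pd,pd) = mv b (pd φ u) = det A` is the integrand of
`NL`: `∂_j g = D(χH)(pd φ u j) = ∑_k A_{kj} D(χH)(b_k)`, `adj (N A) = adj A adj N`,
`A adj A = det A`). Sum over `i`; near `M` we have `∑ χ_i = 1`, `∑ χ_i H = H`. -/
def S_STK : Prop :=
  ∀ (m n : ℕ) (M : Sub m n) (w : Fin m → E n) (y : E n) (H : E n → ℂ), ContDiff ℝ 1 H →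
    ∫ x, ((∑ i, ∑ j, fderiv ℝ H x (M.frame x j) *
      (((gm w (M.frame x)).adjugate j i * inner ℝ (w i) (x - y) : ℝ) : ℂ)) +
      m * H x * (mv w (M.frame x) : ℂ)) ∂M.vol = 0

/-- **POW** `|x - y|^z` is `C¹` for `Re z > 1`. -/
def S_POW : Prop :=
  ∀ (n : ℕ) (y : E n) (z : ℂ), 1 < z.re → ContDiff ℝ 1 (fun x : E n => pw (x - y) z) ∧
    ∀ x v : E n, fderiv ℝ (fun x : E n => pw (x - y) z) x v =
      z * pw (x - y) (z - 2) * ((inner ℝ (x - y) v : ℝ) : ℂ)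

/-- **EA** = `STK` for `H = |x-y|^z`. -/
def S_EA : Prop :=
  ∀ (m n : ℕ) (M : Sub m n) (w : Fin m → E n) (y : E n) (z : ℂ), 2 < z.re →
    z * ∫ x, (cc w (M.frame x) (x - y) : ℂ) * pw (x - y) (z - 2) ∂M.vol +
      m * ∫ x, (mv w (M.frame x) : ℂ) * pw (x - y) z ∂M.vol = 0

/-- **WEA** integrate `EA` (`w = b y`) against `h y dv(y)`; Fubini (`FIN`, `CON`), symmetry. -/
def S_WEA : Prop :=
  ∀ (m n : ℕ) (M : Sub m n) (h : E n → ℂ) (z : ℂ), 2 < z.re → ContinuousOn h M.carrier →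
    ∫ x, ∫ y, KK z (M.frame x) (M.frame y) (x - y) * h y ∂M.vol ∂M.vol =
      ((z + 2 * m) / z) *
        ∫ x, ∫ y, (mv (M.frame x) (M.frame y) : ℂ) * pw (x - y) z * h y ∂M.vol ∂M.vol ∧
    ∫ x, ∫ y, KK z (M.frame x) (M.frame y) (x - y) * h x ∂M.vol ∂M.vol =
      ((z + 2 * m) / z) *
        ∫ x, ∫ y, (mv (M.frame x) (M.frame y) : ℂ) * pw (x - y) z * h y ∂M.vol ∂M.vol

/-! ### Covariance -/

/-- **PC** (pointwise covariance). Let `a_i(x) = om(x)⁻¹ DT_x b_i(x)`, orthonormal by `conf`, in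
the span of `b' := M'.frame (T x)` (`CHT`) and positively oriented: so
`mv b' a = 1` (`FR`: `1 = mv a a = (mv b' a)²`), and `FR` allows to replace `b'(Tx)`, `b'(Ty)` by
`a(x)`, `a(y)`; then `RF` and `Conf.refl`, `RF` again. -/
def S_PC : Prop :=
  ∀ (m n : ℕ) (M M' : Sub m n) (T : E n → E n) (om : E n → ℝ) (Ω : Set (E n)), Conf T om Ω →
    M.carrier ⊆ Ω → IsImage T M M' → ∀ x ∈ M.carrier, ∀ y ∈ M.carrier, x ≠ y →
    mv (M'.frame (T x)) (M'.frame (T y)) -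
      2 * cc (M'.frame (T x)) (M'.frame (T y)) (T x - T y) / ‖T x - T y‖ ^ 2 =
    mv (M.frame x) (M.frame y) - 2 * cc (M.frame x) (M.frame y) (x - y) / ‖x - y‖ ^ 2

/-- **EPR** `VT` (twice) and `PC`: `K'_z(Tx,Ty) om(x)^m om(y)^m = K_z(x,y) (om(x) om(y))^{z/2+m}`,
`|Tx-Ty|^z = (om(x)om(y))^{z/2} |x-y|^z`, `om^{z/2+m} = e^{(z+2m) L}`. -/
def S_EPR : Prop :=
  ∀ (m n : ℕ) (M M' : Sub m n) (T : E n → E n) (om : E n → ℝ) (Ω : Set (E n)), Conf T om Ω →
    M.carrier ⊆ Ω → IsImage T M M' → ∀ L : E n → ℝ, (∀ x ∈ M.carrier, L x = Real.log (om x) / 2) →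
    ∀ z : ℂ, 2 < z.re →
    ∫ x, ∫ y, KK z (M'.frame x) (M'.frame y) (x - y) ∂M'.vol ∂M'.vol =
      ∫ x, ∫ y, KK z (M.frame x) (M.frame y) (x - y) *
        (Complex.exp ((z + 2 * m) * L x) * Complex.exp ((z + 2 * m) * L y)) ∂M.vol ∂M.vol

/-- the unit square -/
def box : Set (ℝ × ℝ) := Icc (0 : ℝ) 1 ×ˢ Icc (0 : ℝ) 1

/-- first kind of kernel integral -/
noncomputable def KI {m n : ℕ} (M : Sub m n) (α : E n → E n → ℝ × ℝ → ℂ)
    (l : E n → E n → ℝ × ℝ → ℝ) (z : ℂ) : ℂ :=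
  ∫ s in box, ∫ x, ∫ y, (mv (M.frame x) (M.frame y) : ℂ) * α x y s *
    Complex.exp (z * l x y s) * pw (x - y) z ∂M.vol ∂M.vol

/-- second kind of kernel integral -/
noncomputable def KJ {m n : ℕ} (M : Sub m n) (α : E n → E n → ℝ × ℝ → ℂ)
    (l : E n → E n → ℝ × ℝ → ℝ) (z : ℂ) : ℂ :=
  ∫ s in box, ∫ x, ∫ y, (cc (M.frame x) (M.frame y) (x - y) : ℂ) * α x y s *
    Complex.exp (z * l x y s) * pw (x - y) (z - 2) ∂M.vol ∂M.vol

/-- the exponent `s_1 L(x) + s_2 L(y)` -/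
noncomputable def ll {n : ℕ} (L : E n → ℝ) (x y : E n) (s : ℝ × ℝ) : ℝ := s.1 * L x + s.2 * L y

/-- the function `Q` -/
noncomputable def QQ {m n : ℕ} (M : Sub m n) (L : E n → ℝ) (z : ℂ) : ℂ :=
  z * (KI M (fun x y s => (L x * L y * Real.exp (2 * m * ll L x y s) : ℝ)) (ll L) z -
    2 * KJ M (fun x y s => (L x * L y * Real.exp (2 * m * ll L x y s) : ℝ)) (ll L) z) +
  2 * KI M (fun _ y s => (L y * Real.exp (2 * m * (s.2 * L y)) : ℝ)) (fun _ y s => s.2 * L y) z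

/-- **DIF** `A' = A + (z + 2m) Q` (step 3 of the paper proof; `WEA` for `M` with `h = 1`,
`h = e^{sL}`, `WEA` for `M'` with `h = 1`, `EPR`; Fubini). -/
def S_DIF : Prop :=
  ∀ (m n : ℕ) (M M' : Sub m n) (T : E n → E n) (om : E n → ℝ) (Ω : Set (E n)), Conf T om Ω →
    M.carrier ⊆ Ω → IsImage T M M' → ∀ L : E n → ℝ, ContDiff ℝ ∞ L →
    (∀ x ∈ M.carrier, L x = Real.log (om x) / 2) →
    ∀ z : ℂ, 2 < z.re → energy M' z = energy M z + (z + 2 * m) * QQ M L z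

/-! ### Continuation -/

/-- `I`, given for `Re z > 2`, continues to `Re z > -(2m+1)`, with at most simple poles, in
`-m, -m-1, …, -2m`, and no pole in `-2m` if `m` is odd. -/
def Good (m : ℕ) (I : ℂ → ℂ) : Prop :=
  ∃ J : ℂ → ℂ, DifferentiableOn ℂ J {z | -(2 * m + 1 : ℝ) < z.re} ∧
    (∀ z : ℂ, 2 < z.re → J z = (∏ j ∈ Finset.range (m + 1), (z + m + j)) * I z) ∧
    (Odd m → J (-2 * m) = 0)

/-- **LAP** (analytic dependence on the parameter). Proof: `hasDerivAt_integral_of_dominated_loc_of_deriv_le`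
with the bound `|c| |l| e^{x l} ≤ C |c| (e^{(x+ε) l} + e^{(x-ε) l})`; or `ProbabilityTheory.complexMGF`
for the four parts of `c`. -/
def S_LAP : Prop :=
  ∀ (X : Type) [MeasurableSpace X] (ν : Measure X) (c : X → ℂ) (l : X → ℝ) (O : Set ℝ),
    IsOpen O → AEStronglyMeasurable c ν → AEStronglyMeasurable l ν →
    (∀ t ∈ O, Integrable (fun x => c x * Complex.exp ((t * l x : ℝ) : ℂ)) ν) →
    DifferentiableOn ℂ (fun z : ℂ => ∫ x, c x * Complex.exp (z * l x) ∂ν) {z | z.re ∈ O}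

/-- **MEL** (continuation of a Mellin transform with parameters). For fixed `k`, integration by
parts `m+1` times: `∏_{j≤m} (z+m+j) ∫_0^∞ t^{z+m-1} G(t) dt = (-1)^{m+1} ∫_0^∞ t^{z+2m} G^{(m+1)}(t) dt`
for `G(t) = f(t,k) e^{z g(t,k)}`. By induction `∂_t^N (f e^{z g}) = ∑_{i ≤ N} z^i c_{N,i} e^{z g}` with
`c_{N,i}` smooth with support in `tsupport f`, `c_{N+1,i} = ∂_t c_{N,i} + (∂_t g) c_{N,i-1}`. So
`J(z) = (-1)^{m+1} ∑_i z^i ∫_k ∫_0^∞ t^{z+2m} c_i(t,k) e^{z g(t,k)} dt dν(k)`, analytic for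
`Re z > -(2m+1)` by `LAP` (with `l = log t + g`). At `z = -2m` the integral over `t` is
`-∂_t^m (f e^{-2m g})(0,k)`, which is odd under `τ` if `m` is odd, so its `ν` integral vanishes. -/
def S_MEL : Prop :=
  ∀ (m : ℕ), 1 ≤ m → ∀ (V : Type) [NormedAddCommGroup V] [NormedSpace ℝ V]
    [FiniteDimensional ℝ V] [MeasurableSpace V] [BorelSpace V] (ν : Measure V)
    [IsFiniteMeasureOnCompacts ν] (f : ℝ → V → ℂ) (g : ℝ → V → ℝ) (τ : V → V),
    ContDiff ℝ ∞ (fun p : ℝ × V => f p.1 p.2) → ContDiff ℝ ∞ (fun p : ℝ × V => g p.1 p.2) →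
    HasCompactSupport (fun p : ℝ × V => f p.1 p.2) → MeasurePreserving τ ν ν →
    (∀ᵐ k ∂ν, ∀ t : ℝ, f (-t) (τ k) = f t k ∧ g (-t) (τ k) = g t k) →
    Good m (fun z => ∫ k, (∫ t in Ioi (0 : ℝ), (t : ℂ) ^ (z + m - 1) * f t k *
      Complex.exp (z * g t k)) ∂ν)

/-- **LL** (local continuation). Substitute `v = u + t θ`, `‖θ‖ = 1` (polar coordinates for any
norm: `MeasureTheory.Measure.measurePreserving_homeomorphUnitSphereProd`), and
`φ(u + tθ) - φ(u) = t ψ(t,u,θ)` with `ψ(t,u,θ) = ∫_0^1 Dφ(u + στθ)θ dσ` smooth (smooth parameter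
integrals: `Pool/Agent/W585/Param.lean`). On the compact set of all `(t,u,θ)` with `(u,u+tθ) ∈ K`,
`‖θ‖ = 1`, `ψ ≠ 0` (for `t ≠ 0` by injectivity on the ball, for `t = 0` by the immersion property).
The integrand becomes `t^{m-1} t^z f e^{z g}` with `f = a(u,u+tθ,s) ψ_i ψ_j ‖ψ‖⁻²`,
`g = l(u,u+tθ,s) + log ‖ψ‖`, both multiplied by smooth cut-off functions in order to be globally smooth and `f` of
compact support. Then `MEL` with `V = P m × P m × (ℝ × ℝ)`, `k = (u,θ,s)`, `ν` = Lebesgue ×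
surface measure of the sphere (`Measure.toSphere`, pushed to `P m`) × Lebesgue on the box, and
`τ(u,θ,s) = (u,-θ,s)`. -/
def S_LL : Prop :=
  ∀ (m n : ℕ), 1 ≤ m → ∀ (u₀ : P m) (ρ : ℝ) (φ : P m → E n), 0 < ρ → ContDiff ℝ ∞ φ →
    InjOn φ (Metric.ball u₀ ρ) → (∀ u ∈ Metric.ball u₀ ρ, Function.Injective (fderiv ℝ φ u)) →
    ∀ (a : P m → P m → ℝ × ℝ → ℂ) (l : P m → P m → ℝ × ℝ → ℝ) (K : Set (P m × P m)),
    ContDiff ℝ ∞ (fun p : P m × P m × (ℝ × ℝ) => a p.1 p.2.1 p.2.2) →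
    ContDiff ℝ ∞ (fun p : P m × P m × (ℝ × ℝ) => l p.1 p.2.1 p.2.2) →
    IsCompact K → K ⊆ Metric.ball u₀ ρ ×ˢ Metric.ball u₀ ρ →
    (∀ u v s, (u, v) ∉ K → a u v s = 0) → ∀ i j : Fin n,
    Good m (fun z => ∫ s in box, ∫ u, ∫ v, a u v s * Complex.exp (z * l u v s) *
      (((φ u - φ v) i * (φ u - φ v) j : ℝ) : ℂ) * pw (φ u - φ v) (z - 2))

/-- **CONT** (continuation on `M`). Choose the partition of unity `χ_i` of `PU` (weights in `x`) and a
cut-off `η(x-y)`, `η = 1` near `0`, supported in so small a ball that `x ∈ supp χ_i ∩ M`, `y ∈ M`,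
`x - y ∈ supp η` implies that `x, y` are in a fixed compact part of the image of the `i`-th chart. The
part with `1 - η` is an entire function (`LAP` with `l + log |x-y|`, `|x-y|` bounded below), and an
entire `I` is `Good` (the product has the factor `z+2m`). The part with `χ_i(x) η(x-y)`: in the chart
(`INT`, `FR`) it is a sum of integrals as in `LL`, since `mv · √ · √ = mv (pd φ u) (pd φ v)` and the
same for `cc`, `r^z = ∑_i d_i² r^{z-2}`, and `cc (pd φ u) (pd φ v) d = ∑_{i,j} d_i d_j β_ij(u,v)` with smooth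
`β_ij`. -/
def S_CONT : Prop :=
  ∀ (m n : ℕ), 1 ≤ m → ∀ (M : Sub m n) (α : E n → E n → ℝ × ℝ → ℂ) (l : E n → E n → ℝ × ℝ → ℝ),
    ContDiff ℝ ∞ (fun p : E n × E n × (ℝ × ℝ) => α p.1 p.2.1 p.2.2) →
    ContDiff ℝ ∞ (fun p : E n × E n × (ℝ × ℝ) => l p.1 p.2.1 p.2.2) →
    Good m (KI M α l) ∧ Good m (KJ M α l)

/-- **LSM** a smooth `L` on the whole space which is `½ log om` on `M` (cut-off). -/
def S_LSM : Prop :=
  ∀ (n : ℕ) (K Ω : Set (E n)) (om : E n → ℝ), IsCompact K → IsOpen Ω → K ⊆ Ω →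
    ContDiffOn ℝ ∞ om Ω → (∀ x ∈ Ω, 0 < om x) →
    ∃ L : E n → ℝ, ContDiff ℝ ∞ L ∧ ∀ x ∈ K, L x = Real.log (om x) / 2

/-- **END** (assembly). `A = energy M` is `KI` with `α = 1`, `l = 0`: `Good`. `QQ M L` is `Good` (sums,
products with entire functions, multiples). Identity theorem for meromorphic functions on the half plane
`Re z > -(2m+1)`: `B = J_A / ∏_{j≤m}(z+m+j)` and
`B' - B = (z+2m) J_Q / ∏_{j≤m} (z+m+j) = J_Q / ∏_{j<m} (z+m+j)`. -/
def S_END : Prop := S_MOB → S_LSM → S_DIF → S_CONT → Main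

end Pool.Agent.Q178.MW
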