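import Pool.Agent.Q178.MW.Stm

set_option autoImplicit false

open MeasureTheory Set Filter Topology
open scoped ContDiff

namespace Pool.Agent.Q178.MW.Tools

open Pool.Agent.Q178.MW

variable {m n : ℕ} (M : Sub m n)

theorem ae_mem : ∀ᵐ x ∂M.vol, x ∈ M.carrier := by
  rw [ae_iff]; exact M.vol_compl

theorem meas_carrier : MeasurableSet M.carrier := M.compact.isClosed.measurableSet

theorem restrict_carrier : M.vol.restrict M.carrier = M.vol :=
  Measure.restrict_eq_self_of_ae_mem (ae_mem M)

theorem integrable_of_contOn [IsFiniteMeasure M.vol] {F : Type*} [NormedAddCommGroup F]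
    {f : E n → F} (hf : ContinuousOn f M.carrier) : Integrable f M.vol := by
  have h := hf.integrableOn_compact (μ := M.vol) M.compact
  rwa [IntegrableOn, restrict_carrier] at h

theorem restrict_prod [IsFiniteMeasure M.vol] :
    (M.vol.prod M.vol).restrict (M.carrier ×ˢ M.carrier) = M.vol.prod M.vol := by
  rw [← Measure.prod_restrict, restrict_carrier]

theorem integrable_prod_of_contOn [IsFiniteMeasure M.vol] {F : Type*} [NormedAddCommGroup F]
    {f : E n × E n → F} (hf : ContinuousOn f (M.carrier ×ˢ M.carrier)) :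
    Integrable f (M.vol.prod M.vol) := by
  have h := hf.integrableOn_compact (μ := M.vol.prod M.vol) (M.compact.prod M.compact)
  rwa [IntegrableOn, restrict_prod] at h

theorem pw_zero {z : ℂ} (hz : z ≠ 0) : pw (0 : E n) z = 0 := by
  rw [pw, norm_zero, Complex.ofReal_zero, Complex.zero_cpow hz]

theorem pw_cont {z : ℂ} (hz : 0 < z.re) : Continuous (fun d : E n => pw d z) := by
  have h1 : Continuous fun t : ℝ => (t : ℂ) ^ z := Complex.continuous_ofReal_cpow_const hz
  exact h1.comp continuous_norm

/-- congruence of integrals on `M` -/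
theorem integral_congr {F : Type*} [NormedAddCommGroup F] [NormedSpace ℝ F] {f g : E n → F}
    (h : ∀ x ∈ M.carrier, f x = g x) : ∫ x, f x ∂M.vol = ∫ x, g x ∂M.vol :=
  integral_congr_ae ((ae_mem M).mono h)

theorem integral_congr₂ {F : Type*} [NormedAddCommGroup F] [NormedSpace ℝ F]
    {f g : E n → E n → F} (h : ∀ x ∈ M.carrier, ∀ y ∈ M.carrier, f x y = g x y) :
    ∫ x, ∫ y, f x y ∂M.vol ∂M.vol = ∫ x, ∫ y, g x y ∂M.vol ∂M.vol :=
  integral_congr M fun x hx => integral_congr M fun y hy => h x hx y hy

end Pool.Agent.Q178.MW.Tools
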